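import Pool.Agent.H58.TA.Ret
import Pool.Agent.H52.Tri.Ann

set_option autoImplicit false

/-! RINGS: a black ring inside a white ring: after leaving the outer box the interface never reveals
a face of the inner box. -/

namespace Pool.Agent.H58.TA

open Pool.Agent.H7.UC
open Pool.Agent.H74.Tri (Pos pl pr ph pe pb Bi stp orb IsTip St Rev ExitAt IsExit Jn)
open Pool.Agent.H75.Lv (mixc Ins Ask)
open Pool.Agent.H52.Tri (AX inA Pa)

theorem pa_of_pth {P : Fc → Prop} {f g : Fc} (h : Pth P f g) : Pa P f g := by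
  obtain ⟨h1, h2⟩ := h
  induction h2 with
  | refl => exact Pool.Agent.H52.Tri.Pa.refl h1
  | tail _ h ih => exact ih.tail (Pool.Agent.H52.Tri.TA_iff_adjF.2 h.2) h.1

theorem rings {U : Finset Fc} {ω : Fc → Bool} {p : Pos} {c0 v : Fc} {a0 a b c d : ℕ}
    (hU : St U ω) (hp : IsTip U ω p) (ha0 : a0 < a) (hab : a ≤ b) (hbc : b < c) (hcd : c ≤ d)
    (hB : AX c0 a b (fun z => z ∈ U → ω z = true)) (hW : AX c0 c d (fun z => z ∈ U → ω z = false))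
    (hv : v ∈ U) (hva : v ∈ Bx c0 a0) (hj : Jn {x | x ∈ U ∧ x ∈ Bx c0 a0} v (ph p))
    {i i' : ℕ} {f g : Fc} (hii : i < i') (ha : Ask U ω p i f) (hf : f ∉ Bx c0 d)
    (ha' : Ask U ω p i' g) (hg : Jn {x | x ∈ U ∧ x ∈ Bx c0 a0} v g) : False := by
  obtain ⟨n, hn⟩ := Pool.Agent.H98.Tri.int1 U ω p hp
  have hin' : i ≤ n := by
    by_contra hni
    have h2 := ha.1 (n + 1) (by omega) (by omega)
    rw [Pool.Agent.H74.Tri.inE_pe] at h2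
    rcases h2 with h2 | h2
    · exact hn.2.2.2.1 h2
    · exact hn.2.2.2.2.1 h2
  set Cb : Set Fc := {h | ω h = true ∧ inA c0 a b h} with hCb
  set Cw : Set Fc := {h | ω h = false ∧ inA c0 c d h} with hCw
  have hnb : ∀ x, x ∈ Bx c0 a0 → x ∉ Cb := by
    rintro x hx ⟨_, _, h2⟩
    rw [mem_Bx] at hx
    omega
  have hfd : f.1 < c0.1 - d ∨ c0.1 + d < f.1 ∨ f.2 < c0.2 - d ∨ c0.2 + d < f.2 := by
    rw [mem_Bx] at hf
    omega
  have hfb : f ∉ Cb := by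
    rintro ⟨_, h1, _⟩
    omega
  have hfw : f ∉ Cw := by
    rintro ⟨_, h1, _⟩
    omega
  have hmono : ∀ x, Jn {x | x ∈ U ∧ x ∈ Bx c0 a0} v x → Jn {x | x ∈ U ∧ x ∉ Cb} v x := by
    intro x hx
    refine Pool.Agent.H74.Tri.Jn.mono (T := {x | x ∈ U ∧ x ∉ Cb}) ?_ hx
    rintro y ⟨h2, h3⟩
    exact ⟨h2, hnb y h3⟩
  have key := Pool.Agent.H74.Tri.lr U ω hU Cb Cw (fun x _ hx => hx.1) (fun x _ hx => hx.1) p v f hp
    hv (hnb v hva) ha.2.2.1 hfb hfw (hmono _ hj) ?_ ?_ i n hn hin' ha.2.1 g (hmono _ hg) (i' + 1) ?_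
  · exact ha'.2.2.2 (Pool.Agent.H74.Tri.Rev.mono hii.le key)
  · intro hve
    have h1 : Pth (fun x => x ∈ U ∧ x ∉ Cb) v f := ⟨⟨hv, hnb v hva⟩, hve⟩
    rw [mem_Bx] at hva
    obtain ⟨z, ⟨hz1, hz2⟩, hz3, hz4⟩ := hB.block hab (pa_of_pth h1) (by omega) (by omega)
    exact hz2 ⟨hz3 hz1, hz4⟩
  · intro x hfx hxb
    have h1 : Pth (fun x => x ∈ U ∧ x ∉ Cw) f x := ⟨⟨ha.2.2.1, hfw⟩, hfx⟩
    have h2 := hxb.2.1
    obtain ⟨z, ⟨hz1, hz2⟩, hz3, hz4⟩ := hW.block hcd (pa_of_pth h1.symm) (by omega) (by omega)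
    exact hz2 ⟨hz3 hz1, hz4⟩
  · rw [← ha'.2.1]
    exact Pool.Agent.H74.Tri.ph_next ω p i'

end Pool.Agent.H58.TA
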