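import Pool.Agent.H58.TA.One
import Pool.Agent.H75.Lv.Lev
import Pool.Agent.H74.Tri.MIrr

set_option autoImplicit false

/-! RET: leave `Bx v R` and come back to `Bx v ρf`. -/

namespace Pool.Agent.H58.TA

open Pool.Agent.H7.UC
open Pool.Agent.H75.Perc (Pr Pr_congr Pr_mono Pr_nonneg Pr_le_one Pr_indep Pr_or_le)
open Pool.Agent.H74.Tri (Pos pl pr ph pe pb Bi stp orb IsTip St Rev ExitAt IsExit Jn chg tch LR
  adjF_symm adj_hl adj_hr orb_succ adjF_lr)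
open Pool.Agent.H75.Lv (mixc Ins Ask)

theorem lbx_eq (v : Fc) (n : ℕ) : Pool.Agent.H75.Lv.Bx v (n : ℤ) = Bx v n := rfl

/-- boxes are connected -/
theorem jn_Bx {z f g : Fc} {s : ℤ} (hf : f ∈ Pool.Agent.H75.Lv.Bx z s)
    (hg : g ∈ Pool.Agent.H75.Lv.Bx z s) : Jn (↑(Pool.Agent.H75.Lv.Bx z s)) f g := by
  have hs : 0 ≤ s := by
    rw [Pool.Agent.H75.Lv.mem_Bx] at hf
    exact (abs_nonneg _).trans hf.1
  obtain ⟨n, rfl⟩ := Int.eq_ofNat_of_zero_le hs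
  exact (cn_Bx z n f hf g hg).2

theorem mixc_off {D w : Finset Fc} {col : Fc → Bool} {f : Fc} (h : f ∉ D) :
    mixc D w col f = col f := by
  unfold mixc
  rw [if_neg h]

theorem mixc_in {D w : Finset Fc} {col : Fc → Bool} {f : Fc} (h : f ∈ D) :
    mixc D w col f = decide (f ∈ w) := by
  unfold mixc
  rw [if_pos h]

/-- a state depends only on the colours off `U` -/
theorem st_congr {U : Finset Fc} {c c' : Fc → Bool} (h : St U c) (hc : ∀ f, f ∉ U → c' f = c f) :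
    St U c' := by
  have h1 : ∀ v, chg U c' v → chg U c v := by
    rintro v ⟨k, h1, h2, h3, h4⟩
    refine ⟨k, h1, h2, h3, ?_⟩
    rw [← hc _ h2, ← hc _ h3]
    exact h4
  refine ⟨h.dom, fun a b d ha hb hd => h.two a b d (h1 a ha) (h1 b hb) (h1 d hd), ?_⟩
  intro f g hf hg hf' hg' he
  rw [hc _ hf, hc _ hg] at he
  have h2 := h.cc f g hf hg hf' hg' he
  have e : {a | a ∉ U ∧ c' a = c' f} = {a | a ∉ U ∧ c a = c f} := by
    ext a
    constructor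
    · rintro ⟨h3, h4⟩
      refine ⟨h3, ?_⟩
      rw [← hc _ h3, ← hc _ hf]
      exact h4
    · rintro ⟨h3, h4⟩
      refine ⟨h3, ?_⟩
      rw [hc _ h3, hc _ hf]
      exact h4
  rw [e]
  exact h2

theorem tip_congr {U : Finset Fc} {c c' : Fc → Bool} {p : Pos} (h : IsTip U c p)
    (hc : ∀ f, f ∉ U → c' f = c f) : IsTip U c' p :=
  ⟨h.1, h.2.1, h.2.2.1, by rw [hc _ h.2.1]; exact h.2.2.2.1, by rw [hc _ h.2.2.1]; exact h.2.2.2.2⟩

theorem orb_left (ω : Fc → Bool) (p : Pos) (i : ℕ) :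
    pl (orb ω p (i + 1)) = pl (orb ω p i) ∨ adjF (pl (orb ω p i)) (pl (orb ω p (i + 1))) := by
  rcases Pool.Agent.H74.Tri.next_cases ω p i with ⟨h1, _⟩ | ⟨h1, _⟩
  · right
    rw [h1]
    exact adjF_symm (adj_hl _)
  · left; exact h1

theorem orb_right (ω : Fc → Bool) (p : Pos) (i : ℕ) :
    pr (orb ω p (i + 1)) = pr (orb ω p i) ∨ adjF (pr (orb ω p i)) (pr (orb ω p (i + 1))) := by
  rcases Pool.Agent.H74.Tri.next_cases ω p i with ⟨_, h1⟩ | ⟨_, h1⟩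
  · left; exact h1
  · right
    rw [h1]
    exact adjF_symm (adj_hr _)

/-- the left faces form a black path -/
theorem left_path {ω : Fc → Bool} {p : Pos} (h : Bi ω p) {i j : ℕ} (hij : i ≤ j) :
    Pth (fun f => ω f = true) (pl (orb ω p i)) (pl (orb ω p j)) := by
  induction j, hij using Nat.le_induction with
  | base => exact Pth.refl (h.orb i).1
  | succ j _ ih =>
    rcases orb_left ω p j with h1 | h1
    · rw [h1]; exact ih
    · exact ih.step (h.orb (j + 1)).1 h1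

theorem right_path {ω : Fc → Bool} {p : Pos} (h : Bi ω p) {i j : ℕ} (hij : i ≤ j) :
    Pth (fun f => ω f = false) (pr (orb ω p i)) (pr (orb ω p j)) := by
  induction j, hij using Nat.le_induction with
  | base => exact Pth.refl (h.orb i).2
  | succ j _ ih =>
    rcases orb_right ω p j with h1 | h1
    · rw [h1]; exact ih
    · exact ih.step (h.orb (j + 1)).2 h1

/-- a path from the box `a` to the outside of the box `b` gives an arm -/
theorem arm_of {P : Fc → Prop} {S : Finset Fc} {z f g : Fc} {a b : ℕ} (hab : a + 1 ≤ b)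
    (h : Pth P f g) (hf : f ∈ Bx z a) (hg : g ∉ Bx z b)
    (hS : ∀ f, f ∈ Bx z b → f ∉ Bx z a → P f → f ∈ S) {r R : ℝ} (hr : 2 * (a : ℝ) + 1 ≤ r)
    (hR : R ≤ 4 / 5 * ((b : ℝ) + 1) - 1) : Arm (ctr z) r R S := by
  obtain ⟨x, ⟨y, ⟨j, hj, hjy⟩, hp⟩, w, hw, hxw⟩ :=
    arm_cut (Bx_sub (by omega)) (Sep_Bx hab) h hf hg
  rw [Finset.mem_coe] at hj
  have hp' : Pth (fun h => h ∈ S) y x := hp.mono fun c hc => hS c hc.1 hc.2.1 hc.2.2
  refine ⟨y, x, hp'.1, ?_, ?_, hp'.2⟩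
  · have h2 := norm_le_of_mem hj
    have h3 := norm_adj hjy
    rw [show ctr y - ctr z = (ctr y - ctr j) + (ctr j - ctr z) by ring]
    exact (norm_add_le _ _).trans (by linarith)
  · have h2 := le_norm_of_not_mem hw
    have h3 := norm_adj hxw
    have h4 : ‖ctr w - ctr z‖ ≤ ‖ctr x - ctr w‖ + ‖ctr x - ctr z‖ := by
      rw [show ctr w - ctr z = (ctr x - ctr z) - (ctr x - ctr w) by ring, add_comm]
      exact norm_sub_le _ _
    linarith

/-- the event: a face off `Bx v R` is asked, and later a face of `Bx v ρ` -/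
def RetE (U : Finset Fc) (col : Fc → Bool) (p : Pos) (v : Fc) (R rf : ℕ) (w : Finset Fc) : Prop :=
  ∃ i i' f g, i < i' ∧ Ask U (mixc (U ∩ Bx v R) w col) p i f ∧
    f ∉ Bx v R ∧ Ask U (mixc (U ∩ Bx v R) w col) p i' g ∧ g ∈ Bx v rf

/-- the two arms -/
theorem ret_two {U : Finset Fc} {col : Fc → Bool} {p : Pos} {v : Fc} {R rf r1 : ℕ} {w : Finset Fc}
    (hp : IsTip U col p) (h1 : Bx v r1 ⊆ U) (hR : r1 ≤ R) (hr : rf + 3 ≤ r1)
    (h : RetE U col p v R rf (w ∩ (U ∩ Bx v R))) {r S : ℝ} (hr1 : 2 * (rf : ℝ) + 3 ≤ r)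
    (hS : S ≤ 4 / 5 * (r1 : ℝ) - 1) :
    Two (ctr v) r S (Bx v r1) (w ∩ Bx v r1) := by
  obtain ⟨i, i', f, g, hii, ha, hfR, ha', hg⟩ := h
  set ω := mixc (U ∩ Bx v R) (w ∩ (U ∩ Bx v R)) col with hω
  have hc : ∀ f, f ∉ U → ω f = col f := fun f hf =>
    mixc_off fun h => hf (Finset.mem_inter.1 h).1
  have hb : Bi ω p := (tip_congr hp hc).2.2.2
  have hin : ∀ f, f ∈ Bx v r1 → ω f = decide (f ∈ w) := by
    intro f hf
    have h2 : f ∈ U ∩ Bx v R := Finset.mem_inter.2 ⟨h1 hf, Bx_sub hR hf⟩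
    rw [hω, mixc_in h2]
    congr 1
    exact propext ⟨fun h => (Finset.mem_inter.1 h).1, fun h => Finset.mem_inter.2 ⟨h, h2⟩⟩
  have hadjin : ∀ a, adjF g a → a ∈ Bx v (rf + 1) := by
    intro a ha
    rw [Pool.Agent.H74.Tri.adjF_iff] at ha
    rw [mem_Bx] at hg ⊢
    push_cast
    omega
  have hadjout : ∀ a, adjF f a → a ∉ Bx v (r1 - 1) := by
    intro a ha h2
    apply hfR
    rw [Pool.Agent.H74.Tri.adjF_iff] at ha
    rw [mem_Bx] at h2 ⊢
    have : ((r1 - 1 : ℕ) : ℤ) = (r1 : ℤ) - 1 := by omega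
    rw [this] at h2
    omega
  have hcast : (((r1 - 1 : ℕ) : ℝ)) = (r1 : ℝ) - 1 := by
    have h2 : ((r1 - 1 : ℕ) : ℝ) + 1 = r1 := by
      have : r1 - 1 + 1 = r1 := by omega
      exact_mod_cast this
    linarith
  have hsub : Bx v (r1 - 1) ⊆ Bx v r1 := Bx_sub (by omega)
  have e1 : ph (orb ω p i) = f := ha.2.1
  have e2 : ph (orb ω p i') = g := ha'.2.1
  constructor
  · refine arm_of (P := fun f => ω f = true) (a := rf + 1) (b := r1 - 1) (by omega)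
      (left_path hb hii.le).symm ?_ ?_ ?_ ?_ ?_
    · apply hadjin; rw [← e2]; exact adj_hl _
    · apply hadjout; rw [← e1]; exact adj_hl _
    · intro a ha1 _ ha3
      rw [hin a (hsub ha1), decide_eq_true_iff] at ha3
      exact Finset.mem_inter.2 ⟨ha3, hsub ha1⟩
    · push_cast; linarith
    · rw [hcast]; linarith
  · refine arm_of (P := fun f => ω f = false) (a := rf + 1) (b := r1 - 1) (by omega)
      (right_path hb hii.le).symm ?_ ?_ ?_ ?_ ?_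
    · apply hadjin; rw [← e2]; exact adj_hr _
    · apply hadjout; rw [← e1]; exact adj_hr _
    · intro a ha1 _ ha3
      rw [hin a (hsub ha1), decide_eq_false_iff_not] at ha3
      exact Finset.mem_sdiff.2 ⟨hsub ha1, fun h => ha3 (Finset.mem_inter.1 h).1⟩
    · push_cast; linarith
    · rw [hcast]; linarith

/-- the left-right argument: an arm in one of the two annuli -/
theorem ret_lr {U : Finset Fc} {col : Fc → Bool} {p : Pos} {v : Fc} {R rf r1 ρ m : ℕ} {w : Finset Fc}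
    (hU : St U col) (hp : IsTip U col p) (h1 : Bx v r1 ⊆ U) (hr1 : r1 ≤ ρ) (hrf : rf ≤ r1)
    (hm : ρ + 1 ≤ m) (hmR : m + 1 ≤ R) (hj : Jn {a | a ∈ U ∧ a ∈ Bx v ρ} v (ph p))
    (h : RetE U col p v R rf (w ∩ (U ∩ Bx v R))) {r S r' S' : ℝ} (hr : 2 * (ρ : ℝ) + 1 ≤ r)
    (hS : S ≤ 4 / 5 * ((m : ℝ) + 1) - 1) (hr' : 2 * (m : ℝ) + 1 ≤ r')
    (hS' : S' ≤ 4 / 5 * ((R : ℝ) + 1) - 1) {E : Finset Fc} (hE : E = Bx v R \ Bx v r1) :
    Arm (ctr v) r S (E \ (w ∩ E)) ∨ Arm (ctr v) r' S' (w ∩ E) := by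
  obtain ⟨i, i', f, g, hii, ha, hfR, ha', hg⟩ := h
  set ω := mixc (U ∩ Bx v R) (w ∩ (U ∩ Bx v R)) col with hω
  have hc : ∀ f, f ∉ U → ω f = col f := fun f hf =>
    mixc_off fun h => hf (Finset.mem_inter.1 h).1
  have hUω : St U ω := st_congr hU hc
  have hpω : IsTip U ω p := tip_congr hp hc
  have hin : ∀ f, f ∈ U → f ∈ Bx v R → ω f = decide (f ∈ w) := by
    intro f hf hf'
    have h2 : f ∈ U ∩ Bx v R := Finset.mem_inter.2 ⟨hf, hf'⟩
    rw [hω, mixc_in h2]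
    congr 1
    exact propext ⟨fun h => (Finset.mem_inter.1 h).1, fun h => Finset.mem_inter.2 ⟨h, h2⟩⟩
  by_contra hcon
  rw [not_or] at hcon
  obtain ⟨hw, hbk⟩ := hcon
  obtain ⟨n, hn⟩ := Pool.Agent.H98.Tri.int1 U ω p hpω
  have hvρ : v ∈ Bx v ρ := by rw [mem_Bx]; omega
  have hvr1 : v ∈ Bx v r1 := by rw [mem_Bx]; omega
  have hρm : Bx v ρ ⊆ Bx v m := Bx_sub (by omega)
  have hmR' : Bx v m ⊆ Bx v R := Bx_sub (by omega)
  have hr1ρ : Bx v r1 ⊆ Bx v ρ := Bx_sub hr1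
  have hin' : i ≤ n := by
    by_contra hni
    have h2 := ha.1 (n + 1) (by omega) (by omega)
    rw [Pool.Agent.H74.Tri.inE_pe] at h2
    rcases h2 with h2 | h2
    · exact hn.2.2.2.1 h2
    · exact hn.2.2.2.2.1 h2
  set Cb : Set Fc := {h | h ∈ w ∧ h ∈ Bx v m ∧ h ∉ Bx v ρ} with hCb
  set Cw : Set Fc := {h | h ∉ w ∧ h ∈ Bx v R ∧ h ∉ Bx v m} with hCw
  have hgρ : g ∈ Bx v ρ := hr1ρ (Bx_sub hrf hg)
  have hbx : ∀ a, a ∈ Bx v r1 → a ∈ U ∧ a ∉ Cb := fun a ha =>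
    ⟨h1 ha, fun h => h.2.2 (hr1ρ ha)⟩
  have key := Pool.Agent.H74.Tri.lr U ω hUω Cb Cw ?_ ?_ p v f hpω (h1 hvr1) (fun h => h.2.2 hvρ)
    ha.2.2.1 (fun h => hfR (hmR' h.2.1)) (fun h => hfR h.2.1) ?_ ?_ ?_ i n hn hin' ha.2.1 g ?_
    (i' + 1) ?_
  · exact ha'.2.2.2 (Pool.Agent.H74.Tri.Rev.mono hii.le key)
  · intro a haU ha
    rw [hin a haU (hmR' ha.2.1), decide_eq_true_iff]
    exact ha.1
  · intro a haU ha
    rw [hin a haU ha.2.1, decide_eq_false_iff_not]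
    exact ha.1
  · refine Pool.Agent.H74.Tri.Jn.mono (T := {a | a ∈ U ∧ a ∉ Cb}) ?_ hj
    rintro a ⟨h2, h3⟩
    exact ⟨h2, fun h => h.2.2 h3⟩
  · intro hve
    apply hw
    refine arm_of (P := fun a => a ∈ U ∧ a ∉ Cb) (a := ρ) (b := m) hm
      ⟨⟨h1 hvr1, fun h => h.2.2 hvρ⟩, hve⟩ hvρ (fun h => hfR (hmR' h)) ?_ hr hS
    intro a ha1 ha2 ha3
    have h3 : a ∉ w := fun h => ha3.2 ⟨h, ha1, ha2⟩
    have h4 : a ∈ E := by
      rw [hE, Finset.mem_sdiff]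
      exact ⟨hmR' ha1, fun h => ha2 (hr1ρ h)⟩
    exact Finset.mem_sdiff.2 ⟨h4, fun h => h3 (Finset.mem_inter.1 h).1⟩
  · intro a hfa haCb
    apply hbk
    have h2 : Pth (fun a => a ∈ U ∧ a ∉ Cw) f a := ⟨⟨ha.2.2.1, fun h => hfR h.2.1⟩, hfa⟩
    refine arm_of (P := fun a => a ∈ U ∧ a ∉ Cw) (a := m) (b := R) hmR h2.symm haCb.2.1 hfR ?_ hr' hS'
    intro b hb1 hb2 hb3
    have h3 : b ∈ w := by
      by_contra h
      exact hb3.2 ⟨h, hb1, hb2⟩
    have h4 : b ∈ E := by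
      rw [hE, Finset.mem_sdiff]
      exact ⟨hb1, fun h => hb2 (hρm (hr1ρ h))⟩
    exact Finset.mem_inter.2 ⟨h3, h4⟩
  · exact ((cn_Bx v r1 v hvr1 g (Bx_sub hrf hg)).mono hbx).2
  · rw [← ha'.2.1]
    exact Pool.Agent.H74.Tri.ph_next ω p i'

end Pool.Agent.H58.TA
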