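import Pool.Agent.H58.TA.Iface
import Pool.Agent.H63.UC.MD2
import Pool.Agent.H98.UC.Strand

set_option autoImplicit false

/-! Faces, paths of faces and chains: basic lemmas for the static two-arm bound. -/

namespace Pool.Agent.H58.TA

open Pool.Agent.H7.UC Pool.Agent.H63.UC

theorem adj_iff {f g : Fc} : adjF f g ↔ ∃ v k, fc v (k + 1) = f ∧ fc v (k + 2) = g := by
  constructor
  · rintro ⟨e, ⟨h1, h2⟩ | ⟨h1, h2⟩⟩
    · exact ⟨(e.1, e.2.1, false), e.2.2, h1, h2⟩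
    · refine ⟨nb (e.1, e.2.1, false) e.2.2, e.2.2, ?_, ?_⟩
      · rw [fc_nb1]; exact h2
      · rw [fc_nb2]; exact h1
  · rintro ⟨v, k, rfl, rfl⟩
    rcases faces_ed v k with ⟨_, h1, h2⟩ | ⟨_, h1, h2⟩
    · exact ⟨ed v k, Or.inl ⟨h1, h2⟩⟩
    · exact ⟨ed v k, Or.inr ⟨h1, h2⟩⟩

theorem adj_symm {f g : Fc} (h : adjF f g) : adjF g f := by
  obtain ⟨e, h | h⟩ := h
  · exact ⟨e, Or.inr h⟩
  · exact ⟨e, Or.inl h⟩

theorem adj_fc (v : Vx) {k l : Fin 3} (h : k ≠ l) : adjF (fc v k) (fc v l) := by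
  rcases (fin3_third h) with ⟨h1, h2⟩ | ⟨h1, h2⟩
  · apply adj_symm
    apply adj_iff.2
    refine ⟨v, k + 1, ?_, ?_⟩
    · rw [f11, h2]
    · rw [f12]
  · apply adj_iff.2
    refine ⟨v, k + 2, ?_, ?_⟩
    · rw [f21]
    · rw [f22, h2]

section Path

variable {P Q : Fc → Prop} {f g h : Fc}

theorem Pth.refl (hf : P f) : Pth P f f := ⟨hf, Relation.ReflTransGen.refl⟩

theorem Pth.end_mem (hp : Pth P f g) : P g := by
  obtain ⟨h1, h2⟩ := hp
  induction h2 with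
  | refl => exact h1
  | tail _ h _ => exact h.1

theorem Pth.trans (h1 : Pth P f g) (h2 : Pth P g h) : Pth P f h := ⟨h1.1, h1.2.trans h2.2⟩

theorem Pth.step (h1 : Pth P f g) (hh : P h) (ha : adjF g h) : Pth P f h :=
  ⟨h1.1, h1.2.tail ⟨hh, ha⟩⟩

theorem Pth.single (hf : P f) (hg : P g) (ha : adjF f g) : Pth P f g :=
  (Pth.refl hf).step hg ha

theorem Pth.symm (hp : Pth P f g) : Pth P g f := by
  obtain ⟨h1, h2⟩ := hp
  induction h2 with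
  | refl => exact Pth.refl h1
  | tail h2 h ih =>
    exact (Pth.single h.1 (Pth.end_mem ⟨h1, h2⟩) (adj_symm h.2)).trans ih

theorem Pth.mono (hPQ : ∀ f, P f → Q f) (hp : Pth P f g) : Pth Q f g :=
  ⟨hPQ _ hp.1, Relation.ReflTransGen.mono
    (show (fun a b => P b ∧ adjF a b) ≤ (fun a b => Q b ∧ adjF a b) from
      fun _ _ h => ⟨hPQ _ h.1, h.2⟩) _ _ hp.2⟩

/-- a path that starts in `Q` and ends outside: the last vertex of the first part in `Q`. -/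
theorem Pth.exit (hp : Pth P f g) (hf : Q f) (hg : ¬ Q g) :
    ∃ a b, Pth (fun x => P x ∧ Q x) f a ∧ adjF a b ∧ P b ∧ ¬ Q b ∧ Pth P b g := by
  obtain ⟨h1, h2⟩ := hp
  induction h2 using Relation.ReflTransGen.head_induction_on with
  | refl => exact absurd hf hg
  | @head a c hac hcg ih =>
    by_cases hc : Q c
    · obtain ⟨a', b', h3, h4, h5, h6, h7⟩ := ih hc hac.1
      exact ⟨a', b', (Pth.single ⟨h1, hf⟩ ⟨hac.1, hc⟩ hac.2).trans h3, h4, h5, h6, h7⟩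
    · exact ⟨a, c, Pth.refl ⟨h1, hf⟩, hac.2, hac.1, hc, ⟨hac.1, hcg⟩⟩

end Path

/-- `I` is connected -/
def Cn (I : Finset Fc) : Prop := ∀ f ∈ I, ∀ g ∈ I, Pth (fun h => h ∈ I) f g

theorem ind_adj {s : Set Fc} {c : Ed → ZMod 2} (hc : ∀ e, c e = bd s e) {f g : Fc} (h : adjF f g)
    (h0 : ∀ e, ((lf e = f ∧ rf e = g) ∨ (lf e = g ∧ rf e = f)) → c e = 0) : ind s f = ind s g := by
  obtain ⟨e, he⟩ := h
  have h1 := hc e
  rw [h0 e he] at h1
  have h2 := z2_eq h1.symm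
  rcases he with ⟨h3, h4⟩ | ⟨h3, h4⟩
  · rw [← h3, ← h4]; exact h2
  · rw [← h3, ← h4]; exact h2.symm

theorem ind_path {s : Set Fc} {c : Ed → ZMod 2} (hc : ∀ e, c e = bd s e) {P : Fc → Prop}
    (h0 : ∀ e, P (lf e) → P (rf e) → c e = 0) {f g : Fc} (h : Pth P f g) : ind s f = ind s g := by
  obtain ⟨h1, h2⟩ := h
  induction h2 with
  | refl => rfl
  | @tail b c' h2 h3 ih =>
    rw [ih]
    have hb : P b := Pth.end_mem ⟨h1, h2⟩
    refine ind_adj hc h3.2 fun e he => ?_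
    rcases he with ⟨h4, h5⟩ | ⟨h4, h5⟩
    · exact h0 e (h4 ▸ hb) (h5 ▸ h3.1)
    · exact h0 e (h4 ▸ h3.1) (h5 ▸ hb)

/-- classes of faces in the annulus `W \ I` -/
def Blk (W I ω : Finset Fc) (f : Fc) : Prop := f ∈ W ∧ f ∉ I ∧ f ∈ ω
def Wht (W I ω : Finset Fc) (f : Fc) : Prop := f ∈ W ∧ f ∉ I ∧ f ∉ ω

/-- faces joined to `I` in the class `P` -/
def Kc (I : Finset Fc) (P : Fc → Prop) : Set Fc := {f | ∃ g, Nx ↑I g ∧ Pth P g f}

/-- no vertex touches both the outside of `W` and `I` -/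
def Sep (W I : Finset Fc) : Prop := ∀ v k l, fc v k ∉ W → fc v l ∉ I

theorem Kc_mem {I : Finset Fc} {P : Fc → Prop} {f : Fc} (h : f ∈ Kc I P) : P f := by
  obtain ⟨g, _, h2⟩ := h
  exact h2.end_mem

theorem Kc_step {I : Finset Fc} {P : Fc → Prop} {f g : Fc} (h : f ∈ Kc I P) (hg : P g)
    (ha : adjF f g) : g ∈ Kc I P := by
  obtain ⟨a, h1, h2⟩ := h
  exact ⟨a, h1, h2.step hg ha⟩

/-- edges between the class `A` and the class `B` -/
noncomputable def btw (A B : Set Fc) (e : Ed) : ZMod 2 :=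
  ind A (lf e) * ind B (rf e) + ind B (lf e) * ind A (rf e)

theorem btw_ed (A B : Set Fc) (v : Vx) (k : Fin 3) :
    btw A B (ed v k) = ind A (fc v (k + 1)) * ind B (fc v (k + 2)) +
      ind B (fc v (k + 1)) * ind A (fc v (k + 2)) := by
  unfold btw
  rcases faces_ed v k with ⟨_, h1, h2⟩ | ⟨_, h1, h2⟩
  · rw [h1, h2]
  · rw [h1, h2]; ring

theorem btw_zero {A B : Set Fc} {e : Ed} (h : (lf e ∉ A ∧ rf e ∉ A) ∨ (lf e ∉ B ∧ rf e ∉ B)) :
    btw A B e = 0 := by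
  unfold btw
  rcases h with ⟨h1, h2⟩ | ⟨h1, h2⟩
  · rw [ind_of_not_mem h1, ind_of_not_mem h2]; ring
  · rw [ind_of_not_mem h1, ind_of_not_mem h2]; ring

theorem btw_one {A B : Set Fc} (hAB : ∀ f, f ∈ A → f ∉ B) {v : Vx} {k : Fin 3}
    (h : btw A B (ed v k) = 1) : (fc v (k + 1) ∈ A ∧ fc v (k + 2) ∈ B) ∨
      (fc v (k + 1) ∈ B ∧ fc v (k + 2) ∈ A) := by
  rw [btw_ed] at h
  by_cases h1 : fc v (k + 1) ∈ A
  · by_cases h2 : fc v (k + 2) ∈ B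
    · exact Or.inl ⟨h1, h2⟩
    · rw [ind_of_not_mem h2, ind_of_not_mem (hAB _ h1)] at h
      simp at h
  · rw [ind_of_not_mem h1] at h
    by_cases h2 : fc v (k + 1) ∈ B
    · by_cases h3 : fc v (k + 2) ∈ A
      · exact Or.inr ⟨h2, h3⟩
      · rw [ind_of_not_mem h3] at h
        simp at h
    · rw [ind_of_not_mem h2] at h
      simp at h

theorem btw_of {A B : Set Fc} (hAB : ∀ f, f ∈ A → f ∉ B) {v : Vx} {k : Fin 3}
    (h : (fc v (k + 1) ∈ A ∧ fc v (k + 2) ∈ B) ∨ (fc v (k + 1) ∈ B ∧ fc v (k + 2) ∈ A)) :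
    btw A B (ed v k) = 1 := by
  rw [btw_ed]
  rcases h with ⟨h1, h2⟩ | ⟨h1, h2⟩
  · rw [ind_of_mem h1, ind_of_mem h2, ind_of_not_mem (hAB _ h1)]; simp
  · rw [ind_of_mem h1, ind_of_mem h2, ind_of_not_mem (hAB _ h2)]; simp

end Pool.Agent.H58.TA
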