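import Pool.Agent.H58.TA.Base

set_option autoImplicit false

/-! Boxes: connected, connected complement, distances. -/

namespace Pool.Agent.H58.TA

open Pool.Agent.H7.UC Pool.Agent.H63.UC

theorem adj_right (a b : ℤ) : adjF (a, b) (a + 1, b) := ⟨(a, b, 0), Or.inl ⟨rfl, rfl⟩⟩

theorem adj_up (a b : ℤ) : adjF (a, b) (a, b + 1) := ⟨(a, b, 2), Or.inr ⟨rfl, rfl⟩⟩

theorem hline (P : Fc → Prop) (a b : ℤ) (n : ℕ) (h : ∀ i : ℕ, i ≤ n → P (a + i, b)) :
    Pth P (a, b) (a + n, b) := by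
  induction n with
  | zero =>
    have := h 0 (le_refl 0)
    simp only [Nat.cast_zero, add_zero] at this ⊢
    exact Pth.refl this
  | succ n ih =>
    have h1 := ih fun i hi => h i (by omega)
    refine h1.step (h (n + 1) (le_refl _)) ?_
    have h2 := adj_right (a + n) b
    push_cast
    rw [add_assoc] at h2
    exact h2

theorem vline (P : Fc → Prop) (a b : ℤ) (n : ℕ) (h : ∀ i : ℕ, i ≤ n → P (a, b + i)) :
    Pth P (a, b) (a, b + n) := by
  induction n with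
  | zero =>
    have := h 0 (le_refl 0)
    simp only [Nat.cast_zero, add_zero] at this ⊢
    exact Pth.refl this
  | succ n ih =>
    have h1 := ih fun i hi => h i (by omega)
    refine h1.step (h (n + 1) (le_refl _)) ?_
    have h2 := adj_up a (b + n)
    push_cast
    rw [add_assoc] at h2
    exact h2

theorem hmove (P : Fc → Prop) (a c b : ℤ) (h : ∀ i, min a c ≤ i → i ≤ max a c → P (i, b)) :
    Pth P (a, b) (c, b) := by
  rcases le_total a c with hac | hac
  · obtain ⟨n, hn⟩ := Int.eq_ofNat_of_zero_le (sub_nonneg.2 hac)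
    have e : c = a + n := by omega
    rw [e]
    refine hline P a b n fun i hi => h _ ?_ ?_
    · rw [min_eq_left hac]; omega
    · rw [max_eq_right hac]; omega
  · obtain ⟨n, hn⟩ := Int.eq_ofNat_of_zero_le (sub_nonneg.2 hac)
    have e : a = c + n := by omega
    rw [e]
    refine (hline P c b n fun i hi => h _ ?_ ?_).symm
    · rw [min_eq_right hac]; omega
    · rw [max_eq_left hac]; omega

theorem vmove (P : Fc → Prop) (a b d : ℤ) (h : ∀ i, min b d ≤ i → i ≤ max b d → P (a, i)) :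
    Pth P (a, b) (a, d) := by
  rcases le_total b d with hac | hac
  · obtain ⟨n, hn⟩ := Int.eq_ofNat_of_zero_le (sub_nonneg.2 hac)
    have e : d = b + n := by omega
    rw [e]
    refine vline P a b n fun i hi => h _ ?_ ?_
    · rw [min_eq_left hac]; omega
    · rw [max_eq_right hac]; omega
  · obtain ⟨n, hn⟩ := Int.eq_ofNat_of_zero_le (sub_nonneg.2 hac)
    have e : b = d + n := by omega
    rw [e]
    refine (vline P a d n fun i hi => h _ ?_ ?_).symm
    · rw [min_eq_right hac]; omega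
    · rw [max_eq_left hac]; omega

/-- the box of half side `m` around `z` -/
noncomputable def Bx (z : Fc) (m : ℕ) : Finset Fc :=
  Finset.Icc (z.1 - m) (z.1 + m) ×ˢ Finset.Icc (z.2 - m) (z.2 + m)

theorem mem_Bx {z f : Fc} {m : ℕ} : f ∈ Bx z m ↔
    (z.1 - m ≤ f.1 ∧ f.1 ≤ z.1 + m) ∧ (z.2 - m ≤ f.2 ∧ f.2 ≤ z.2 + m) := by
  unfold Bx
  rw [Finset.mem_product, Finset.mem_Icc, Finset.mem_Icc]

theorem cn_Bx (z : Fc) (m : ℕ) : Cn (Bx z m) := by
  rintro ⟨a, b⟩ hf ⟨c, d⟩ hg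
  rw [mem_Bx] at hf hg
  simp only at hf hg
  refine (hmove _ a c b fun i h1 h2 => ?_).trans (vmove _ c b d fun i h1 h2 => ?_)
  · rw [mem_Bx]
    simp only
    constructor
    · constructor
      · exact (le_min hf.1.1 hg.1.1).trans h1
      · exact h2.trans (max_le hf.1.2 hg.1.2)
    · exact hf.2
  · rw [mem_Bx]
    simp only
    constructor
    · exact hg.1
    · constructor
      · exact (le_min hf.2.1 hg.2.1).trans h1
      · exact h2.trans (max_le hf.2.2 hg.2.2)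

theorem isDom_Bx (z : Fc) (m : ℕ) : IsDom (Bx z m) := by
  refine ⟨⟨z, ?_⟩, fun f hf g hg => (cn_Bx z m f hf g hg).2, ?_⟩
  · rw [mem_Bx]; constructor <;> constructor <;> omega
  · have key : ∀ f : Fc, f ∉ Bx z m → Pth (fun h => h ∉ Bx z m) f (z.1 + m + 1, z.2 + m + 1) := by
      rintro ⟨a, b⟩ hf
      rw [mem_Bx] at hf
      simp only at hf
      have hcases : a < z.1 - m ∨ z.1 + m < a ∨ b < z.2 - m ∨ z.2 + m < b := by
        by_contra h
        push Not at h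
        exact hf ⟨⟨h.1, h.2.1⟩, ⟨h.2.2.1, h.2.2.2⟩⟩
      have h1 : ∀ a' b' : ℤ, (a' < z.1 - m ∨ z.1 + m < a') → ((a', b') : Fc) ∉ Bx z m := by
        intro a' b' h h'
        rw [mem_Bx] at h'
        simp only at h'
        omega
      have h2 : ∀ a' b' : ℤ, (b' < z.2 - m ∨ z.2 + m < b') → ((a', b') : Fc) ∉ Bx z m := by
        intro a' b' h h'
        rw [mem_Bx] at h'
        simp only at h'
        omega
      rcases or_assoc.2 hcases with h | h
      · exact (vmove _ a b (z.2 + m + 1) fun i _ _ => h1 _ _ h).trans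
          (hmove _ a (z.1 + m + 1) (z.2 + m + 1) fun i _ _ => h2 _ _ (Or.inr (by omega)))
      · exact (hmove _ a (z.1 + m + 1) b fun i _ _ => h2 _ _ h).trans
          (vmove _ (z.1 + m + 1) b (z.2 + m + 1) fun i _ _ => h1 _ _ (Or.inr (by omega)))
    intro f hf g hg
    exact ((key f hf).trans (key g hg).symm).2

/-! ### distances -/

theorem om_re : om.re = 1 / 2 := by
  unfold om
  rw [show (Real.pi * Complex.I / 3 : ℂ) = ((Real.pi / 3 : ℝ) : ℂ) * Complex.I by push_cast; ring,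
    Complex.exp_ofReal_mul_I_re, Real.cos_pi_div_three]

theorem om_im : om.im = Real.sqrt 3 / 2 := by
  unfold om
  rw [show (Real.pi * Complex.I / 3 : ℂ) = ((Real.pi / 3 : ℝ) : ℂ) * Complex.I by push_cast; ring,
    Complex.exp_ofReal_mul_I_im, Real.sin_pi_div_three]

theorem ctr_re (f : Fc) : (ctr f).re = f.1 + f.2 / 2 := by
  unfold ctr
  simp [om_re]
  ring

theorem ctr_im (f : Fc) : (ctr f).im = f.2 * (Real.sqrt 3 / 2) := by
  unfold ctr
  simp [om_im]

theorem norm_ctr_sq (f g : Fc) : ‖ctr f - ctr g‖ ^ 2 =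
    ((f.1 : ℝ) - g.1) ^ 2 + ((f.1 : ℝ) - g.1) * ((f.2 : ℝ) - g.2) + ((f.2 : ℝ) - g.2) ^ 2 := by
  rw [Complex.sq_norm, Complex.normSq_apply, Complex.sub_re, Complex.sub_im, ctr_re, ctr_re, ctr_im,
    ctr_im]
  have h3 : Real.sqrt 3 * Real.sqrt 3 = 3 := Real.mul_self_sqrt (by norm_num)
  linear_combination ((f.2 : ℝ) - g.2) ^ 2 / 4 * h3

theorem exists_near (x : ℂ) : ∃ z : Fc, ‖ctr z - x‖ ≤ 1 := by
  set b : ℤ := round (x.im / (Real.sqrt 3 / 2)) with hb
  set a : ℤ := round (x.re - b / 2) with ha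
  refine ⟨(a, b), ?_⟩
  have h3 : (0 : ℝ) < Real.sqrt 3 / 2 := by positivity
  have h4 : Real.sqrt 3 / 2 ≤ 1 := by
    have : Real.sqrt 3 ≤ 2 := by
      rw [show (2 : ℝ) = Real.sqrt 4 by rw [show (4 : ℝ) = 2 ^ 2 by norm_num, Real.sqrt_sq]; norm_num]
      exact Real.sqrt_le_sqrt (by norm_num)
    linarith
  have h1 : |(ctr (a, b) - x).im| ≤ 1 / 2 := by
    rw [Complex.sub_im, ctr_im]
    have h5 := abs_sub_round (x.im / (Real.sqrt 3 / 2))
    rw [← hb] at h5
    have h6 : (((a, b) : Fc).2 : ℝ) * (Real.sqrt 3 / 2) - x.im =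
        -((x.im / (Real.sqrt 3 / 2) - b) * (Real.sqrt 3 / 2)) := by
      have h7 : x.im / (Real.sqrt 3 / 2) * (Real.sqrt 3 / 2) = x.im := div_mul_cancel₀ _ h3.ne'
      simp only
      linear_combination h7
    rw [h6, abs_neg, abs_mul, abs_of_pos h3]
    calc _ ≤ 1 / 2 * (Real.sqrt 3 / 2) := mul_le_mul_of_nonneg_right h5 h3.le
      _ ≤ 1 / 2 * 1 := by nlinarith
      _ = 1 / 2 := by ring
  have h2 : |(ctr (a, b) - x).re| ≤ 1 / 2 := by
    rw [Complex.sub_re, ctr_re]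
    have h5 := abs_sub_round (x.re - b / 2)
    rw [← ha] at h5
    have h6 : ((((a, b) : Fc).1 : ℝ) + (((a, b) : Fc).2 : ℝ) / 2) - x.re =
        -((x.re - b / 2) - a) := by
      simp only; ring
    rw [h6, abs_neg]
    exact h5
  exact (Complex.norm_le_abs_re_add_abs_im _).trans (by linarith)

theorem norm_om : ‖om‖ = 1 := by
  unfold om
  rw [show (Real.pi * Complex.I / 3 : ℂ) = ((Real.pi / 3 : ℝ) : ℂ) * Complex.I by push_cast; ring]
  exact Complex.norm_exp_ofReal_mul_I _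

theorem norm_adj {f g : Fc} (h : adjF f g) : ‖ctr f - ctr g‖ = 1 := by
  have key : ∀ e : Ed, ‖ctr (lf e) - ctr (rf e)‖ = 1 := by
    rintro ⟨i, j, k⟩
    have h1 := norm_ctr_sq (lf (i, j, k)) (rf (i, j, k))
    have h2 : ‖ctr (lf (i, j, k)) - ctr (rf (i, j, k))‖ ^ 2 = 1 := by
      rw [h1]
      fin_cases k <;> simp [lf, rf, fc]
    have h3 := norm_nonneg (ctr (lf (i, j, k)) - ctr (rf (i, j, k)))
    nlinarith
  obtain ⟨e, ⟨rfl, rfl⟩ | ⟨rfl, rfl⟩⟩ := h
  · exact key e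
  · rw [norm_sub_rev]; exact key e

theorem norm_le_of_mem {z f : Fc} {m : ℕ} (h : f ∈ Bx z m) : ‖ctr f - ctr z‖ ≤ 2 * m := by
  rw [mem_Bx] at h
  have h1 : ctr f - ctr z = ((f.1 - z.1 : ℤ) : ℂ) + ((f.2 - z.2 : ℤ) : ℂ) * om := by
    unfold ctr; push_cast; ring
  rw [h1]
  refine (norm_add_le _ _).trans ?_
  rw [norm_mul, norm_om, mul_one, Complex.norm_intCast, Complex.norm_intCast]
  have h2 : |((f.1 - z.1 : ℤ) : ℝ)| ≤ m := by
    rw [abs_le]
    constructor
    · have : -(m : ℤ) ≤ f.1 - z.1 := by omega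
      exact_mod_cast this
    · have : f.1 - z.1 ≤ (m : ℤ) := by omega
      exact_mod_cast this
  have h3 : |((f.2 - z.2 : ℤ) : ℝ)| ≤ m := by
    rw [abs_le]
    constructor
    · have : -(m : ℤ) ≤ f.2 - z.2 := by omega
      exact_mod_cast this
    · have : f.2 - z.2 ≤ (m : ℤ) := by omega
      exact_mod_cast this
  linarith

theorem le_norm_of_not_mem {z f : Fc} {m : ℕ} (h : f ∉ Bx z m) :
    4 / 5 * ((m : ℝ) + 1) ≤ ‖ctr f - ctr z‖ := by
  rw [mem_Bx] at h
  have h1 := norm_ctr_sq f z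
  set a : ℝ := (f.1 : ℝ) - z.1 with ha
  set b : ℝ := (f.2 : ℝ) - z.2 with hb
  have h2 : ((m : ℝ) + 1) ^ 2 ≤ a ^ 2 ∨ ((m : ℝ) + 1) ^ 2 ≤ b ^ 2 := by
    have hcases : f.1 < z.1 - m ∨ z.1 + m < f.1 ∨ f.2 < z.2 - m ∨ z.2 + m < f.2 := by
      by_contra h'
      push Not at h'
      exact h ⟨⟨h'.1, h'.2.1⟩, ⟨h'.2.2.1, h'.2.2.2⟩⟩
    have hm : (0 : ℝ) ≤ m := Nat.cast_nonneg m
    rcases hcases with h3 | h3 | h3 | h3
    · left
      have h4 : (f.1 : ℝ) + 1 ≤ z.1 - m := by exact_mod_cast h3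
      nlinarith
    · left
      have h4 : (z.1 : ℝ) + m + 1 ≤ f.1 := by exact_mod_cast h3
      nlinarith
    · right
      have h4 : (f.2 : ℝ) + 1 ≤ z.2 - m := by exact_mod_cast h3
      nlinarith
    · right
      have h4 : (z.2 : ℝ) + m + 1 ≤ f.2 := by exact_mod_cast h3
      nlinarith
  have h5 : (4 / 5 * ((m : ℝ) + 1)) ^ 2 ≤ ‖ctr f - ctr z‖ ^ 2 := by
    rw [h1]
    rcases h2 with h2 | h2
    · nlinarith [sq_nonneg (b + a / 2)]
    · nlinarith [sq_nonneg (a + b / 2)]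
  exact le_of_sq_le_sq h5 (norm_nonneg _)
  where le_of_sq_le_sq {u v : ℝ} (h : u ^ 2 ≤ v ^ 2) (hv : 0 ≤ v) : u ≤ v :=
    (le_abs_self u).trans (abs_le_of_sq_le_sq h hv)

end Pool.Agent.H58.TA
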