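import Pool.Agent.H58.TA.Stop
import Pool.Agent.H49.Perc.KArms

set_option autoImplicit false

/-! The expected number of landing vertices is at most two. -/

namespace Pool.Agent.H58.TA

open Pool.Agent.H7.UC Pool.Agent.H63.UC
open Pool.Agent.H75.Perc (Pr Pr_congr Pr_mono Pr_nonneg Pr_le_one Inc)
open Pool.Agent.H49.Perc (Arms Pr_Arms_le)
open Pool.Agent.H99.NC (PrP PrP_half PrP_restrict resampleP_le)
open Pool.Agent.H74.Tri (Pos pl pr ph pe pb Bi)

variable {W J I ω ω' : Finset Fc} {p : Pos}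

/-- first moment of one landing vertex -/
theorem land_le (hW : IsDom W) (hI : Cn I) (hJ : Cn J) (hIJ : I ⊆ J) (hJW : J ⊆ W)
    (hlJ : pl p ∉ J) (hrJ : pr p ∉ J) {z : Fc} (hz : z ∈ J) {x : ℂ} {s : ℝ}
    (hnx : ∀ f, Nx ↑I f → f ∈ J ∧ ‖ctr f - x‖ ≤ s) {V : ℝ}
    (hV : ∀ U B, State U B → J ⊆ U → Pr U (Reach U B x s) ≤ V) :
    Pr W (fun ω => LandP W I ω p) ≤ Pr W (fun ω => Hit W J ω p) * V := by
  have hmem : ∀ (ω ω' : Finset Fc) (f : Fc), f ∈ Fs W J p ω →
      (f ∈ ω ↔ f ∈ Pool.Agent.H75.Perc.mix (Fs W J p ω) ω ω') := by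
    intro ω ω' f hf
    rw [Pool.Agent.H75.Perc.mem_mix]
    constructor
    · intro h; exact Or.inl ⟨h, hf⟩
    · rintro (h | h)
      · exact h.1
      · exact absurd hf h.2
  have h1 : Pr W (fun ω => LandP W I ω p) = Pr W (fun ω => LandP W I ω p ∧ Hit W J ω p) :=
    Pr_congr fun ω _ => ⟨fun h => ⟨h, hit_of_land hW hI hIJ (hIJ.trans hJW) hlJ hrJ h⟩, fun h => h.1⟩
  rw [h1, ← PrP_half, ← PrP_half]
  refine resampleP_le (fun _ => by norm_num) W (Fs W J p) ?_ _ _
    (fun ω ω' => Reach (Us W J p z ω) {f | f ∈ Fs W J p ω ∧ f ∈ ω} x s (ω' ∩ Us W J p z ω)) V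
    ?_ ?_ ?_
  · intro ω ω' _ _
    exact Fs_eq (hmem ω ω')
  · intro ω ω' _ _ h
    exact hit_agree (hmem ω ω') h
  · intro ω _ h
    have hsub : Us W J p z ω ⊆ W := fun f hf =>
      (Finset.mem_sdiff.1 (Pool.Agent.H74.Tri.comp_sub _ _ hf)).1
    rw [PrP_restrict _ hsub (Reach (Us W J p z ω) {f | f ∈ Fs W J p ω ∧ f ∈ ω} x s), PrP_half]
    exact hV _ _ (state_of hW h.1 hJW hz) (J_sub_Us h.1 hJW hJ hz)
  · intro ω ω' _ _ h h2
    have h3 := reach_of h.1 hJW hJ hz hnx (hmem ω ω') h2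
    have h4 : Pool.Agent.H75.Perc.mix (Fs W J p ω) ω ω' ∩ Us W J p z ω = ω' ∩ Us W J p z ω := by
      ext f
      rw [Finset.mem_inter, Finset.mem_inter, Pool.Agent.H75.Perc.mem_mix]
      constructor
      · rintro ⟨h5 | h5, h6⟩
        · exact absurd h5.2 (Finset.mem_sdiff.1 (Pool.Agent.H74.Tri.comp_sub _ _ h6)).2
        · exact ⟨h5.1, h6⟩
      · rintro ⟨h5, h6⟩
        exact ⟨Or.inr ⟨h5, (Finset.mem_sdiff.1 (Pool.Agent.H74.Tri.comp_sub _ _ h6)).2⟩, h6⟩
    rw [h4] at h3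
    exact h3

/-! ### counting -/

/-- black arm from `J` to the outside of `W` -/
def BArm (W J S : Finset Fc) : Prop :=
  ∃ f g, Nx ↑J f ∧ Pth (Blk W J S) f g ∧ ∃ x ∉ W, adjF g x

theorem BArm_inc (W J : Finset Fc) : Inc (BArm W J) := by
  rintro S S' h ⟨f, g, h1, h2, h3⟩
  exact ⟨f, g, h1, h2.mono fun a ha => ⟨ha.1, ha.2.1, h ha.2.2⟩, h3⟩

/-- black component of the left face of the landing vertex -/
noncomputable def kap (W J ω : Finset Fc) (p : Pos) : Finset Fc := by
  classical exact W.filter (fun f => Pth (Blk W J ω) (pl p) f)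

theorem mem_kap {f : Fc} : f ∈ kap W J ω p ↔ Pth (Blk W J ω) (pl p) f := by
  classical
  unfold kap
  rw [Finset.mem_filter]
  exact ⟨fun h => h.2, fun h => ⟨h.end_mem.1, h⟩⟩

theorem kap_conn (p : Pos) : Cn (kap W J ω p) := by
  have key : ∀ f, Pth (Blk W J ω) (pl p) f → Pth (fun h => h ∈ kap W J ω p) (pl p) f := by
    rintro f ⟨h1, h2⟩
    induction h2 with
    | refl => exact Pth.refl (mem_kap.2 (Pth.refl h1))
    | tail h3 h4 ih => exact ih.step (mem_kap.2 (Pth.step ⟨h1, h3⟩ h4.1 h4.2)) h4.2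
  intro f hf g hg
  exact (key f (mem_kap.1 hf)).symm.trans (key g (mem_kap.1 hg))

theorem kap_eq {q : Pos} {f : Fc} (h1 : f ∈ kap W J ω p) (h2 : f ∈ kap W J ω q) :
    kap W J ω p = kap W J ω q := by
  have h3 := (mem_kap.1 h1).trans (mem_kap.1 h2).symm
  ext g
  rw [mem_kap, mem_kap]
  exact ⟨fun h => h3.symm.trans h, fun h => h3.trans h⟩

/-- the white faces joined to `J`, with `J` -/
noncomputable def psi (W J ω : Finset Fc) : Finset Fc := by
  classical exact W.filter (fun f => f ∈ J ∨ f ∈ Kc J (Wht W J ω))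

theorem mem_psi (hJW : J ⊆ W) {f : Fc} : f ∈ psi W J ω ↔ f ∈ J ∨ f ∈ Kc J (Wht W J ω) := by
  classical
  unfold psi
  rw [Finset.mem_filter]
  refine ⟨fun h => h.2, fun h => ⟨?_, h⟩⟩
  rcases h with h | h
  · exact hJW h
  · exact (Kc_mem h).1

theorem psi_conn (hJW : J ⊆ W) (hJ : Cn J) : Cn (psi W J ω) := by
  have hin : ∀ f g, f ∈ J → g ∈ J → Pth (fun h => h ∈ psi W J ω) f g := fun f g hf hg =>
    (hJ f hf g hg).mono fun a ha => (mem_psi hJW).2 (Or.inl ha)
  -- every face is joined to `J`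
  have key : ∀ f ∈ psi W J ω, ∃ j ∈ J, Pth (fun h => h ∈ psi W J ω) f j := by
    intro f hf
    rcases (mem_psi hJW).1 hf with h | ⟨g, ⟨j, hj, hgj⟩, hp⟩
    · exact ⟨f, h, hin f f h h⟩
    · rw [Finset.mem_coe] at hj
      refine ⟨j, hj, ?_⟩
      have h1 : Pth (fun h => h ∈ psi W J ω) g f := by
        obtain ⟨q1, q2⟩ := hp
        have hm : ∀ a, Pth (Wht W J ω) g a → a ∈ psi W J ω := fun a ha =>
          (mem_psi hJW).2 (Or.inr ⟨g, ⟨j, Finset.mem_coe.2 hj, hgj⟩, ha⟩)
        clear hf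
        induction q2 with
        | refl => exact Pth.refl (hm g (Pth.refl q1))
        | tail h3 h4 ih => exact ih.step (hm _ (Pth.step ⟨q1, h3⟩ h4.1 h4.2)) h4.2
      exact h1.symm.step ((mem_psi hJW).2 (Or.inl hj)) hgj
  intro f hf g hg
  obtain ⟨a, ha, h1⟩ := key f hf
  obtain ⟨b, hb, h2⟩ := key g hg
  exact (h1.trans (hin a b ha hb)).trans h2.symm

/-- the landing positions -/
noncomputable def LP (W J ω : Finset Fc) : Finset Pos := by
  classical exact (pos_finite W).toFinset.filter (fun p => LandP W J ω p)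

theorem mem_LP : p ∈ LP W J ω ↔ LandP W J ω p := by
  classical
  unfold LP
  rw [Finset.mem_filter, Set.Finite.mem_toFinset]
  exact ⟨fun h => h.2, fun h => ⟨(Kc_mem h.l).1, h⟩⟩

theorem pl_eq_fc (p : Pos) : fc (nb p.1 p.2) (p.2 + 2) = pl p := fc_nb2 _ _
theorem pr_eq_fc (p : Pos) : fc (nb p.1 p.2) (p.2 + 1) = pr p := fc_nb1 _ _

theorem fiber_le (hW : IsDom W) (hJW : J ⊆ W) (hJ : Cn J) (K : Finset Fc) :
    ((LP W J ω).filter (fun p => kap W J ω p = K)).card ≤ 2 := by
  by_contra hc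
  push Not at hc
  obtain ⟨a, ha, b, hb, c, hc', hab, hac, hbc⟩ := Finset.two_lt_card.1 hc
  rw [Finset.mem_filter, mem_LP] at ha hb hc'
  let t : Fin 3 → Pos := ![a, b, c]
  have ht : ∀ i, LandP W J ω (t i) ∧ kap W J ω (t i) = K := by
    intro i
    fin_cases i
    · exact ha
    · exact hb
    · exact hc'
  have hK : K ⊆ W := by
    rw [← ha.2]
    intro f hf
    exact (mem_kap.1 hf).end_mem.1
  have hKc : Cn K := by rw [← ha.2]; exact kap_conn a
  have hd : Disjoint K (psi W J ω) := by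
    rw [Finset.disjoint_left]
    intro f hf hf2
    rw [← ha.2] at hf
    have h1 := (mem_kap.1 hf).end_mem
    rcases (mem_psi hJW).1 hf2 with h | h
    · exact h1.2.1 h
    · exact (Kc_mem h).2.2 h1.2.2
  have hin : Function.Injective t := by
    intro i j hij
    fin_cases i <;> fin_cases j <;> first
      | rfl
      | exact absurd hij hab
      | exact absurd hij hac
      | exact absurd hij hbc
      | exact absurd hij.symm hab
      | exact absurd hij.symm hac
      | exact absurd hij.symm hbc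
  refine three_land hW hK (fun f hf => ?_) hKc (psi_conn hJW hJ (ω := ω)) hd
    (fun i => nb (t i).1 (t i).2) (fun i => (t i).2) ?_ (fun i => (ht i).1.b) ?_ ?_
  · rcases (mem_psi hJW).1 hf with h | h
    · exact hJW h
    · exact (Kc_mem h).1
  · intro i j hij
    apply hin
    have hij' : nb (t i).1 (t i).2 = nb (t j).1 (t j).2 := hij
    have hk : (t i).2 = (t j).2 := by
      by_contra hne
      have h1 : fc (nb (t i).1 (t i).2) (t i).2 ∉ W := (ht i).1.b
      rw [hij'] at h1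
      rcases fin3_third hne with ⟨h2, _⟩ | ⟨h2, _⟩
      · rw [h2, pr_eq_fc] at h1
        exact h1 (Kc_mem (ht j).1.r).1
      · rw [h2, pl_eq_fc] at h1
        exact h1 (Kc_mem (ht j).1.l).1
    have hv : (t i).1 = (t j).1 := by
      have h3 := congrArg (fun v => nb v (t i).2) hij'
      simp only [nb_nb] at h3
      rw [hk, nb_nb] at h3
      exact h3
    exact Prod.ext hv hk
  · intro i
    show fc (nb (t i).1 (t i).2) ((t i).2 + 2) ∈ K
    rw [pl_eq_fc, ← (ht i).2]
    exact mem_kap.2 (Pth.refl (Kc_mem (ht i).1.l))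
  · intro i
    show fc (nb (t i).1 (t i).2) ((t i).2 + 1) ∈ psi W J ω
    rw [pr_eq_fc]
    exact (mem_psi hJW).2 (Or.inr (ht i).1.r)

/-- the black components of the landing positions -/
noncomputable def KS (W J ω : Finset Fc) : Finset (Finset Fc) := by
  classical exact (LP W J ω).image (kap W J ω)

theorem card_LP_le (hW : IsDom W) (hJW : J ⊆ W) (hJ : Cn J) :
    (LP W J ω).card ≤ 2 * (KS W J ω).card := by
  classical
  unfold KS
  apply Finset.card_le_mul_card_image
  intro K _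
  exact fiber_le hW hJW hJ K

theorem arms_KS {n : ℕ} (hn : n ≤ (KS W J ω).card) : Arms n (BArm W J) ω := by
  classical
  obtain ⟨T, hT, hTc⟩ := Finset.exists_subset_card_eq hn
  let e := T.equivFin
  have hcard : T.card = n := hTc
  subst hcard
  refine ⟨fun i => (e.symm i : Finset Fc), ?_, ?_, ?_⟩
  · intro i
    have h1 := hT (e.symm i).2
    unfold KS at h1
    rw [Finset.mem_image] at h1
    obtain ⟨p, hp, h2⟩ := h1
    show (e.symm i : Finset Fc) ⊆ ω
    rw [← h2]
    intro f hf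
    exact (mem_kap.1 hf).end_mem.2.2
  · intro i j hij
    have h1 := hT (e.symm i).2
    have h2 := hT (e.symm j).2
    unfold KS at h1 h2
    rw [Finset.mem_image] at h1 h2
    obtain ⟨p, hp, h3⟩ := h1
    obtain ⟨q, hq, h4⟩ := h2
    show Disjoint (e.symm i : Finset Fc) (e.symm j : Finset Fc)
    rw [Finset.disjoint_left]
    intro f hf hf'
    apply hij
    rw [← h3] at hf
    rw [← h4] at hf'
    have h5 := kap_eq hf hf'
    rw [h3, h4] at h5
    exact e.symm.injective (Subtype.ext h5)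
  · intro i
    have h1 := hT (e.symm i).2
    unfold KS at h1
    rw [Finset.mem_image] at h1
    obtain ⟨p, hp, h2⟩ := h1
    show BArm W J (e.symm i : Finset Fc)
    rw [← h2]
    rw [mem_LP] at hp
    obtain ⟨g, hg, hgp⟩ := hp.l
    have hgk : g ∈ kap W J ω p := mem_kap.2 hgp.symm
    have hpk : pl p ∈ kap W J ω p := mem_kap.2 (Pth.refl hgp.end_mem)
    refine ⟨g, pl p, hg, ?_, pb p, hp.b, (adj_pb p).1⟩
    exact (kap_conn p g hgk _ hpk).mono fun a ha =>
      ⟨(mem_kap.1 ha).end_mem.1, (mem_kap.1 ha).end_mem.2.1, ha⟩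

theorem KS_card_le : (KS W J ω).card ≤ (pos_finite W).toFinset.card := by
  classical
  unfold KS LP
  exact Finset.card_image_le.trans (Finset.card_filter_le _ _)

/-- the expected number of landing vertices is at most two -/
theorem sum_land (hW : IsDom W) (hJW : J ⊆ W) (hJ : Cn J) (ha : Pr W (BArm W J) ≤ 1 / 2) :
    ∑ p ∈ (pos_finite W).toFinset, Pr W (fun ω => LandP W J ω p) ≤ 2 := by
  classical
  set P := (pos_finite W).toFinset with hP
  have h1 : ∀ p, Pr W (fun ω => LandP W J ω p) =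
      (∑ ω ∈ W.powerset, if LandP W J ω p then (1 : ℝ) else 0) / 2 ^ W.card := by
    intro p
    rw [Pool.Agent.H75.Perc.Pr_eq, Finset.card_filter]
    push_cast
    rfl
  have h2 : ∑ p ∈ P, Pr W (fun ω => LandP W J ω p) =
      (∑ ω ∈ W.powerset, ((LP W J ω).card : ℝ)) / 2 ^ W.card := by
    rw [Finset.sum_congr rfl (fun p _ => h1 p), ← Finset.sum_div, Finset.sum_comm]
    congr 1
    apply Finset.sum_congr rfl
    intro ω _
    unfold LP
    rw [Finset.card_filter]
    push_cast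
    rfl
  rw [h2]
  have h3 : ∀ ω ∈ W.powerset, ((LP W J ω).card : ℝ) ≤
      2 * ∑ j ∈ Finset.range P.card, if Arms (j + 1) (BArm W J) ω then (1 : ℝ) else 0 := by
    intro ω _
    have h4 : ((LP W J ω).card : ℝ) ≤ 2 * ((KS W J ω).card : ℝ) := by
      exact_mod_cast card_LP_le hW hJW hJ
    refine h4.trans ?_
    apply mul_le_mul_of_nonneg_left _ (by norm_num)
    have h5 : ((KS W J ω).card : ℝ) = ∑ j ∈ Finset.range (KS W J ω).card, (1 : ℝ) := by simp
    rw [h5]
    have h6 : ∑ j ∈ Finset.range (KS W J ω).card, (1 : ℝ) ≤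
        ∑ j ∈ Finset.range (KS W J ω).card, if Arms (j + 1) (BArm W J) ω then (1 : ℝ) else 0 := by
      apply Finset.sum_le_sum
      intro j hj
      rw [Finset.mem_range] at hj
      rw [if_pos (arms_KS (by omega))]
    refine h6.trans ?_
    apply Finset.sum_le_sum_of_subset_of_nonneg
    · intro j hj
      rw [Finset.mem_range] at hj ⊢
      exact lt_of_lt_of_le hj KS_card_le
    · intro j _ _
      split_ifs <;> norm_num
  have h7 : (∑ ω ∈ W.powerset, ((LP W J ω).card : ℝ)) / 2 ^ W.card ≤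
      2 * ∑ j ∈ Finset.range P.card, Pr W (Arms (j + 1) (BArm W J)) := by
    have h8 : ∀ j, Pr W (Arms (j + 1) (BArm W J)) =
        (∑ ω ∈ W.powerset, if Arms (j + 1) (BArm W J) ω then (1 : ℝ) else 0) / 2 ^ W.card := by
      intro j
      rw [Pool.Agent.H75.Perc.Pr_eq, Finset.card_filter]
      push_cast
      rfl
    rw [Finset.sum_congr rfl (fun j _ => h8 j), ← Finset.sum_div, Finset.sum_comm, ← mul_div_assoc]
    apply div_le_div_of_nonneg_right _ (by positivity)
    rw [Finset.mul_sum]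
    exact Finset.sum_le_sum h3
  refine h7.trans ?_
  have h9 : ∑ j ∈ Finset.range P.card, Pr W (Arms (j + 1) (BArm W J)) ≤
      ∑ j ∈ Finset.range P.card, (1 / 2 : ℝ) ^ (j + 1) := by
    apply Finset.sum_le_sum
    intro j _
    exact (Pr_Arms_le W (BArm_inc W J) (j + 1)).trans
      (pow_le_pow_left₀ (Pr_nonneg _ _) ha _)
  have h10 : ∀ n : ℕ, ∑ j ∈ Finset.range n, (1 / 2 : ℝ) ^ (j + 1) = 1 - (1 / 2) ^ n := by
    intro n
    induction n with
    | zero => simp
    | succ n ih => rw [Finset.sum_range_succ, ih]; ring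
  rw [h10] at h9
  have h11 : (0 : ℝ) < (1 / 2) ^ P.card := by positivity
  linarith

end Pool.Agent.H58.TA
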