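import Pool.Agent.H7.UC.Iface

set_option autoImplicit false
open Pool.Agent.H75.Perc

/-! Static two-arm bound on the triangular lattice: statements (module 2A). -/

namespace Pool.Agent.H58.TA

open Pool.Agent.H7.UC

/-- `f` touches a face of the set `S` -/
def Nx (S : Set Fc) (f : Fc) : Prop := ∃ g ∈ S, adjF f g

/-- path of faces with the property `P` from `f` to `g` -/
def Pth (P : Fc → Prop) (f g : Fc) : Prop := P f ∧ Relation.ReflTransGen (fun a b => P b ∧ adjF a b) f g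

/-- State: simply connected set `U` of unexplored faces, `B` = black faces off `U` (the other faces
off `U` are white); all faces of one colour which touch `U` are joined off `U` by faces of this
colour (Dobrushin boundary conditions). -/
structure State (U : Finset Fc) (B : Set Fc) : Prop where
  dom : IsDom U
  black : ∀ f g, f ∉ U → g ∉ U → f ∈ B → g ∈ B → Nx ↑U f → Nx ↑U g →
    Pth (fun h => h ∉ U ∧ h ∈ B) f g
  white : ∀ f g, f ∉ U → g ∉ U → f ∉ B → g ∉ B → Nx ↑U f → Nx ↑U g →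
    Pth (fun h => h ∉ U ∧ h ∉ B) f g

/-- a black path in `U` from `B(x,s)` to the black boundary and a white path in `U` from `B(x,s)`
to the white boundary. -/
def Reach (U : Finset Fc) (B : Set Fc) (x : ℂ) (s : ℝ) (ω : Finset Fc) : Prop :=
  (∃ f g, ‖ctr f - x‖ ≤ s ∧ Pth (fun h => h ∈ U ∧ h ∈ ω) f g ∧ Nx {h | h ∉ U ∧ h ∈ B} g) ∧
  (∃ f g, ‖ctr f - x‖ ≤ s ∧ Pth (fun h => h ∈ U ∧ h ∉ ω) f g ∧ Nx {h | h ∉ U ∧ h ∉ B} g)

/-- One macro step for all states (input from the module SM). -/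
def VB (C0 : ℝ) : Prop := ∀ M : ℝ, 1 ≤ M → ∃ K : ℝ, ∀ (U : Finset Fc) (B : Set Fc) (x : ℂ) (ρ : ℝ),
  State U B → K ≤ ρ → (∀ f : Fc, ‖ctr f - x‖ ≤ ρ → f ∈ U) →
  Pr U (Reach U B x (ρ / M)) ≤ C0 * M ^ (-(1 / 4) : ℝ)

/-- two arms of different colours in `A(x; r, R)` -/
def Two (x : ℂ) (r R : ℝ) (E ω : Finset Fc) : Prop := Arm x r R ω ∧ Arm x r R (E \ ω)

/-- (2A1) one step, absolute constant. -/
def TwoArmOne (C : ℝ) : Prop := ∀ M : ℝ, 1 ≤ M → ∃ K : ℝ, ∀ (E : Finset Fc) (x : ℂ) (r : ℝ),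
  K ≤ r → (∀ f : Fc, r - 2 ≤ ‖ctr f - x‖ → ‖ctr f - x‖ ≤ M * r + 2 → f ∈ E) →
  Pr E (Two x r (M * r) E) ≤ C * M ^ (-(1 / 4) : ℝ)

/-- (2A2) all scales, exponent `1/4 - η`. -/
def TwoArmAll : Prop := ∀ η > (0 : ℝ), ∃ C : ℝ, ∀ (E : Finset Fc) (x : ℂ) (r R : ℝ),
  1 ≤ r → r ≤ R → (∀ f : Fc, r - 2 ≤ ‖ctr f - x‖ → ‖ctr f - x‖ ≤ R + 2 → f ∈ E) →
  Pr E (Two x r R E) ≤ C * (r / R) ^ (1 / 4 - η : ℝ)

end Pool.Agent.H58.TA
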