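import Pool.Agent.H58.TA.Base

set_option autoImplicit false

/-! Two arms of different colours have a common landing vertex on the boundary. -/

namespace Pool.Agent.H58.TA

open Pool.Agent.H7.UC Pool.Agent.H63.UC
open Pool.Agent.H98.UC (conn_symm conn_trans conn_step)

section A

variable {W I ω : Finset Fc}

theorem blk_not_wht {f : Fc} (h : f ∈ Kc I (Blk W I ω)) : ¬ Wht W I ω f :=
  fun h' => h'.2.2 (Kc_mem h).2.2

/-- in a path of edges between the black component and white faces which touches `I` all white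
faces are joined to `I` -/
theorem white_conn {w : Vx} {l : Fin 3} (hl : fc w l ∈ I) {u : Vx}
    (h : Conn (btw (Kc I (Blk W I ω)) {f | Wht W I ω f}) w u) (k : Fin 3) :
    (fc u (k + 1) ∈ Kc I (Blk W I ω) → Wht W I ω (fc u (k + 2)) → fc u (k + 2) ∈ Kc I (Wht W I ω)) ∧
    (fc u (k + 2) ∈ Kc I (Blk W I ω) → Wht W I ω (fc u (k + 1)) → fc u (k + 1) ∈ Kc I (Wht W I ω)) := by
  have hAB : ∀ f, f ∈ Kc I (Blk W I ω) → f ∉ {f | Wht W I ω f} := fun f h => blk_not_wht h
  -- it is enough to look at all white faces with a black neighbour at the vertex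
  have key : ∀ u, Conn (btw (Kc I (Blk W I ω)) {f | Wht W I ω f}) w u → ∀ a b,
      fc u a ∈ Kc I (Blk W I ω) → Wht W I ω (fc u b) → fc u b ∈ Kc I (Wht W I ω) := by
    intro u hu
    induction hu with
    | refl =>
      intro a b ha hb
      refine ⟨fc w b, ⟨fc w l, hl, ?_⟩, Pth.refl hb⟩
      apply adj_fc
      intro e
      exact hb.2.1 (e ▸ hl)
    | @tail p q _ h2 ih =>
      obtain ⟨m, rfl, hm⟩ := h2
      intro a b ha hb
      -- the white face of the edge
      have hw : ∃ c, fc (nb p m) c ∈ Kc I (Wht W I ω) := by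
        rcases btw_one hAB hm with ⟨h3, h4⟩ | ⟨h3, h4⟩
        · exact ⟨m + 1, by rw [fc_nb1]; exact ih _ _ h3 h4⟩
        · exact ⟨m + 2, by rw [fc_nb2]; exact ih _ _ h4 h3⟩
      obtain ⟨c, hc⟩ := hw
      by_cases hcb : c = b
      · rw [← hcb]; exact hc
      · exact Kc_step hc hb (adj_fc _ hcb)
  exact ⟨fun h1 h2 => key u h _ _ h1 h2, fun h1 h2 => key u h _ _ h1 h2⟩

/-- the part of the chain `y` in the components which meet the set `O` -/
noncomputable def outC (y : Ed → ZMod 2) (O : Set Vx) (e : Ed) : ZMod 2 :=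
  y e * ind {v | ∃ o ∈ O, Conn y o v} (e.1, e.2.1, false)

theorem outC_ed (y : Ed → ZMod 2) (O : Set Vx) (v : Vx) (k : Fin 3) :
    outC y O (ed v k) = y (ed v k) * ind {v | ∃ o ∈ O, Conn y o v} v := by
  unfold outC
  rcases z2_or (y (ed v k)) with h | h
  · rw [h, zero_mul, zero_mul]
  · congr 1
    have he : ed v k = ed ((ed v k).1, (ed v k).2.1, false) (ed v k).2.2 := (ed_up _ _ _).symm
    rcases ((ed_eq_iff _ _ _ _).1 he).2 with h1 | h1
    · rw [h1]
    · rw [h1]
      apply ind_congr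
      constructor
      · rintro ⟨o, ho, hc⟩
        refine ⟨o, ho, conn_trans hc ?_⟩
        apply conn_symm
        exact conn_step h
      · rintro ⟨o, ho, hc⟩
        exact ⟨o, ho, conn_trans hc (conn_step h)⟩

theorem dv_outC (y : Ed → ZMod 2) (O : Set Vx) (v : Vx) :
    dv (outC y O) v = dv y v * ind {v | ∃ o ∈ O, Conn y o v} v := by
  unfold dv
  rw [outC_ed, outC_ed, outC_ed]
  ring

/-- Two arms of different colours which touch the outside of `W` have a common landing vertex. -/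
theorem exists_land (hW : IsDom W) (hI : Cn I) (hIW : I ⊆ W) (hS : Sep W I)
    (hb : ∃ f ∈ Kc I (Blk W I ω), ∃ g ∉ W, adjF f g)
    (hw : ∃ f ∈ Kc I (Wht W I ω), ∃ g ∉ W, adjF f g) :
    ∃ v k, fc v k ∉ W ∧
      ((fc v (k + 2) ∈ Kc I (Blk W I ω) ∧ fc v (k + 1) ∈ Kc I (Wht W I ω)) ∨
       (fc v (k + 1) ∈ Kc I (Blk W I ω) ∧ fc v (k + 2) ∈ Kc I (Wht W I ω))) := by
  set KB := Kc I (Blk W I ω) with hKB
  set Wh : Set Fc := {f | Wht W I ω f} with hWh
  set y := btw KB Wh with hy
  have hAB : ∀ f, f ∈ KB → f ∉ Wh := fun f h => blk_not_wht h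
  have hKW : ∀ f, f ∈ KB → f ∈ W ∧ f ∉ I ∧ f ∈ ω := fun f h => Kc_mem h
  have hex : ∃ v, (∃ k, fc v k ∉ W) ∧ ∃ w, Conn y v w ∧ ∃ l, fc w l ∈ I := by
    by_contra hno
    have hno' : ∀ v, (∃ k, fc v k ∉ W) → ∀ w, Conn y v w → ∀ l, fc w l ∉ I := by
      intro v hv w hvw l hl
      exact hno ⟨v, hv, w, hvw, l, hl⟩
    set O : Set Vx := {v | ∃ k, fc v k ∉ W} with hO
    let x : Ed → ZMod 2 := fun e => outC y O e + btw KB {f | f ∉ W} e
    -- on edges with no face in `I` and one face outside or in the annulus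
    have hbd : ∀ v k, (∀ l, fc v l ∉ I) →
        y (ed v k) + btw KB {f | f ∉ W} (ed v k) = bd KB (ed v k) := by
      intro v k hv
      rw [hy, btw_ed, btw_ed, bd_ed]
      have hcl : ∀ a b, a ≠ b → ind KB (fc v a) * ind Wh (fc v b) +
          ind KB (fc v a) * ind {f | f ∉ W} (fc v b) = ind KB (fc v a) * (1 + ind KB (fc v b)) := by
        intro a b hab
        rcases z2_or (ind KB (fc v a)) with h | h
        · rw [h]; ring
        · rw [h, one_mul, one_mul, one_mul]
          have ha : fc v a ∈ KB := ind_eq_one.1 h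
          by_cases hbW : fc v b ∈ W
          · by_cases hbK : fc v b ∈ KB
            · rw [ind_of_mem hbK, ind_of_not_mem (hAB _ hbK),
                ind_of_not_mem (s := {f | f ∉ W}) (fun h => h hbW), z2, z2]
            · have hwb : fc v b ∈ Wh := by
                refine ⟨hbW, hv b, fun hbo => hbK ?_⟩
                exact Kc_step ha ⟨hbW, hv b, hbo⟩ (adj_fc v hab)
              rw [ind_of_not_mem hbK, ind_of_mem hwb,
                ind_of_not_mem (s := {f | f ∉ W}) (fun h => h hbW)]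
          · have h1 : fc v b ∉ KB := fun h => hbW (hKW _ h).1
            have h2 : fc v b ∉ Wh := fun h => hbW h.1
            rw [ind_of_not_mem h1, ind_of_not_mem h2, ind_of_mem (s := {f | f ∉ W}) hbW, zero_add,
              add_zero]
      have h1 := hcl (k + 1) (k + 2) (f12ne k)
      have h2 := hcl (k + 2) (k + 1) (f12ne k).symm
      have h3 := z2 (ind KB (fc v (k + 1)) * ind KB (fc v (k + 2)))
      linear_combination h1 + h2 + h3
    have hdv : ∀ v, dv x v = 0 := by
      intro v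
      have e1 : dv x v = dv y v * ind {v | ∃ o ∈ O, Conn y o v} v +
          dv (btw KB {f | f ∉ W}) v := by
        rw [← dv_outC, ← dv_add]
      rw [e1]
      by_cases hvO : v ∈ O
      · have hz : v ∈ {v | ∃ o ∈ O, Conn y o v} := ⟨v, hvO, Relation.ReflTransGen.refl⟩
        rw [ind_of_mem hz, mul_one, ← dv_add]
        obtain ⟨k, hk⟩ := hvO
        have hv : ∀ l, fc v l ∉ I := fun l => hS v k l hk
        have h2 := dv_bd KB v
        unfold dv at h2 ⊢
        simp only []
        rw [hbd v 0 hv, hbd v 1 hv, hbd v 2 hv]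
        exact h2
      · have hvW : ∀ l, fc v l ∈ W := by
          intro l
          by_contra h
          exact hvO ⟨l, h⟩
        have h0 : dv (btw KB {f | f ∉ W}) v = 0 := by
          have h3 : ∀ k, btw KB {f | f ∉ W} (ed v k) = 0 := by
            intro k
            rw [btw_ed, ind_of_not_mem (s := {f | f ∉ W}) (fun h => h (hvW (k + 1))),
              ind_of_not_mem (s := {f | f ∉ W}) (fun h => h (hvW (k + 2)))]
            ring
          unfold dv
          rw [h3, h3, h3]; ring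
        rw [h0, add_zero]
        by_cases hz : v ∈ {v | ∃ o ∈ O, Conn y o v}
        · obtain ⟨o, ho, hc⟩ := hz
          have hv : ∀ l, fc v l ∉ I := hno' o ho v hc
          have h2 := dv_bd KB v
          have h4 : dv (fun e => y e + btw KB {f | f ∉ W} e) v = 0 := by
            unfold dv at h2 ⊢
            simp only []
            rw [hbd v 0 hv, hbd v 1 hv, hbd v 2 hv]
            exact h2
          rw [dv_add, h0, add_zero] at h4
          rw [h4, zero_mul]
        · rw [ind_of_not_mem hz, mul_zero]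
    have hsupp : ∀ e, x e ≠ 0 → inE W e := by
      intro e he
      by_contra hn
      apply he
      have h1 : lf e ∉ W := fun h => hn (Or.inl h)
      have h2 : rf e ∉ W := fun h => hn (Or.inr h)
      show outC y O e + btw KB {f | f ∉ W} e = 0
      have h3 : btw KB {f | f ∉ W} e = 0 := btw_zero (Or.inl ⟨fun h => h1 (hKW _ h).1,
        fun h => h2 (hKW _ h).1⟩)
      have h4 : y e = 0 := btw_zero (Or.inl ⟨fun h => h1 (hKW _ h).1, fun h => h2 (hKW _ h).1⟩)
      unfold outC
      rw [h3, h4]; ring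
    obtain ⟨s, hsW, hs⟩ := d1 W hW x hsupp hdv
    have hout : ∀ g ∉ W, ind (↑s : Set Fc) g = 0 := fun g hg =>
      ind_of_not_mem fun h => hg (hsW (Finset.mem_coe.1 h))
    have hx0 : ∀ e, y e = 0 → btw KB {f | f ∉ W} e = 0 → x e = 0 := by
      intro e h1 h2
      show outC y O e + btw KB {f | f ∉ W} e = 0
      unfold outC
      rw [h1, h2]; ring
    obtain ⟨f0, hf0, g0, hg0, ha0⟩ := hb
    obtain ⟨f1, hf1, g1, hg1, ha1⟩ := hw
    -- `f0 ∈ s`
    have h0 : ind (↑s : Set Fc) f0 = 1 := by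
      obtain ⟨e, he⟩ := ha0
      have h1 := hs e
      have hy0 : y e = 0 := by
        apply btw_zero
        right
        have hn0 : f0 ∉ Wh := hAB _ hf0
        have hn1 : g0 ∉ Wh := fun h => hg0 h.1
        rcases he with ⟨h3, h4⟩ | ⟨h3, h4⟩
        · rw [h3, h4]; exact ⟨hn0, hn1⟩
        · rw [h3, h4]; exact ⟨hn1, hn0⟩
      have hc0 : btw KB {f | f ∉ W} e = 1 := by
        unfold btw
        have hn : g0 ∉ KB := fun h => hg0 (hKW _ h).1
        have hn2 : f0 ∉ {f | f ∉ W} := fun h => h (hKW _ hf0).1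
        rcases he with ⟨h3, h4⟩ | ⟨h3, h4⟩
        · rw [h3, h4, ind_of_mem hf0, ind_of_mem (s := {f | f ∉ W}) hg0, ind_of_not_mem hn]; ring
        · rw [h3, h4, ind_of_mem hf0, ind_of_mem (s := {f | f ∉ W}) hg0, ind_of_not_mem hn]; ring
      have hx1 : x e = 1 := by
        show outC y O e + btw KB {f | f ∉ W} e = 1
        unfold outC
        rw [hy0, hc0]; ring
      rw [hx1] at h1
      unfold bd at h1
      rcases he with ⟨h3, h4⟩ | ⟨h3, h4⟩
      · rw [h3, h4, hout g0 hg0, add_zero] at h1; exact h1.symm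
      · rw [h3, h4, hout g0 hg0, zero_add] at h1; exact h1.symm
    -- the path to `I`
    obtain ⟨b, ⟨i, hi, hbi⟩, hbf⟩ := id hf0
    have hbK : ∀ f, Pth (Blk W I ω) b f → f ∈ KB := fun f hf => ⟨b, ⟨i, hi, hbi⟩, hf⟩
    have h1 : ind (↑s : Set Fc) b = 1 := by
      rw [← h0]
      have hp : Pth (fun f => f ∈ KB) b f0 := by
        obtain ⟨q1, q2⟩ := hbf
        refine ⟨hbK b (Pth.refl q1), ?_⟩
        clear h0 hf0 ha0
        induction q2 with
        | refl => exact Relation.ReflTransGen.refl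
        | tail q3 q4 ih =>
          exact ih.tail ⟨hbK _ (Pth.step ⟨q1, q3⟩ q4.1 q4.2), q4.2⟩
      refine ind_path hs (P := fun f => f ∈ KB) (fun e h3 h4 => hx0 e ?_ ?_) hp
      · exact btw_zero (Or.inr ⟨hAB _ h3, hAB _ h4⟩)
      · exact btw_zero (Or.inr ⟨fun h => h (hKW _ h3).1, fun h => h (hKW _ h4).1⟩)
    have hiI : i ∈ I := Finset.mem_coe.1 hi
    have hIn : ∀ f, f ∈ I → f ∉ KB ∧ f ∉ Wh := fun f hf =>
      ⟨fun h => (hKW _ h).2.1 hf, fun h => h.2.1 hf⟩
    have h2 : ind (↑s : Set Fc) i = 1 := by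
      rw [← h1]
      refine (ind_adj hs hbi fun e he => hx0 e ?_ ?_).symm
      · apply btw_zero
        right
        have hb1 : b ∉ Wh := hAB _ (hbK b (Pth.refl hbf.1))
        rcases he with ⟨h3, h4⟩ | ⟨h3, h4⟩
        · rw [h3, h4]; exact ⟨hb1, (hIn i hiI).2⟩
        · rw [h3, h4]; exact ⟨(hIn i hiI).2, hb1⟩
      · apply btw_zero
        right
        have hb1 : b ∉ {f | f ∉ W} := fun h => h hbf.1.1
        have hi1 : i ∉ {f | f ∉ W} := fun h => h (hIW hiI)
        rcases he with ⟨h3, h4⟩ | ⟨h3, h4⟩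
        · rw [h3, h4]; exact ⟨hb1, hi1⟩
        · rw [h3, h4]; exact ⟨hi1, hb1⟩
    obtain ⟨c, ⟨j, hj, hcj⟩, hcf⟩ := id hf1
    have hjI : j ∈ I := Finset.mem_coe.1 hj
    have h3 : ind (↑s : Set Fc) j = 1 := by
      rw [← h2]
      refine (ind_path hs (P := fun f => f ∈ I) (fun e h3 h4 => hx0 e ?_ ?_) (hI i hiI j hjI)).symm
      · exact btw_zero (Or.inl ⟨(hIn _ h3).1, (hIn _ h4).1⟩)
      · exact btw_zero (Or.inl ⟨(hIn _ h3).1, (hIn _ h4).1⟩)
    have hnK : ∀ f, Wht W I ω f → f ∉ KB := fun f hf h => hf.2.2 (hKW _ h).2.2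
    have h4 : ind (↑s : Set Fc) c = 1 := by
      rw [← h3]
      refine ind_adj hs hcj fun e he => hx0 e ?_ ?_
      · apply btw_zero
        left
        rcases he with ⟨h3, h4⟩ | ⟨h3, h4⟩
        · rw [h3, h4]; exact ⟨hnK _ hcf.1, (hIn j hjI).1⟩
        · rw [h3, h4]; exact ⟨(hIn j hjI).1, hnK _ hcf.1⟩
      · apply btw_zero
        left
        rcases he with ⟨h3, h4⟩ | ⟨h3, h4⟩
        · rw [h3, h4]; exact ⟨hnK _ hcf.1, (hIn j hjI).1⟩
        · rw [h3, h4]; exact ⟨(hIn j hjI).1, hnK _ hcf.1⟩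
    have h5 : ind (↑s : Set Fc) f1 = 1 := by
      rw [← h4]
      refine (ind_path hs (P := Wht W I ω) (fun e h3 h4 => hx0 e ?_ ?_) hcf).symm
      · exact btw_zero (Or.inl ⟨hnK _ h3, hnK _ h4⟩)
      · exact btw_zero (Or.inl ⟨hnK _ h3, hnK _ h4⟩)
    -- contradiction at the outer edge of `f1`
    have h6 : ind (↑s : Set Fc) f1 = ind (↑s : Set Fc) g1 := by
      have hn1 : f1 ∉ KB := hnK _ (Kc_mem hf1)
      have hn2 : g1 ∉ KB := fun h => hg1 (hKW _ h).1
      refine ind_adj hs ha1 fun e he => hx0 e ?_ ?_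
      · apply btw_zero
        left
        rcases he with ⟨h3, h4⟩ | ⟨h3, h4⟩
        · rw [h3, h4]; exact ⟨hn1, hn2⟩
        · rw [h3, h4]; exact ⟨hn2, hn1⟩
      · apply btw_zero
        left
        rcases he with ⟨h3, h4⟩ | ⟨h3, h4⟩
        · rw [h3, h4]; exact ⟨hn1, hn2⟩
        · rw [h3, h4]; exact ⟨hn2, hn1⟩
    rw [h5, hout g1 hg1] at h6
    exact absurd h6 (by decide)
  obtain ⟨v, ⟨k, hk⟩, w, hvw, l, hl⟩ := hex
  have hcw : Conn y w v := conn_symm hvw
  -- `v` has an edge of `y`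
  have hvne : v ≠ w := by
    rintro rfl
    exact hS v k l hk hl
  have hedge : ∃ m, y (ed v m) = 1 := by
    rcases Relation.ReflTransGen.cases_head hvw with h | ⟨c, ⟨m, _, hm⟩, _⟩
    · exact absurd h hvne
    · exact ⟨m, hm⟩
  obtain ⟨m, hm⟩ := hedge
  have hwc := white_conn hl hcw
  have hkm : fc v m ∉ W := by
    by_cases hmk : m = k
    · rw [hmk]; exact hk
    · exfalso
      rcases fin3_third hmk with ⟨h1, h2⟩ | ⟨h1, h2⟩
      · -- k = m + 2
        rcases btw_one hAB hm with ⟨h3, h4⟩ | ⟨h3, h4⟩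
        · exact hk (by rw [h2]; exact h4.1)
        · exact hk (by rw [h2]; exact (hKW _ h4).1)
      · rcases btw_one hAB hm with ⟨h3, h4⟩ | ⟨h3, h4⟩
        · exact hk (by rw [h2]; exact (hKW _ h3).1)
        · exact hk (by rw [h2]; exact h3.1)
  refine ⟨v, m, hkm, ?_⟩
  rcases btw_one hAB hm with ⟨h3, h4⟩ | ⟨h3, h4⟩
  · exact Or.inr ⟨h3, (hwc m).1 h3 h4⟩
  · exact Or.inl ⟨h4, (hwc m).2 h4 h3⟩

end A

end Pool.Agent.H58.TA
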