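import Pool.Agent.H58.TA.Cnt
import Pool.Agent.H58.TA.Box

set_option autoImplicit false

/-! (2A1): one step of the static two-arm bound with an absolute constant. -/

namespace Pool.Agent.H58.TA

open Pool.Agent.H7.UC Pool.Agent.H63.UC
open Pool.Agent.H75.Perc (Pr Pr_congr Pr_mono Pr_nonneg Pr_le_one Inc)
open Pool.Agent.H99.NC (PrP PrP_half PrP_restrict PrP_compl)
open Pool.Agent.H74.Tri (Pos pl pr ph pe pb Bi)

variable {W J I ω : Finset Fc}

theorem Pr_restrict {E E1 : Finset Fc} (h : E1 ⊆ E) (A : Finset Fc → Prop) :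
    Pr E (fun ω => A (ω ∩ E1)) = Pr E1 A := by
  rw [← PrP_half, ← PrP_half]
  exact PrP_restrict _ h A

theorem Pr_flip (E : Finset Fc) (A : Finset Fc → Prop) : Pr E (fun ω => A (E \ ω)) = Pr E A := by
  rw [← PrP_half, ← PrP_half, ← PrP_compl]
  congr 1
  funext e
  norm_num

/-- an arm from `I` to the outside of `W` -/
theorem arm_cut {P : Fc → Prop} (hIW : I ⊆ W) (hS : Sep W I) {f g : Fc} (h : Pth P f g)
    (hf : f ∈ I) (hg : g ∉ W) :
    ∃ a ∈ Kc I (fun h => h ∈ W ∧ h ∉ I ∧ P h), ∃ b ∉ W, adjF a b := by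
  obtain ⟨a, b, h1, h2, _, h4, _⟩ := h.exit (Q := fun h => h ∈ W) (hIW hf) (by exact hg)
  have haI : a ∉ I := by
    obtain ⟨v, k, h5, h6⟩ := adj_iff.1 h2
    rw [← h5]
    exact hS v (k + 2) (k + 1) (by rw [h6]; exact h4)
  obtain ⟨a', b', h5, h6, _, h8, _⟩ := h1.symm.exit (Q := fun h => h ∉ I) haI (fun h => h hf)
  have hb' : b' ∈ I := not_not.1 h8
  refine ⟨a, ⟨a', ⟨b', Finset.mem_coe.2 hb', h6⟩, ?_⟩, b, h4, h2⟩
  exact h5.symm.mono fun c hc => ⟨hc.1.2, hc.2, hc.1.1⟩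

theorem two_cut {E : Finset Fc} {x : ℂ} {r R : ℝ} (hI : ∀ f, ‖ctr f - x‖ ≤ r → f ∈ I)
    (hWR : ∀ f ∈ W, ‖ctr f - x‖ < R) (hIW : I ⊆ W) (hS : Sep W I) (_ : ω ⊆ E)
    (h : Two x r R E ω) :
    (∃ f ∈ Kc I (Blk W I (ω ∩ (W \ I))), ∃ g ∉ W, adjF f g) ∧
    (∃ f ∈ Kc I (Wht W I (ω ∩ (W \ I))), ∃ g ∉ W, adjF f g) := by
  obtain ⟨⟨f, g, h1, h2, h3, h4⟩, ⟨f', g', h1', h2', h3', h4'⟩⟩ := h
  have hgW : g ∉ W := fun hg => absurd (hWR g hg) (not_lt.2 h3)
  have hgW' : g' ∉ W := fun hg => absurd (hWR g' hg) (not_lt.2 h3')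
  have hp : Pth (fun h => h ∈ ω) f g := ⟨h1, h4⟩
  have hp' : Pth (fun h => h ∈ E \ ω) f' g' := ⟨h1', h4'⟩
  constructor
  · obtain ⟨a, ⟨c, hc, hca⟩, b, hb, hab⟩ := arm_cut hIW hS hp (hI f h2) hgW
    refine ⟨a, ⟨c, hc, hca.mono fun d hd => ⟨hd.1, hd.2.1, ?_⟩⟩, b, hb, hab⟩
    exact Finset.mem_inter.2 ⟨hd.2.2, Finset.mem_sdiff.2 ⟨hd.1, hd.2.1⟩⟩
  · obtain ⟨a, ⟨c, hc, hca⟩, b, hb, hab⟩ := arm_cut hIW hS hp' (hI f' h2') hgW'
    refine ⟨a, ⟨c, hc, hca.mono fun d hd => ⟨hd.1, hd.2.1, ?_⟩⟩, b, hb, hab⟩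
    intro hd'
    exact (Finset.mem_sdiff.1 hd.2.2).2 (Finset.mem_inter.1 hd').1

theorem blk_inter {f : Fc} : Blk W I (ω ∩ (W \ I)) f ↔ Blk W I ω f := by
  unfold Blk
  rw [Finset.mem_inter, Finset.mem_sdiff]
  tauto

theorem wht_inter {f : Fc} : Wht W I (ω ∩ (W \ I)) f ↔ Wht W I ω f := by
  unfold Wht
  rw [Finset.mem_inter, Finset.mem_sdiff]
  tauto

/-- union over the landing positions -/
theorem two_le (hW : IsDom W) (hI : Cn I) (hJ : Cn J) (hIJ : I ⊆ J) (hJW : J ⊆ W)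
    (hS : Sep W J) {z : Fc} (hz : z ∈ J) {x : ℂ} {s : ℝ}
    (hnx : ∀ f, Nx ↑I f → f ∈ J ∧ ‖ctr f - x‖ ≤ s) {V : ℝ} (hV0 : 0 ≤ V)
    (hV : ∀ U B, State U B → J ⊆ U → Pr U (Reach U B x s) ≤ V)
    (ha : Pr W (BArm W J) ≤ 1 / 2) :
    Pr W (fun ω => (∃ f ∈ Kc I (Blk W I ω), ∃ g ∉ W, adjF f g) ∧
      (∃ f ∈ Kc I (Wht W I ω), ∃ g ∉ W, adjF f g)) ≤ 4 * V := by
  classical
  set P := (pos_finite W).toFinset with hP
  have hSI : Sep W I := fun v k l h h' => hS v k l h (hIJ h')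
  have hone : ∀ p ∈ P, Pr W (fun ω => LandP W I ω p) ≤ Pr W (fun ω => LandP W J ω p) * V := by
    intro p _
    by_cases hb : pb p ∈ W
    · have h0 : Pr W (fun ω => LandP W I ω p) ≤ 0 := by
        have : Pr W (fun ω => LandP W I ω p) = Pr W (fun _ => False) :=
          Pr_congr fun ω _ => ⟨fun h => h.b hb, fun h => h.elim⟩
        rw [this]
        unfold Pr
        simp
      exact h0.trans (mul_nonneg (Pr_nonneg _ _) hV0)
    · have hl : pl p ∉ J := by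
        rw [← pl_eq_fc]
        exact hS _ p.2 _ hb
      have hr : pr p ∉ J := by
        rw [← pr_eq_fc]
        exact hS _ p.2 _ hb
      refine (land_le hW hI hJ hIJ hJW hl hr hz hnx hV).trans ?_
      apply mul_le_mul_of_nonneg_right _ hV0
      exact Pr_mono fun ω _ h => land_of_hit h
  have hsum : ∑ p ∈ P, Pr W (fun ω => LandP W I ω p) ≤ 2 * V := by
    refine (Finset.sum_le_sum hone).trans ?_
    rw [← Finset.sum_mul]
    exact mul_le_mul_of_nonneg_right (sum_land hW hJW hJ ha) hV0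
  have hun : ∀ (S : Finset Pos) (A : Pos → Finset Fc → Prop),
      Pr W (fun ω => ∃ p ∈ S, A p ω) ≤ ∑ p ∈ S, Pr W (A p) := by
    intro S A
    induction S using Finset.induction_on with
    | empty =>
      rw [Finset.sum_empty]
      have : Pr W (fun ω => ∃ p ∈ (∅ : Finset Pos), A p ω) = Pr W (fun _ => False) :=
        Pr_congr fun ω _ => ⟨fun ⟨p, h, _⟩ => absurd h (Finset.notMem_empty p), fun h => h.elim⟩
      rw [this]
      unfold Pr
      simp
    | @insert a S ha' ih =>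
      rw [Finset.sum_insert ha']
      refine (Pr_mono (B := fun ω => A a ω ∨ ∃ p ∈ S, A p ω) fun ω _ h => ?_).trans
        ((Pool.Agent.H75.Perc.Pr_or_le W _ _).trans (add_le_add (le_refl _) ih))
      obtain ⟨p, hp, hA⟩ := h
      rcases Finset.mem_insert.1 hp with h1 | h1
      · left; rw [← h1]; exact hA
      · exact Or.inr ⟨p, h1, hA⟩
  have hsub : ∀ ω, ω ⊆ W → ((∃ f ∈ Kc I (Blk W I ω), ∃ g ∉ W, adjF f g) ∧
      (∃ f ∈ Kc I (Wht W I ω), ∃ g ∉ W, adjF f g)) →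
      ((∃ p ∈ P, LandP W I ω p) ∨ ∃ p ∈ P, LandP W I (W \ ω) p) := by
    intro ω _ h
    obtain ⟨v, k, hk, h1⟩ := exists_land hW hI (hIJ.trans hJW) hSI h.1 h.2
    have e1 : pl (nb v k, k) = fc v (k + 2) := fc_nb1 v k
    have e2 : pr (nb v k, k) = fc v (k + 1) := fc_nb2 v k
    have e3 : pb (nb v k, k) = fc v k := by
      show fc (nb (nb v k) k) k = _
      rw [nb_nb]
    rcases h1 with ⟨h1, h2⟩ | ⟨h1, h2⟩
    · left
      refine ⟨(nb v k, k), ?_, ?_⟩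
      · rw [hP, Set.Finite.mem_toFinset]
        show pl (nb v k, k) ∈ W
        rw [e1]; exact (Kc_mem h1).1
      · exact ⟨by rw [e3]; exact hk, by rw [e1]; exact h1, by rw [e2]; exact h2⟩
    · right
      have hBW : ∀ f, Wht W I ω f → Blk W I (W \ ω) f := fun f h =>
        ⟨h.1, h.2.1, Finset.mem_sdiff.2 ⟨h.1, h.2.2⟩⟩
      have hWB : ∀ f, Blk W I ω f → Wht W I (W \ ω) f := fun f h =>
        ⟨h.1, h.2.1, fun h' => (Finset.mem_sdiff.1 h').2 h.2.2⟩
      refine ⟨(nb v k, k), ?_, ?_⟩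
      · rw [hP, Set.Finite.mem_toFinset]
        show pl (nb v k, k) ∈ W
        rw [e1]; exact (Kc_mem h2).1
      · refine ⟨by rw [e3]; exact hk, ?_, ?_⟩
        · rw [e1]
          obtain ⟨g, hg, hp⟩ := h2
          exact ⟨g, hg, hp.mono hBW⟩
        · rw [e2]
          obtain ⟨g, hg, hp⟩ := h1
          exact ⟨g, hg, hp.mono hWB⟩
  refine (Pr_mono hsub).trans ((Pool.Agent.H75.Perc.Pr_or_le W _ _).trans ?_)
  have h1 := (hun P (fun p ω => LandP W I ω p)).trans hsum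
  have h2 : Pr W (fun ω => ∃ p ∈ P, LandP W I (W \ ω) p) ≤ 2 * V := by
    rw [Pr_flip W (fun ω => ∃ p ∈ P, LandP W I ω p)]
    exact h1
  linarith

theorem Sep_Bx {z : Fc} {b c : ℕ} (h : b + 1 ≤ c) : Sep (Bx z c) (Bx z b) := by
  intro v k l h1 h2
  by_cases hkl : k = l
  · subst hkl
    apply h1
    rw [mem_Bx] at h2 ⊢
    omega
  · have h3 := adj_fc v hkl
    rw [Pool.Agent.H74.Tri.adjF_iff] at h3
    apply h1
    rw [mem_Bx] at h2 ⊢
    omega

theorem Bx_sub {z : Fc} {b c : ℕ} (h : b ≤ c) : Bx z b ⊆ Bx z c := by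
  intro f hf
  rw [mem_Bx] at hf ⊢
  omega

/-- **(2A1)** -/
theorem twoArmOne (h5 : D5) {C0 : ℝ} (hVB : VB C0) : ∃ C, TwoArmOne C := by
  obtain ⟨C5, a5, ha5, h5⟩ := h5
  -- the constant `θ`
  obtain ⟨θ, hθ0, hθ1, hθ2⟩ : ∃ θ : ℝ, 0 < θ ∧ θ ≤ 1 / 16 ∧ |C5| * (10 * θ) ^ a5 ≤ 1 / 2 := by
    have hpos : (0 : ℝ) < 1 / (2 * (|C5| + 1)) := by positivity
    refine ⟨min (1 / 16) (1 / 10 * (1 / (2 * (|C5| + 1))) ^ (1 / a5)), ?_, min_le_left _ _, ?_⟩
    · apply lt_min (by norm_num)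
      have := Real.rpow_pos_of_pos hpos (1 / a5)
      positivity
    · have h1 : 10 * min (1 / 16) (1 / 10 * (1 / (2 * (|C5| + 1))) ^ (1 / a5)) ≤
          (1 / (2 * (|C5| + 1))) ^ (1 / a5) := by
        have := min_le_right (1 / 16 : ℝ) (1 / 10 * (1 / (2 * (|C5| + 1))) ^ (1 / a5))
        linarith
      have h0 : 0 ≤ 10 * min (1 / 16) (1 / 10 * (1 / (2 * (|C5| + 1))) ^ (1 / a5)) := by
        have := Real.rpow_pos_of_pos hpos (1 / a5)
        have h2 : (0 : ℝ) ≤ min (1 / 16) (1 / 10 * (1 / (2 * (|C5| + 1))) ^ (1 / a5)) :=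
          le_min (by norm_num) (by positivity)
        linarith
      have h2 := Real.rpow_le_rpow h0 h1 ha5.le
      rw [← Real.rpow_mul hpos.le, one_div_mul_cancel ha5.ne', Real.rpow_one] at h2
      have h3 : 0 ≤ |C5| := abs_nonneg _
      calc |C5| * (10 * min (1 / 16) (1 / 10 * (1 / (2 * (|C5| + 1))) ^ (1 / a5))) ^ a5
          ≤ |C5| * (1 / (2 * (|C5| + 1))) := mul_le_mul_of_nonneg_left h2 h3
        _ ≤ 1 / 2 := by
            rw [mul_one_div, div_le_div_iff₀ (by positivity) (by norm_num)]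
            linarith
  refine ⟨(4 * |C0| + 1) * (4 / θ) ^ (1 / 4 : ℝ), fun M hM => ?_⟩
  have hM0 : 0 < M := by linarith
  have hθpos : 0 < 4 / θ := by positivity
  by_cases hbig : θ * M < 4
  · -- trivial range
    refine ⟨1, fun E x r _ _ => (Pr_le_one _ _).trans ?_⟩
    have h1 : M ≤ 4 / θ := by
      rw [le_div_iff₀ hθ0]; linarith
    have h2 : (1 : ℝ) ≤ (4 / θ) ^ (1 / 4 : ℝ) * M ^ (-(1 / 4) : ℝ) := by
      have h3 : M ^ (1 / 4 : ℝ) ≤ (4 / θ) ^ (1 / 4 : ℝ) :=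
        Real.rpow_le_rpow hM0.le h1 (by norm_num)
      have h4 : 0 < M ^ (-(1 / 4) : ℝ) := Real.rpow_pos_of_pos hM0 _
      have h5 : M ^ (1 / 4 : ℝ) * M ^ (-(1 / 4) : ℝ) = 1 := by
        rw [← Real.rpow_add hM0]; norm_num
      calc (1 : ℝ) = M ^ (1 / 4 : ℝ) * M ^ (-(1 / 4) : ℝ) := h5.symm
        _ ≤ _ := mul_le_mul_of_nonneg_right h3 h4.le
    have h6 : (0 : ℝ) ≤ 4 * |C0| := by positivity
    have h7 : (0 : ℝ) ≤ (4 / θ) ^ (1 / 4 : ℝ) * M ^ (-(1 / 4) : ℝ) := by linarith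
    calc (1 : ℝ) ≤ (4 / θ) ^ (1 / 4 : ℝ) * M ^ (-(1 / 4) : ℝ) := h2
      _ ≤ (4 * |C0| + 1) * ((4 / θ) ^ (1 / 4 : ℝ) * M ^ (-(1 / 4) : ℝ)) := by nlinarith
      _ = _ := by ring
  · push Not at hbig
    set M' : ℝ := θ * M / 4 with hM'
    have hM'1 : 1 ≤ M' := by rw [hM']; linarith
    obtain ⟨K, hK⟩ := hVB M' hM'1
    refine ⟨max (|K| + 20) 20, fun E x r hr hE => ?_⟩
    have hrK : |K| + 20 ≤ r := (le_max_left _ _).trans hr
    have hr20 : 20 ≤ r := (le_max_right _ _).trans hr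
    have hKr : K ≤ r := by
      have := le_abs_self K
      linarith
    obtain ⟨z, hz⟩ := exists_near x
    have hM64 : 64 ≤ M := by
      have : θ * M ≤ 1 / 16 * M := mul_le_mul_of_nonneg_right hθ1 hM0.le
      linarith
    set R : ℝ := M * r with hR
    have hR1 : 64 * r ≤ R := by rw [hR]; nlinarith
    have hθR : 4 * r ≤ θ * R := by
      rw [hR]; nlinarith
    have hθR2 : θ * R ≤ R / 16 := by nlinarith
    set a : ℕ := ⌈5 / 4 * (r + 1)⌉₊ with ha
    set b : ℕ := ⌊θ * R⌋₊ with hb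
    set c : ℕ := ⌊(R - 6) / 2⌋₊ with hc
    have ha1 : 5 / 4 * (r + 1) ≤ a := Nat.le_ceil _
    have ha2 : (a : ℝ) < 5 / 4 * (r + 1) + 1 := Nat.ceil_lt_add_one (by linarith)
    have hb1 : (b : ℝ) ≤ θ * R := Nat.floor_le (by linarith)
    have hb2 : θ * R < b + 1 := Nat.lt_floor_add_one _
    have hc1 : (c : ℝ) ≤ (R - 6) / 2 := Nat.floor_le (by linarith)
    have hc2 : (R - 6) / 2 < c + 1 := Nat.lt_floor_add_one _
    have hab : a + 1 ≤ b := by
      have : (a : ℝ) + 1 ≤ b := by linarith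
      exact_mod_cast this
    have hbc : b + 1 ≤ c := by
      have : (b : ℝ) + 1 ≤ c := by linarith
      exact_mod_cast this
    -- the sets
    have hW := isDom_Bx z c
    have hIJ : Bx z a ⊆ Bx z b := Bx_sub (by omega)
    have hJW : Bx z b ⊆ Bx z c := Bx_sub (by omega)
    have hIW : Bx z a ⊆ Bx z c := hIJ.trans hJW
    have hS : Sep (Bx z c) (Bx z b) := Sep_Bx hbc
    have hSI : Sep (Bx z c) (Bx z a) := Sep_Bx (by omega)
    have hzJ : z ∈ Bx z b := by rw [mem_Bx]; omega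
    have hIball : ∀ f, ‖ctr f - x‖ ≤ r → f ∈ Bx z a := by
      intro f hf
      by_contra hn
      have h1 := le_norm_of_not_mem hn
      have h2 : ‖ctr f - ctr z‖ ≤ ‖ctr f - x‖ + ‖ctr z - x‖ := by
        rw [show ctr f - ctr z = (ctr f - x) - (ctr z - x) by ring]
        exact norm_sub_le _ _
      linarith
    have hdist : ∀ f : Fc, ‖ctr f - x‖ ≤ ‖ctr f - ctr z‖ + 1 := by
      intro f
      rw [show ctr f - x = (ctr f - ctr z) + (ctr z - x) by ring]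
      exact (norm_add_le _ _).trans (by linarith)
    have hWR : ∀ f ∈ Bx z c, ‖ctr f - x‖ < R := by
      intro f hf
      have h1 := norm_le_of_mem hf
      have h2 := hdist f
      linarith
    have hWE : Bx z c \ Bx z a ⊆ E := by
      intro f hf
      obtain ⟨h1, h2⟩ := Finset.mem_sdiff.1 hf
      apply hE
      · have h3 := le_norm_of_not_mem h2
        have h4 : ‖ctr f - ctr z‖ ≤ ‖ctr f - x‖ + ‖ctr z - x‖ := by
          rw [show ctr f - ctr z = (ctr f - x) - (ctr z - x) by ring]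
          exact norm_sub_le _ _
        linarith
      · have := hWR f h1
        linarith
    have hnx : ∀ f, Nx ↑(Bx z a) f → f ∈ Bx z b ∧ ‖ctr f - ctr z‖ ≤ 4 / 5 * b / M' := by
      rintro f ⟨g, hg, hfg⟩
      rw [Finset.mem_coe] at hg
      constructor
      · rw [Pool.Agent.H74.Tri.adjF_iff] at hfg
        rw [mem_Bx] at hg ⊢
        omega
      · have h1 := norm_le_of_mem hg
        have h2 := norm_adj hfg
        have h3 : ‖ctr f - ctr z‖ ≤ 2 * a + 1 := by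
          rw [show ctr f - ctr z = (ctr f - ctr g) + (ctr g - ctr z) by ring]
          exact (norm_add_le _ _).trans (by linarith)
        have h4 : 2 * (a : ℝ) + 1 ≤ 4 / 5 * b / M' := by
          rw [le_div_iff₀ (by linarith), hM']
          have h5 : 4 / 5 * (θ * R - 1) ≤ 4 / 5 * (b : ℝ) := by linarith
          refine le_trans ?_ h5
          have h6 : θ * R = θ * M * r := by rw [hR]; ring
          rw [h6]
          have h7 : 4 ≤ θ * M := hbig
          have h8 : (2 * (a : ℝ) + 1) ≤ 5 / 2 * r + 11 / 2 := by linarith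
          have h9 : (2 * (a : ℝ) + 1) * (θ * M / 4) ≤ (5 / 2 * r + 11 / 2) * (θ * M / 4) :=
            mul_le_mul_of_nonneg_right h8 (by linarith)
          refine h9.trans ?_
          nlinarith
        exact h3.trans h4
    set V : ℝ := |C0| * M' ^ (-(1 / 4) : ℝ) with hV
    have hM'p : 0 < M' ^ (-(1 / 4) : ℝ) := Real.rpow_pos_of_pos (by linarith) _
    have hV0 : 0 ≤ V := mul_nonneg (abs_nonneg _) hM'p.le
    have hVV : ∀ U B, State U B → Bx z b ⊆ U →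
        Pr U (Reach U B (ctr z) (4 / 5 * b / M')) ≤ V := by
      intro U B hU hJU
      refine (hK U B (ctr z) (4 / 5 * b) hU ?_ ?_).trans
        (mul_le_mul_of_nonneg_right (le_abs_self C0) hM'p.le)
      · linarith
      · intro f hf
        apply hJU
        by_contra hn
        have := le_norm_of_not_mem hn
        linarith
    have hBA : Pr (Bx z c) (BArm (Bx z c) (Bx z b)) ≤ 1 / 2 := by
      have hr' : (1 : ℝ) ≤ 2 * b + 1 := by have := Nat.cast_nonneg (α := ℝ) b; linarith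
      have hden : 3 / 10 * R ≤ 4 / 5 * ((c : ℝ) + 1) - 1 := by linarith
      have hnum : 2 * (b : ℝ) + 1 ≤ 3 * (θ * R) := by linarith
      have hnd : 2 * (b : ℝ) + 1 ≤ 4 / 5 * ((c : ℝ) + 1) - 1 := by linarith
      have h1 : Pr (Bx z c) (BArm (Bx z c) (Bx z b)) ≤
          Pr (Bx z c) (Arm (ctr z) (2 * b + 1) (4 / 5 * ((c : ℝ) + 1) - 1)) := by
        apply Pr_mono
        rintro ω _ ⟨f, g, ⟨j, hj, hfj⟩, hp, y, hy, hgy⟩
        rw [Finset.mem_coe] at hj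
        refine ⟨f, g, hp.1.2.2, ?_, ?_, (hp.mono (Q := fun h => h ∈ ω) fun a ha => ha.2.2).2⟩
        · have h2 := norm_le_of_mem hj
          have h3 := norm_adj hfj
          rw [show ctr f - ctr z = (ctr f - ctr j) + (ctr j - ctr z) by ring]
          exact (norm_add_le _ _).trans (by linarith)
        · have h2 := le_norm_of_not_mem hy
          have h3 := norm_adj hgy
          have h4 : ‖ctr y - ctr z‖ ≤ ‖ctr g - ctr y‖ + ‖ctr g - ctr z‖ := by
            rw [show ctr y - ctr z = (ctr g - ctr z) - (ctr g - ctr y) by ring, add_comm]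
            exact norm_sub_le _ _
          linarith
      refine h1.trans ((h5 _ _ _ _ hr' hnd).trans ?_)
      have hRp : 0 < R := by linarith
      have h2 : (2 * (b : ℝ) + 1) / (4 / 5 * ((c : ℝ) + 1) - 1) ≤ 10 * θ := by
        rw [div_le_iff₀ (by linarith)]
        have h6 : 10 * θ * (3 / 10 * R) ≤ 10 * θ * (4 / 5 * ((c : ℝ) + 1) - 1) :=
          mul_le_mul_of_nonneg_left hden (by linarith)
        linarith
      have h3 : ((2 * (b : ℝ) + 1) / (4 / 5 * ((c : ℝ) + 1) - 1)) ^ a5 ≤ (10 * θ) ^ a5 :=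
        Real.rpow_le_rpow (div_nonneg (by linarith) (by linarith)) h2 ha5.le
      have h4 : 0 ≤ ((2 * (b : ℝ) + 1) / (4 / 5 * ((c : ℝ) + 1) - 1)) ^ a5 :=
        Real.rpow_nonneg (div_nonneg (by linarith) (by linarith)) _
      calc C5 * ((2 * (b : ℝ) + 1) / (4 / 5 * ((c : ℝ) + 1) - 1)) ^ a5
          ≤ |C5| * ((2 * (b : ℝ) + 1) / (4 / 5 * ((c : ℝ) + 1) - 1)) ^ a5 :=
            mul_le_mul_of_nonneg_right (le_abs_self _) h4
        _ ≤ |C5| * (10 * θ) ^ a5 := mul_le_mul_of_nonneg_left h3 (abs_nonneg _)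
        _ ≤ 1 / 2 := hθ2
    have hmain := two_le hW (cn_Bx z a) (cn_Bx z b) hIJ hJW hS hzJ hnx hV0 hVV hBA
    -- from `E` to `W`
    have hstep : Pr E (Two x r R E) ≤
        Pr (Bx z c) (fun ω => (∃ f ∈ Kc (Bx z a) (Blk (Bx z c) (Bx z a) ω), ∃ g ∉ Bx z c, adjF f g) ∧
          (∃ f ∈ Kc (Bx z a) (Wht (Bx z c) (Bx z a) ω), ∃ g ∉ Bx z c, adjF f g)) := by
      set A : Finset Fc → Prop := fun ω =>
        (∃ f ∈ Kc (Bx z a) (Blk (Bx z c) (Bx z a) ω), ∃ g ∉ Bx z c, adjF f g) ∧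
          (∃ f ∈ Kc (Bx z a) (Wht (Bx z c) (Bx z a) ω), ∃ g ∉ Bx z c, adjF f g) with hA
      have h1 : Pr E (Two x r R E) ≤ Pr E (fun ω => A (ω ∩ (Bx z c \ Bx z a))) :=
        Pr_mono fun ω hω h => two_cut hIball hWR hIW hSI hω h
      rw [Pr_restrict hWE, ← Pr_restrict (E := Bx z c) Finset.sdiff_subset] at h1
      refine h1.trans (le_of_eq (Pr_congr fun ω _ => ?_))
      have e1 : Blk (Bx z c) (Bx z a) (ω ∩ (Bx z c \ Bx z a)) = Blk (Bx z c) (Bx z a) ω := by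
        funext f; exact propext blk_inter
      have e2 : Wht (Bx z c) (Bx z a) (ω ∩ (Bx z c \ Bx z a)) = Wht (Bx z c) (Bx z a) ω := by
        funext f; exact propext wht_inter
      rw [hA]
      simp only [e1, e2]
    refine (hstep.trans hmain).trans ?_
    have h1 : M' ^ (-(1 / 4) : ℝ) = (4 / θ) ^ (1 / 4 : ℝ) * M ^ (-(1 / 4) : ℝ) := by
      have h2 : M' = (4 / θ)⁻¹ * M := by rw [hM', inv_div]; ring
      rw [h2, Real.mul_rpow (by positivity) hM0.le, Real.inv_rpow hθpos.le,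
        Real.rpow_neg hθpos.le, inv_inv]
    have h3 : 0 ≤ (4 / θ) ^ (1 / 4 : ℝ) * M ^ (-(1 / 4) : ℝ) := by rw [← h1]; exact hM'p.le
    rw [hV, h1]
    generalize (4 / θ) ^ (1 / 4 : ℝ) = u at h3 ⊢
    generalize M ^ (-(1 / 4) : ℝ) = w at h3 ⊢
    linarith

end Pool.Agent.H58.TA
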