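import Pool.Agent.H58.TA.Three
import Pool.Agent.H74.Tri.Defs

set_option autoImplicit false

/-! The interface from a landing vertex meets `J` before it meets the outside. -/

namespace Pool.Agent.H58.TA

open Pool.Agent.H7.UC Pool.Agent.H63.UC
open Pool.Agent.H74.Tri (Pos pl pr ph pe pb Bi stp orb orb_zero orb_succ stp_black stp_white stp_inj
  orb_inj pe_faces adj_lr adj_hl adj_hr)
open Pool.Agent.H98.UC (sg dv_sg sg_self sg_ne)

/-- colouring of a finite set of black faces -/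
noncomputable def col (ω : Finset Fc) (f : Fc) : Bool := by
  classical exact decide (f ∈ ω)

theorem col_true {ω : Finset Fc} {f : Fc} : col ω f = true ↔ f ∈ ω := by
  unfold col; simp

theorem col_false {ω : Finset Fc} {f : Fc} : col ω f = false ↔ f ∉ ω := by
  unfold col; simp

theorem Bi_iff {ω : Finset Fc} {p : Pos} : Bi (col ω) p ↔ pl p ∈ ω ∧ pr p ∉ ω := by
  unfold Bi
  rw [col_true, col_false]

/-- the first `n` faces ahead are in `W \ J` -/
def Go (W J ω : Finset Fc) (p : Pos) (n : ℕ) : Prop :=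
  ∀ i < n, ph (orb (col ω) p i) ∈ W ∧ ph (orb (col ω) p i) ∉ J

section

variable {W J I ω : Finset Fc} {p : Pos}

theorem Go.mono {m n : ℕ} (h : Go W J ω p n) (hmn : m ≤ n) : Go W J ω p m :=
  fun i hi => h i (lt_of_lt_of_le hi hmn)

theorem Go.zero : Go W J ω p 0 := fun _ hi => absurd hi (Nat.not_lt_zero _)

theorem Go.succ {n : ℕ} (h : Go W J ω p n) (h1 : ph (orb (col ω) p n) ∈ W)
    (h2 : ph (orb (col ω) p n) ∉ J) : Go W J ω p (n + 1) := by
  intro i hi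
  rcases Nat.lt_succ_iff_lt_or_eq.1 hi with h3 | h3
  · exact h i h3
  · rw [h3]; exact ⟨h1, h2⟩

/-- start of an interface: black left, white right, both in `W \ J` -/
structure Start (W J ω : Finset Fc) (p : Pos) : Prop where
  l : Blk W J ω (pl p)
  r : Wht W J ω (pr p)
  b : pb p ∉ W

theorem Start.bi (h : Start W J ω p) : Bi (col ω) p := Bi_iff.2 ⟨h.l.2.2, h.r.2.2⟩

theorem go_faces (hs : Start W J ω p) {n : ℕ} (hn : Go W J ω p n) :
    Pth (Blk W J ω) (pl p) (pl (orb (col ω) p n)) ∧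
    Pth (Wht W J ω) (pr p) (pr (orb (col ω) p n)) := by
  induction n with
  | zero => exact ⟨Pth.refl hs.l, Pth.refl hs.r⟩
  | succ n ih =>
    obtain ⟨h1, h2⟩ := ih (hn.mono (Nat.le_succ n))
    obtain ⟨h3, h4⟩ := hn n (Nat.lt_succ_self n)
    rw [orb_succ]
    set q := orb (col ω) p n with hq
    cases hc : col ω (ph q)
    · obtain ⟨h5, h6⟩ := stp_white hc
      rw [h5, h6]
      exact ⟨h1, h2.step ⟨h3, h4, col_false.1 hc⟩ (Pool.Agent.H74.Tri.adjF_symm (adj_hr q))⟩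
    · obtain ⟨h5, h6⟩ := stp_black hc
      rw [h5, h6]
      exact ⟨h1.step ⟨h3, h4, col_true.1 hc⟩ (Pool.Agent.H74.Tri.adjF_symm (adj_hl q)), h2⟩

theorem pb_stp (Ω : Fc → Bool) (q : Pos) : pb (stp Ω q) = pl q ∨ pb (stp Ω q) = pr q := by
  obtain ⟨v, k⟩ := q
  unfold stp
  split_ifs with h
  · left
    show fc (nb (nb v (k + 1)) (k + 1)) (k + 1) = fc v (k + 1)
    rw [nb_nb]
  · right
    show fc (nb (nb v (k + 2)) (k + 2)) (k + 2) = fc v (k + 2)
    rw [nb_nb]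

/-- the interface does not come back to its start -/
theorem orb_ne (hs : Start W J ω p) {n : ℕ} (hn : Go W J ω p n) (h0 : 1 ≤ n) :
    orb (col ω) p n ≠ p := by
  obtain ⟨m, rfl⟩ : ∃ m, n = m + 1 := ⟨n - 1, by omega⟩
  intro h
  obtain ⟨h1, h2⟩ := go_faces hs (hn.mono (Nat.le_succ m))
  rw [orb_succ] at h
  rcases pb_stp (col ω) (orb (col ω) p m) with h3 | h3
  · apply hs.b
    rw [h] at h3
    rw [h3]
    exact h1.end_mem.1
  · apply hs.b
    rw [h] at h3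
    rw [h3]
    exact h2.end_mem.1

/-- chain of the first edges of the interface -/
noncomputable def pc (Ω : Fc → Bool) (p : Pos) : ℕ → Ed → ZMod 2
  | 0 => sg (pe p)
  | n + 1 => fun e => pc Ω p n e + sg (pe (orb Ω p (n + 1))) e

theorem stp_nb (Ω : Fc → Bool) (q : Pos) : nb (stp Ω q).1 (stp Ω q).2 = q.1 := by
  obtain ⟨v, k⟩ := q
  unfold stp
  split_ifs
  · show nb (nb v (k + 1)) (k + 1) = v
    rw [nb_nb]
  · show nb (nb v (k + 2)) (k + 2) = v
    rw [nb_nb]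

theorem dv_pc (Ω : Fc → Bool) (p : Pos) (n : ℕ) (v : Vx) :
    dv (pc Ω p n) v = ind {nb p.1 p.2} v + ind {(orb Ω p n).1} v := by
  induction n with
  | zero =>
    show dv (sg (ed p.1 p.2)) v = _
    rw [dv_sg, add_comm]; rfl
  | succ n ih =>
    show dv (fun e => pc Ω p n e + sg (pe (orb Ω p (n + 1))) e) v = _
    rw [dv_add, ih]
    have h1 : dv (sg (pe (orb Ω p (n + 1)))) v =
        ind {(orb Ω p (n + 1)).1} v + ind {(orb Ω p n).1} v := by
      show dv (sg (ed (orb Ω p (n + 1)).1 (orb Ω p (n + 1)).2)) v = _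
      rw [dv_sg]
      congr 2
      rw [orb_succ, stp_nb]
    rw [h1]
    have h2 := z2 (ind {(orb Ω p n).1} v)
    linear_combination h2

theorem pc_supp {Ω : Fc → Bool} {p : Pos} {n : ℕ} {e : Ed} (h : pc Ω p n e ≠ 0) :
    ∃ i ≤ n, e = pe (orb Ω p i) := by
  induction n with
  | zero =>
    refine ⟨0, le_refl 0, ?_⟩
    by_contra hn
    exact h (sg_ne hn)
  | succ n ih =>
    by_cases h1 : pc Ω p n e = 0
    · refine ⟨n + 1, le_refl _, ?_⟩
      by_contra hn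
      apply h
      show pc Ω p n e + sg (pe (orb Ω p (n + 1))) e = 0
      rw [h1, sg_ne hn, add_zero]
    · obtain ⟨i, hi, he⟩ := ih h1
      exact ⟨i, hi.trans (Nat.le_succ n), he⟩

theorem pe_eq {q q' : Pos} (h : pe q = pe q') : q = q' ∨ (pl q = pr q' ∧ pr q = pl q') := by
  obtain ⟨v, k⟩ := q
  obtain ⟨w, l⟩ := q'
  have h' : ed v k = ed w l := h
  rw [ed_eq_iff] at h'
  obtain ⟨rfl, h1 | h1⟩ := h'
  · left; rw [h1]
  · right
    have hv : w = nb v k := h1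
    subst hv
    refine ⟨?_, ?_⟩
    · show fc v (k + 1) = fc (nb v k) (k + 2)
      rw [fc_nb2]
    · show fc v (k + 2) = fc (nb v k) (k + 1)
      rw [fc_nb1]

theorem pc_start (hs : Start W J ω p) {n : ℕ} (hn : Go W J ω p n) :
    pc (col ω) p n (pe p) = 1 := by
  induction n with
  | zero => exact sg_self _
  | succ n ih =>
    show pc (col ω) p n (pe p) + sg (pe (orb (col ω) p (n + 1))) (pe p) = 1
    rw [ih (hn.mono (Nat.le_succ n)), sg_ne, add_zero]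
    intro h
    rcases pe_eq h with h1 | ⟨h1, _⟩
    · exact orb_ne hs hn (by omega) h1.symm
    · have h2 := (go_faces hs hn).2.end_mem
      rw [← h1] at h2
      exact h2.2.2 hs.l.2.2

/-- NO RETURN. -/
theorem no_ret (hW : IsDom W) (hI : Cn I) (hIJ : I ⊆ J) (hIW : I ⊆ W) (hb : pb p ∉ W)
    (hlJ : pl p ∉ J) (hrJ : pr p ∉ J)
    (hl : pl p ∈ Kc I (Blk W I ω)) (hr : pr p ∈ Kc I (Wht W I ω)) {n : ℕ} (hn : Go W J ω p n) :
    ph (orb (col ω) p n) ∈ W := by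
  by_contra hout
  have hs : Start W J ω p := ⟨⟨(Kc_mem hl).1, hlJ, (Kc_mem hl).2.2⟩,
    ⟨(Kc_mem hr).1, hrJ, (Kc_mem hr).2.2⟩, hb⟩
  -- all edges separate black and white faces of `W \ J`
  have hedge : ∀ e, pc (col ω) p n e ≠ 0 →
      (Blk W J ω (lf e) ∧ Wht W J ω (rf e)) ∨ (Wht W J ω (lf e) ∧ Blk W J ω (rf e)) := by
    intro e he
    obtain ⟨i, hi, rfl⟩ := pc_supp he
    obtain ⟨h1, h2⟩ := go_faces hs (hn.mono hi)
    rcases pe_faces (orb (col ω) p i) with ⟨h3, h4⟩ | ⟨h3, h4⟩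
    · left; rw [h3, h4]; exact ⟨h1.end_mem, h2.end_mem⟩
    · right; rw [h3, h4]; exact ⟨h2.end_mem, h1.end_mem⟩
  obtain ⟨hnl, hnr⟩ := go_faces hs hn
  have hB0 : ∃ k, isB W (ed (nb p.1 p.2) k) := by
    refine ⟨p.2 + 1, (isB_ed W _ _).2 (Or.inl ⟨?_, ?_⟩)⟩
    · rw [f11, fc_nb2]; exact hs.l.1
    · rw [f12]; exact hb
  have hBn : ∃ k, isB W (ed (orb (col ω) p n).1 k) := by
    refine ⟨(orb (col ω) p n).2 + 1, (isB_ed W _ _).2 (Or.inl ⟨?_, ?_⟩)⟩
    · rw [f11]; exact hnr.end_mem.1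
    · rw [f12]; exact hout
  obtain ⟨C, hC, hdC⟩ := exists_bdry hW hB0 hBn
  obtain ⟨s, hsW, hs'⟩ := d2_struct W hW C (pc (col ω) p n) hC (fun e he => by
    rcases hedge e he with h | h
    · exact Or.inl h.1.1
    · exact Or.inl h.1.1) (fun v => by rw [hdC, dv_pc])
  have hCin : ∀ e, lf e ∈ W → rf e ∈ W → C e = 0 := by
    intro e h1 h2
    by_contra hne
    exact ((isB_iff W e).1 (hC e hne)).2 ⟨h1, h2⟩
  have hzero : ∀ e, lf e ∈ W → rf e ∈ W →
      ((lf e ∈ ω ∧ rf e ∈ ω) ∨ (lf e ∉ ω ∧ rf e ∉ ω) ∨ lf e ∈ J ∨ rf e ∈ J) →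
      C e + pc (col ω) p n e = 0 := by
    intro e h1 h2 h3
    rw [hCin e h1 h2, zero_add]
    by_contra hne
    rcases hedge e hne with ⟨h4, h5⟩ | ⟨h4, h5⟩
    · rcases h3 with h3 | h3 | h3 | h3
      · exact h5.2.2 h3.2
      · exact h3.1 h4.2.2
      · exact h4.2.1 h3
      · exact h5.2.1 h3
    · rcases h3 with h3 | h3 | h3 | h3
      · exact h4.2.2 h3.1
      · exact h3.2 h5.2.2
      · exact h4.2.1 h3
      · exact h5.2.1 h3
  have adj_case : ∀ {f g : Fc}, f ∈ W → g ∈ W → g ∈ J → adjF f g →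
      ind (↑s : Set Fc) f = ind (↑s : Set Fc) g := by
    intro f g hf hg hgJ ha
    refine ind_adj hs' ha fun e he => ?_
    rcases he with ⟨h3, h4⟩ | ⟨h3, h4⟩
    · exact hzero e (h3 ▸ hf) (h4 ▸ hg) (Or.inr (Or.inr (Or.inr (h4 ▸ hgJ))))
    · exact hzero e (h3 ▸ hg) (h4 ▸ hf) (Or.inr (Or.inr (Or.inl (h3 ▸ hgJ))))
  obtain ⟨a, ⟨i, hi, hai⟩, hap⟩ := hl
  obtain ⟨b, ⟨j, hj, hbj⟩, hbp⟩ := hr
  have hiI : i ∈ I := Finset.mem_coe.1 hi
  have hjI : j ∈ I := Finset.mem_coe.1 hj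
  have e1 : ind (↑s : Set Fc) a = ind (↑s : Set Fc) (pl p) :=
    ind_path hs' (P := Blk W I ω) (fun e h3 h4 => hzero e h3.1 h4.1 (Or.inl ⟨h3.2.2, h4.2.2⟩)) hap
  have e2 : ind (↑s : Set Fc) b = ind (↑s : Set Fc) (pr p) :=
    ind_path hs' (P := Wht W I ω)
      (fun e h3 h4 => hzero e h3.1 h4.1 (Or.inr (Or.inl ⟨h3.2.2, h4.2.2⟩))) hbp
  have e3 : ind (↑s : Set Fc) a = ind (↑s : Set Fc) i := adj_case hap.1.1 (hIW hiI) (hIJ hiI) hai
  have e4 : ind (↑s : Set Fc) b = ind (↑s : Set Fc) j := adj_case hbp.1.1 (hIW hjI) (hIJ hjI) hbj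
  have e5 : ind (↑s : Set Fc) i = ind (↑s : Set Fc) j :=
    ind_path hs' (P := fun f => f ∈ I)
      (fun e h3 h4 => hzero e (hIW h3) (hIW h4) (Or.inr (Or.inr (Or.inl (hIJ h3)))))
      (hI i hiI j hjI)
  have e6 : ind (↑s : Set Fc) (pl p) = ind (↑s : Set Fc) (pr p) := by
    rw [← e1, e3, e5, ← e4, e2]
  have h7 := hs' (pe p)
  rw [pc_start hs hn] at h7
  have hCp : C (pe p) = 0 := by
    rcases pe_faces p with ⟨h3, h4⟩ | ⟨h3, h4⟩
    · exact hCin _ (by rw [h3]; exact hs.l.1) (by rw [h4]; exact hs.r.1)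
    · exact hCin _ (by rw [h3]; exact hs.r.1) (by rw [h4]; exact hs.l.1)
  rw [hCp, zero_add] at h7
  have h8 : bd (↑s : Set Fc) (pe p) = 0 := by
    unfold bd
    rcases pe_faces p with ⟨h3, h4⟩ | ⟨h3, h4⟩
    · rw [h3, h4, e6, z2]
    · rw [h3, h4, e6, z2]
  rw [h8] at h7
  exact absurd h7 (by decide)

end

end Pool.Agent.H58.TA
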