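import Pool.Agent.H58.TA.Vb1
import Pool.Agent.H12.Inst.EVC
import Pool.Agent.H11.SM.ECT
import Pool.Agent.H11.Lv.RST
import Pool.Agent.H84.SM.CH
import Pool.Agent.H21.SM.Chain
import Pool.Agent.H69.UC.Cells
import Pool.Agent.H74.Tri.Main

set_option autoImplicit false

/-! VB (one macro step for all states) from OS'. -/

namespace Pool.Agent.H58.TA

open Pool.Agent.H7.UC Pool.Agent.H63.UC Metric
open Pool.Agent.H75.Perc (Pr Pr_congr Pr_mono Pr_nonneg Pr_le_one)
open Pool.Agent.H74.Tri (Pos pl pr ph pe pb Bi stp orb IsTip St Rev ExitAt IsExit Jn chg tch comp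
  mem_comp comp_sub mem_comp_self comp_adj comp_conn adj_hl adj_hr adj_lr adjF_symm)
open Pool.Agent.H75.Lv (mixc Ins Ask unx expl)
open Pool.Agent.H93.SM (dst crad sn gv EV OS')
open Pool.Agent.H11.Lv (mem_sd mem_unx unx_self)

/-- a face off the domain bounds the distance -/
theorem dst_le_out {U : Finset Fc} {z f : Fc} (h : f ∉ U) : dst U z ≤ ‖ctr f - ctr z‖ := by
  unfold dst
  have h1 : ctr f ∈ (reg U)ᶜ := fun h2 => h (Pool.Agent.H21.UC.mem_of_ctr h2)
  have h2 := infDist_le_dist_of_mem (x := ctr z) h1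
  rwa [dist_comm, dist_eq_norm] at h2

theorem le_dst_of {U : Finset Fc} {z : Fc} {r : ℝ} (h : ∀ f, ‖ctr f - ctr z‖ ≤ r → f ∈ U) :
    r - 1 ≤ dst U z := by
  unfold dst
  rw [le_infDist (Pool.Agent.H84.SM.compl_nonempty U)]
  intro y hy
  obtain ⟨g, hg, hyg⟩ := Pool.Agent.H69.UC.exists_outside hy
  have h1 := Pool.Agent.H21.UC.cell_norm hyg
  by_contra hn
  push Not at hn
  rw [dist_comm, dist_eq_norm] at hn
  apply hg
  apply h
  rw [show ctr g - ctr z = (y - ctr z) - (y - ctr g) by ring]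
  exact (norm_sub_le _ _).trans (by linarith)

/-- Both colours reach the box `Bx z a`: the interface reveals a face of the box. -/
theorem reach_hit {U : Finset Fc} {B : Set Fc} {w : Finset Fc} {p : Pos} {z : Fc} {a : ℕ}
    {x : ℂ} {s : ℝ} (hS : St U (colB B)) (hp : IsTip U (colB B) p) (ha : Bx z a ⊆ U)
    (hx : ∀ f, ‖ctr f - x‖ ≤ s → f ∈ Bx z a) (_ : w ⊆ U) (hR : Reach U B x s w) :
    ∃ t, Ask U (mixc U w (colB B)) p t (ph (orb (mixc U w (colB B)) p t)) ∧
      ph (orb (mixc U w (colB B)) p t) ∈ Bx z a ∧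
      ∀ f ∈ Bx z a, f ∉ Rev (mixc U w (colB B)) p t := by
  classical
  set ω := mixc U w (colB B) with hω
  have hoff : ∀ f, f ∉ U → ω f = colB B f := fun f hf => Pool.Agent.H12.Inst.mixc_off hf
  have hin : ∀ f, f ∈ U → ω f = decide (f ∈ w) := by
    intro f hf
    rw [hω]
    unfold mixc
    rw [if_pos hf]
  have hSω : St U ω := Pool.Agent.H12.Inst.St.congr_off hS fun f hf => (hoff f hf).symm
  have hpω : IsTip U ω p := by
    refine ⟨hp.1, hp.2.1, hp.2.2.1, ?_, ?_⟩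
    · rw [hoff _ hp.2.1]; exact hp.2.2.2.1
    · rw [hoff _ hp.2.2.1]; exact hp.2.2.2.2
  obtain ⟨n, hn⟩ := Pool.Agent.H98.Tri.int1 U ω p hpω
  have hzz : z ∈ Bx z a := by rw [mem_Bx]; omega
  have h0 : ∀ f ∈ U, f ∉ Rev ω p 0 := by
    rintro f hf ⟨j, hj, h⟩
    have hj' : j = 0 := by omega
    subst hj'
    rcases h with rfl | rfl
    · exact hpω.2.1 hf
    · exact hpω.2.2.1 hf
  -- some face of the box is revealed
  have hex : ∃ f ∈ Bx z a, f ∈ Rev ω p n := by
    by_contra hno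
    push Not at hno
    have hzU : z ∈ U \ expl U ω p n := mem_sd.2 ⟨ha hzz, hno z hzz⟩
    have hsub : Bx z a ⊆ unx U ω p n z := by
      intro f hf
      refine mem_comp.2 ⟨mem_sd.2 ⟨ha hf, hno f hf⟩, ?_⟩
      refine Pool.Agent.H74.Tri.Jn.mono (S := {h | h ∈ Bx z a}) ?_ (cn_Bx z a z hzz f hf).2
      intro g hg
      exact Finset.mem_coe.2 (mem_sd.2 ⟨ha hg, hno g hg⟩)
    have hI2 := Pool.Agent.H11.Lv.int2' U ω hSω p n hpω hn (unx U ω p n z)
      (fun f hf => (mem_unx hf).1) (fun f hf => (mem_unx hf).2)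
      (fun f hf g hg => comp_conn hzU hf hg) (by
        rintro f hf hfW ⟨g, hg, hfg⟩
        by_contra hfR
        exact hfW (comp_adj (by exact_mod_cast hg) (mem_sd.2 ⟨hf, hfR⟩) (adjF_symm hfg)))
    have hexit : ∀ c : Bool, ∀ f h, f ∈ Bx z a → h ∉ U →
        Pth (fun b => ω b = c) f h → ∃ b, b ∉ unx U ω p n z ∧ tch ↑(unx U ω p n z) b ∧ ω b = c := by
      intro c f h hf hh hP
      obtain ⟨b, b', h1, h2, h3, h4, _⟩ := hP.exit (Q := fun f => f ∈ unx U ω p n z) (hsub hf)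
        (fun h' => hh (mem_unx h').1)
      exact ⟨b', h4, ⟨b, Finset.mem_coe.2 h1.end_mem.2, adj_symm h2⟩, h3⟩
    obtain ⟨⟨f, g, hf, hfg, h, ⟨hhU, hhB⟩, hgh⟩, ⟨f', g', hf', hfg', h', ⟨hhU', hhB'⟩, hgh'⟩⟩ := hR
    obtain ⟨b, hb1, hb2, hb3⟩ := hexit true f h (hx f hf) hhU
      ((hfg.mono (Q := fun b => ω b = true) fun b hb => by
        rw [hin b hb.1, decide_eq_true_iff]; exact hb.2).step
        (by rw [hoff _ hhU, colB_true]; exact hhB) hgh)
    obtain ⟨b', hb1', hb2', hb3'⟩ := hexit false f' h' (hx f' hf') hhU'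
      ((hfg'.mono (Q := fun b => ω b = false) fun b hb => by
        rw [hin b hb.1, decide_eq_false_iff_not]; exact hb.2).step
        (by rw [hoff _ hhU', colB_false]; exact hhB') hgh')
    have := hI2 b b' hb1 hb1' hb2 hb2'
    rw [hb3, hb3'] at this
    exact absurd this (by simp)
  -- the first one
  have hex2 : ∃ t, t < n ∧ ph (orb ω p t) ∈ Bx z a := by
    obtain ⟨f, hf, hfR⟩ := hex
    obtain ⟨t, h1, h2, _⟩ := Pool.Agent.H74.Tri.exists_first hfR (h0 f (ha hf))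
    exact ⟨t, h1, by rw [h2]; exact hf⟩
  obtain ⟨hlt, hbox⟩ := Nat.find_spec hex2
  set t := Nat.find hex2 with ht
  have hnr : ∀ f ∈ Bx z a, f ∉ Rev ω p t := by
    intro f hf hfR
    obtain ⟨t', h1, h2, _⟩ := Pool.Agent.H74.Tri.exists_first hfR (h0 f (ha hf))
    exact Nat.find_min hex2 h1 ⟨by omega, by rw [h2]; exact hf⟩
  exact ⟨t, ⟨fun i' h1 h2 => hn.2.1 i' h1 (by omega), rfl, ha hbox, hnr _ hbox⟩, hbox, hnr⟩

theorem reach_stop {U : Finset Fc} {B : Set Fc} {w : Finset Fc} {p : Pos} {z : Fc} {a : ℕ}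
    {x : ℂ} {s d : ℝ} (hS : St U (colB B)) (hp : IsTip U (colB B) p) (ha : Bx z a ⊆ U)
    (hx : ∀ f, ‖ctr f - x‖ ≤ s → f ∈ Bx z a) (hd : 2 * (a : ℝ) + 1 < d) (hw : w ⊆ U)
    (hR : Reach U B x s w) :
    ∃ i f, Ask U (mixc U w (colB B)) p i f ∧ z ∉ Rev (mixc U w (colB B)) p i ∧
      f ∈ unx U (mixc U w (colB B)) p i z ∧ dst (unx U (mixc U w (colB B)) p i z) z < d ∧
      (∀ i' < i, ∀ f', Ask U (mixc U w (colB B)) p i' f' →
        f' ∈ unx U (mixc U w (colB B)) p i' z →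
        ¬ dst (unx U (mixc U w (colB B)) p i' z) z < d) := by
  classical
  obtain ⟨t, ht1, ht2, ht3⟩ := reach_hit hS hp ha hx hw hR
  set ω := mixc U w (colB B) with hω
  have hzz : z ∈ Bx z a := by rw [mem_Bx]; omega
  have hex : ∃ i, (∃ f, Ask U ω p i f ∧ f ∈ unx U ω p i z) ∧ z ∉ Rev ω p i ∧
      dst (unx U ω p i z) z < d := by
    refine ⟨t, ⟨_, ht1, ?_⟩, ht3 z hzz, ?_⟩
    · refine mem_comp.2 ⟨mem_sd.2 ⟨ha ht2, ht3 _ ht2⟩, ?_⟩
      refine Pool.Agent.H74.Tri.Jn.mono (S := {h | h ∈ Bx z a}) ?_ (cn_Bx z a z hzz _ ht2).2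
      intro g hg
      exact Finset.mem_coe.2 (mem_sd.2 ⟨ha hg, ht3 g hg⟩)
    · have h1 : pl (orb ω p t) ∉ unx U ω p t z := fun h => (mem_unx h).2 ⟨t, le_rfl, Or.inl rfl⟩
      refine (dst_le_out h1).trans_lt ?_
      have h2 := norm_le_of_mem ht2
      have h3 := norm_adj (adj_hl (orb ω p t))
      have h4 : ‖ctr (pl (orb ω p t)) - ctr z‖ ≤
          ‖ctr (ph (orb ω p t)) - ctr z‖ + ‖ctr (ph (orb ω p t)) - ctr (pl (orb ω p t))‖ := by
        rw [show ctr (pl (orb ω p t)) - ctr z = (ctr (ph (orb ω p t)) - ctr z) -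
          (ctr (ph (orb ω p t)) - ctr (pl (orb ω p t))) by ring]
        exact norm_sub_le _ _
      linarith
  obtain ⟨⟨f, hf1, hf2⟩, hz, hdd⟩ := Nat.find_spec hex
  refine ⟨Nat.find hex, f, hf1, hz, hf2, hdd, ?_⟩
  intro i' hi' f' hA hf' hst
  exact Nat.find_min hex hi' ⟨⟨f', hA, hf'⟩,
    fun h => hz (Pool.Agent.H74.Tri.Rev.mono hi'.le h), hst⟩

theorem Pr_sum (E : Finset Fc) (A : Finset Fc → Prop) [DecidablePred A] :
    Pr E A = (∑ w ∈ E.powerset, if A w then (1 : ℝ) else 0) / 2 ^ E.card := by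
  rw [Pool.Agent.H75.Perc.Pr_eq, Finset.sum_ite, Finset.sum_const_zero, add_zero,
    Finset.sum_const, nsmul_eq_mul, mul_one]

theorem gv_le {U : Finset Fc} {col : Fc → Bool} {z : Fc} (hU : IsDom U) (hz : z ∈ U) :
    (dst U z) ^ ((1 / 4) : ℝ) * gv U col z ≤ 1 := by
  obtain ⟨_, _, _, h1, h2, _⟩ := Pool.Agent.H84.SM.ch U z hU hz
  have hd : 0 < dst U z := by linarith
  have hc : 0 < crad U z := by linarith
  unfold gv
  have hs0 := Pool.Agent.H21.SM.sn_nonneg U col z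
  have hs1 := Pool.Agent.H21.SM.sn_le_one U col z
  have h3 : sn U col z ^ ((1 / 3) : ℝ) ≤ 1 := Real.rpow_le_one hs0 hs1 (by norm_num)
  have h4 : 0 ≤ sn U col z ^ ((1 / 3) : ℝ) := Real.rpow_nonneg hs0 _
  have h5 : crad U z ^ (-(1 / 4) : ℝ) ≤ dst U z ^ (-(1 / 4) : ℝ) :=
    Real.rpow_le_rpow_of_nonpos hd h2 (by norm_num)
  have h6 : 0 < crad U z ^ (-(1 / 4) : ℝ) := Real.rpow_pos_of_pos hc _
  have h7 : 0 < dst U z ^ ((1 / 4) : ℝ) := Real.rpow_pos_of_pos hd _
  have h8 : dst U z ^ ((1 / 4) : ℝ) * dst U z ^ (-(1 / 4) : ℝ) = 1 := by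
    rw [← Real.rpow_add hd]; norm_num
  calc dst U z ^ ((1 / 4) : ℝ) * (crad U z ^ (-(1 / 4) : ℝ) * sn U col z ^ ((1 / 3) : ℝ))
      ≤ dst U z ^ ((1 / 4) : ℝ) * (dst U z ^ (-(1 / 4) : ℝ) * 1) := by
        apply mul_le_mul_of_nonneg_left _ h7.le
        exact mul_le_mul h5 h3 h4 (h6.le.trans h5)
    _ = 1 := by rw [mul_one, h8]

/-- **VB** -/
theorem vb (hOS : OS') : ∃ C0, VB C0 := by
  classical
  obtain ⟨C0, hOS⟩ := hOS
  refine ⟨4 * |C0| + 400, fun M hM => ?_⟩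
  have hM0 : 0 < M := by linarith
  have hMp : 0 < M ^ (-(1 / 4) : ℝ) := Real.rpow_pos_of_pos hM0 _
  have hC := abs_nonneg C0
  by_cases hbig : M < 400
  · refine ⟨0, fun U B x ρ _ _ _ => (Pr_le_one _ _).trans ?_⟩
    have h1 : M ^ (-1 : ℝ) ≤ M ^ (-(1 / 4) : ℝ) :=
      Real.rpow_le_rpow_of_exponent_le hM (by norm_num)
    rw [Real.rpow_neg_one] at h1
    have h2 : 1 ≤ 400 * M⁻¹ := by
      rw [← div_eq_mul_inv, le_div_iff₀ hM0]; linarith
    nlinarith
  · push Not at hbig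
    obtain ⟨K, hK0, hK⟩ := hOS (M / 4) (by linarith) 1 one_pos
    refine ⟨K + 5 * M + 20, fun U B x ρ hU hρ hball => ?_⟩
    obtain ⟨z, hz⟩ := exists_near x
    have hS : St U (colB B) := st_of_state hU
    set a : ℕ := ⌈5 / 4 * (ρ / M + 1)⌉₊ with ha
    have hρM : 0 < ρ / M := by
      apply div_pos _ hM0; linarith
    have ha1 : 5 / 4 * (ρ / M + 1) ≤ a := Nat.le_ceil _
    have ha2 : (a : ℝ) < 5 / 4 * (ρ / M + 1) + 1 := Nat.ceil_lt_add_one (by linarith)
    have hρM2 : ρ / M ≤ ρ / 400 := by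
      apply div_le_div_of_nonneg_left (by linarith) (by norm_num) hbig
    have hdist : ∀ f : Fc, ‖ctr f - x‖ ≤ ‖ctr f - ctr z‖ + 1 := by
      intro f
      rw [show ctr f - x = (ctr f - ctr z) + (ctr z - x) by ring]
      exact (norm_add_le _ _).trans (by linarith)
    have hboxU : Bx z a ⊆ U := by
      intro f hf
      apply hball
      have h1 := norm_le_of_mem hf
      have h2 := hdist f
      linarith
    have hzU : z ∈ U := hball z (by linarith)
    have hxbox : ∀ f, ‖ctr f - x‖ ≤ ρ / M → f ∈ Bx z a := by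
      intro f hf
      by_contra hn
      have h1 := le_norm_of_not_mem hn
      have h2 : ‖ctr f - ctr z‖ ≤ ‖ctr f - x‖ + ‖ctr z - x‖ := by
        rw [show ctr f - ctr z = (ctr f - x) - (ctr z - x) by ring]
        exact norm_sub_le _ _
      linarith
    set ρ' : ℝ := dst U z with hρ'
    have hρ1 : ρ - 2 ≤ ρ' := by
      have h1 : (ρ - 1) - 1 ≤ dst U z := le_dst_of fun f hf => hball f (by
        have := hdist f; linarith)
      linarith
    have hKρ : K ≤ ρ' := by linarith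
    have hst : 2 * (a : ℝ) + 1 < ρ' / (M / 4) := by
      rw [lt_div_iff₀ (by linarith)]
      have h1 : (2 * (a : ℝ) + 1) < 5 / 2 * (ρ / M) + 11 / 2 := by linarith
      have h2 : (2 * (a : ℝ) + 1) * (M / 4) < (5 / 2 * (ρ / M) + 11 / 2) * (M / 4) :=
        mul_lt_mul_of_pos_right h1 (by linarith)
      have h3 : (5 / 2 * (ρ / M) + 11 / 2) * (M / 4) = 5 / 8 * ρ + 11 / 8 * M := by
        field_simp
        ring
      linarith
    by_cases hch : ∃ v, chg U (colB B) v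
    · obtain ⟨v0, hv0⟩ := hch
      obtain ⟨p, hp⟩ := (Pool.Agent.H11.SM.tip_exit hv0).1
      have h1 := hK ρ' hKρ U (colB B) z hS hzU (by linarith) (by linarith)
      have h2 := Pool.Agent.H12.Inst.evc U (colB B) z p hS hzU hp
        (fun U' _ => dst U' z < ρ' / (M / 4))
        (fun U' _ => if dst U' z < ρ' / (M / 4) then 1 else 0)
        (fun U' _ => by split_ifs <;> norm_num) (fun U' c c' _ => ⟨Iff.rfl, rfl⟩)
        (fun w => if Reach U B x (ρ / M) w then 1 else 0) (fun w hw => by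
          by_cases hR : Reach U B x (ρ / M) w
          · right
            obtain ⟨i, f, h3, h4, h5, h6, h7⟩ := reach_stop hS hp hboxU hxbox hst hw hR
            refine ⟨i, f, h3, h4, h5, h6, h7, ?_⟩
            rw [if_pos hR, if_pos h6]
          · left
            rw [if_neg hR])
      rw [← Pr_sum] at h2
      have h3 : EV z (fun U' _ _ => dst U' z < ρ' / (M / 4))
          (fun U' _ _ => if dst U' z < ρ' / (M / 4) then 1 else 0) U.card U (colB B) [] ≤
          C0 * (M / 4) ^ (-(1 / 4) : ℝ) * (ρ' ^ ((1 / 4) : ℝ) * gv U (colB B) z + 1) := by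
        convert h1 using 4
      refine h2.trans (h3.trans ?_)
      have h4 := gv_le (col := colB B) hS.dom hzU
      rw [← hρ'] at h4
      have h5 : (M / 4) ^ (-(1 / 4) : ℝ) ≤ 2 * M ^ (-(1 / 4) : ℝ) := by
        rw [div_eq_mul_inv, Real.mul_rpow hM0.le (by norm_num), mul_comm]
        apply mul_le_mul_of_nonneg_right _ hMp.le
        rw [Real.inv_rpow (by norm_num), Real.rpow_neg (by norm_num), inv_inv]
        calc (4 : ℝ) ^ (1 / 4 : ℝ) ≤ 4 ^ (1 / 2 : ℝ) :=
              Real.rpow_le_rpow_of_exponent_le (by norm_num) (by norm_num)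
          _ = 2 := by
            rw [← Real.sqrt_eq_rpow, show (4 : ℝ) = 2 ^ 2 by norm_num, Real.sqrt_sq (by norm_num)]
      have h6 : 0 < (M / 4) ^ (-(1 / 4) : ℝ) := Real.rpow_pos_of_pos (by linarith) _
      have h7 : 0 ≤ ρ' ^ ((1 / 4) : ℝ) * gv U (colB B) z := by
        have hρ0 : 0 ≤ ρ' := by linarith
        unfold gv
        have h8 := Pool.Agent.H21.SM.sn_nonneg U (colB B) z
        obtain ⟨_, _, _, h9, h10, _⟩ := Pool.Agent.H84.SM.ch U z hS.dom hzU
        have h11 : 0 ≤ crad U z := by linarith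
        positivity
      calc C0 * (M / 4) ^ (-(1 / 4) : ℝ) * (ρ' ^ ((1 / 4) : ℝ) * gv U (colB B) z + 1)
          ≤ |C0| * (2 * M ^ (-(1 / 4) : ℝ)) * 2 := by
            apply mul_le_mul _ (by linarith) (by linarith) (by positivity)
            exact mul_le_mul (le_abs_self _) h5 h6.le hC
        _ ≤ _ := by nlinarith
    · push Not at hch
      obtain ⟨c, hc⟩ := mono_of hS.dom hch
      have h0 : Pr U (Reach U B x (ρ / M)) = 0 := by
        have : Pr U (Reach U B x (ρ / M)) = Pr U (fun _ => False) := by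
          apply Pr_congr
          intro w _
          constructor
          · rintro ⟨⟨f, g, _, hfg, h, ⟨hhU, hhB⟩, hgh⟩, ⟨f', g', _, hfg', h', ⟨hhU', hhB'⟩, hgh'⟩⟩
            have h1 := hc h hhU ⟨g, Finset.mem_coe.2 hfg.end_mem.1, adj_symm hgh⟩
            have h2 := hc h' hhU' ⟨g', Finset.mem_coe.2 hfg'.end_mem.1, adj_symm hgh'⟩
            rw [colB_true.2 hhB] at h1
            rw [colB_false.2 hhB', ← h1] at h2
            exact absurd h2 (by simp)
          · exact fun h => h.elim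
        rw [this]
        unfold Pr
        simp
      rw [h0]
      positivity

end Pool.Agent.H58.TA
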