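import Pool.Agent.H58.TA.RetP
import Pool.Agent.H58.TA.Vb2
import Pool.Agent.H52.Tri.D5
import Pool.Agent.H93.SM.Final

set_option autoImplicit false

/-! RET from OS'. -/

namespace Pool.Agent.H58.TA

theorem ret_os (h : Pool.Agent.H93.SM.OS') : Pool.Agent.H75.Lv.RET := by
  obtain ⟨C0, hV⟩ := vb h
  exact ret Pool.Agent.H52.Tri.d5 hV

/-- **RET**, final form -/
theorem ret_final : Pool.Agent.H75.Lv.RET := ret_os Pool.Agent.H93.SM.os'_final

end Pool.Agent.H58.TA
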