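import Pool.Agent.H58.TA.Ret

set_option autoImplicit false

/-! RET: probability. -/

namespace Pool.Agent.H58.TA

open Pool.Agent.H7.UC
open Pool.Agent.H75.Perc (Pr Pr_congr Pr_mono Pr_nonneg Pr_le_one Pr_indep Pr_or_le)
open Pool.Agent.H74.Tri (Pos pl pr ph pe pb Bi stp orb IsTip St Rev ExitAt IsExit Jn)
open Pool.Agent.H75.Lv (mixc Ins Ask)

theorem Two_mono {x : ℂ} {r S S' : ℝ} {E w : Finset Fc} (h : S' ≤ S) (h1 : Two x r S E w) :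
    Two x r S' E w := by
  obtain ⟨⟨f, g, h2, h3, h4, h5⟩, ⟨f', g', h2', h3', h4', h5'⟩⟩ := h1
  exact ⟨⟨f, g, h2, h3, h.trans h4, h5⟩, ⟨f', g', h2', h3', h.trans h4', h5'⟩⟩

/-- two arms, uniform in the ratio -/
theorem two_unif {C : ℝ} (hT : TwoArmOne C) (M : ℝ) (_ : 1 ≤ M) : ∃ K : ℝ, ∀ (E : Finset Fc)
    (x : ℂ) (r S : ℝ), K ≤ r → 0 < r → r ≤ S → S ≤ M * r →
    (∀ f : Fc, r - 2 ≤ ‖ctr f - x‖ → ‖ctr f - x‖ ≤ S + 2 → f ∈ E) →
    Pr E (Two x r S E) ≤ 2 * |C| * (r / S) ^ (1 / 4 : ℝ) := by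
  have h1 : ∀ j : ℕ, ∃ K : ℝ, ∀ (E : Finset Fc) (x : ℂ) (r : ℝ), K ≤ r →
      (∀ f : Fc, r - 2 ≤ ‖ctr f - x‖ → ‖ctr f - x‖ ≤ 2 ^ j * r + 2 → f ∈ E) →
      Pr E (Two x r (2 ^ j * r) E) ≤ C * (2 ^ j : ℝ) ^ (-(1 / 4) : ℝ) := fun j =>
    hT (2 ^ j) (one_le_pow₀ (by norm_num))
  choose K hK using h1
  obtain ⟨J, hJ⟩ := pow_unbounded_of_one_lt M (by norm_num : (1 : ℝ) < 2)
  refine ⟨∑ j ∈ Finset.range (J + 1), |K j|, fun E x r S hKr hr hrS hS hE => ?_⟩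
  obtain ⟨j, hj1, hj2⟩ := exists_nat_pow_near (x := S / r) (y := (2 : ℝ))
    (by rw [le_div_iff₀ hr]; linarith) (by norm_num)
  have hjJ : j ≤ J := by
    by_contra hlt
    push Not at hlt
    have h2 : (2 : ℝ) ^ J ≤ 2 ^ j := pow_le_pow_right₀ (by norm_num) hlt.le
    have h3 : S / r ≤ M := by rw [div_le_iff₀ hr]; exact hS
    linarith
  have hKj : K j ≤ r := by
    refine le_trans ?_ hKr
    exact (le_abs_self _).trans (Finset.single_le_sum (f := fun j => |K j|)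
      (fun i _ => abs_nonneg _) (Finset.mem_range.2 (by omega)))
  have hS2 : (2 : ℝ) ^ j * r ≤ S := by rwa [le_div_iff₀ hr] at hj1
  have h4 := hK j E x r hKj (fun f h5 h6 => hE f h5 (by linarith))
  have h5 : Pr E (Two x r S E) ≤ Pr E (Two x r (2 ^ j * r) E) :=
    Pr_mono fun w _ h => Two_mono hS2 h
  refine h5.trans (h4.trans ?_)
  have hSp : 0 < S := by linarith
  have h6 : (2 ^ j : ℝ) ^ (-(1 / 4) : ℝ) ≤ 2 * (r / S) ^ (1 / 4 : ℝ) := by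
    have h7 : ((2 : ℝ) ^ j)⁻¹ ≤ 2 * (r / S) := by
      rw [inv_le_comm₀ (by positivity) (by positivity)]
      have : (2 * (r / S))⁻¹ = S / r / 2 := by
        field_simp
      rw [this]
      rw [pow_succ] at hj2
      linarith
    rw [Real.rpow_neg (by positivity), ← Real.inv_rpow (by positivity)]
    have h8 := Real.rpow_le_rpow (by positivity) h7 (by norm_num : (0 : ℝ) ≤ 1 / 4)
    refine h8.trans ?_
    rw [Real.mul_rpow (by norm_num) (by positivity)]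
    apply mul_le_mul_of_nonneg_right _ (by positivity)
    calc (2 : ℝ) ^ (1 / 4 : ℝ) ≤ 2 ^ (1 : ℝ) :=
          Real.rpow_le_rpow_of_exponent_le (by norm_num) (by norm_num)
      _ = 2 := by norm_num
  calc C * (2 ^ j : ℝ) ^ (-(1 / 4) : ℝ) ≤ |C| * (2 ^ j : ℝ) ^ (-(1 / 4) : ℝ) :=
        mul_le_mul_of_nonneg_right (le_abs_self _) (by positivity)
    _ ≤ |C| * (2 * (r / S) ^ (1 / 4 : ℝ)) := mul_le_mul_of_nonneg_left h6 (abs_nonneg _)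
    _ = _ := by ring

/-- the hypotheses on a state -/
structure Hyp (U : Finset Fc) (col : Fc → Bool) (p : Pos) (v : Fc) (r1 ρ : ℕ) : Prop where
  st : St U col
  tip : IsTip U col p
  sub : Bx v r1 ⊆ U
  jn : Jn {a | a ∈ U ∧ a ∈ Bx v ρ} v (ph p)

theorem two_part {C : ℝ} (hT : TwoArmOne C) : ∃ C2 : ℝ, 0 < C2 ∧ ∀ M : ℝ, 1 ≤ M → ∃ K : ℕ,
    ∀ rf r1 : ℕ, K ≤ rf → rf ≤ r1 → (r1 : ℝ) ≤ M * rf → ∀ v : Fc, ∃ A : Finset Fc → Prop,
    Pr (Bx v r1) A ≤ C2 * ((rf : ℝ) / r1) ^ (1 / 4 : ℝ) ∧ ∀ U col p ρ R w, Hyp U col p v r1 ρ →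
    r1 ≤ R → RetE U col p v R rf (w ∩ (U ∩ Bx v R)) → A (w ∩ Bx v r1) := by
  refine ⟨4 * (2 * |C| + 1), by positivity, fun M hM => ?_⟩
  obtain ⟨K, hK⟩ := two_unif hT M hM
  refine ⟨⌈|K|⌉₊ + 40, fun rf r1 hrf hr hrM v => ?_⟩
  have hrf' : |K| + 40 ≤ (rf : ℝ) := by
    have h1 : ((⌈|K|⌉₊ + 40 : ℕ) : ℝ) ≤ rf := by exact_mod_cast hrf
    push_cast at h1
    have h2 := Nat.le_ceil |K|
    linarith
  have hr' : (rf : ℝ) ≤ r1 := by exact_mod_cast hr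
  have hK0 := abs_nonneg K
  have hrf0 : (0 : ℝ) < rf := by linarith
  have hr10 : (0 : ℝ) < r1 := by linarith
  have hx0 : (0 : ℝ) < (rf : ℝ) / r1 := by positivity
  have h4 : (4 : ℝ) ^ (1 / 4 : ℝ) ≤ 4 := by
    calc (4 : ℝ) ^ (1 / 4 : ℝ) ≤ 4 ^ (1 : ℝ) :=
          Real.rpow_le_rpow_of_exponent_le (by norm_num) (by norm_num)
      _ = 4 := by norm_num
  have hpow : (4 * ((rf : ℝ) / r1)) ^ (1 / 4 : ℝ) ≤ 4 * ((rf : ℝ) / r1) ^ (1 / 4 : ℝ) := by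
    rw [Real.mul_rpow (by norm_num) hx0.le]
    exact mul_le_mul_of_nonneg_right h4 (by positivity)
  by_cases hbig : r1 < 4 * rf
  · refine ⟨fun _ => True, ?_, fun _ _ _ _ _ _ _ _ _ => trivial⟩
    refine (Pr_le_one _ _).trans ?_
    have h1 : (1 : ℝ) ≤ 4 * ((rf : ℝ) / r1) := by
      rw [mul_div_assoc', le_div_iff₀ hr10]
      have : (r1 : ℝ) < 4 * rf := by exact_mod_cast hbig
      linarith
    have h2 : (1 : ℝ) ≤ (4 * ((rf : ℝ) / r1)) ^ (1 / 4 : ℝ) := Real.one_le_rpow h1 (by norm_num)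
    have h3 : 0 ≤ ((rf : ℝ) / r1) ^ (1 / 4 : ℝ) := by positivity
    have h5 := abs_nonneg C
    nlinarith
  · push Not at hbig
    have hbig' : 4 * (rf : ℝ) ≤ r1 := by exact_mod_cast hbig
    refine ⟨Two (ctr v) (2 * (rf : ℝ) + 3) (4 / 5 * (r1 : ℝ) - 2) (Bx v r1), ?_, ?_⟩
    · have h1 := hK (Bx v r1) (ctr v) (2 * (rf : ℝ) + 3) (4 / 5 * (r1 : ℝ) - 2)
        (by have := le_abs_self K; linarith) (by linarith) (by linarith) (by nlinarith) ?_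
      · refine h1.trans ?_
        have h2 : (2 * (rf : ℝ) + 3) / (4 / 5 * (r1 : ℝ) - 2) ≤ 4 * ((rf : ℝ) / r1) := by
          rw [mul_div_assoc', div_le_div_iff₀ (by linarith) hr10]
          nlinarith
        have h3 : ((2 * (rf : ℝ) + 3) / (4 / 5 * (r1 : ℝ) - 2)) ^ (1 / 4 : ℝ) ≤
            (4 * ((rf : ℝ) / r1)) ^ (1 / 4 : ℝ) :=
          Real.rpow_le_rpow (by apply div_nonneg <;> linarith) h2 (by norm_num)
        have h5 := abs_nonneg C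
        have h6 : 0 ≤ ((rf : ℝ) / r1) ^ (1 / 4 : ℝ) := by positivity
        calc 2 * |C| * ((2 * (rf : ℝ) + 3) / (4 / 5 * (r1 : ℝ) - 2)) ^ (1 / 4 : ℝ)
            ≤ 2 * |C| * (4 * ((rf : ℝ) / r1) ^ (1 / 4 : ℝ)) :=
              mul_le_mul_of_nonneg_left (h3.trans hpow) (by positivity)
          _ ≤ _ := by nlinarith
      · intro f _ h2
        by_contra hn
        have := le_norm_of_not_mem hn
        linarith
    · intro U col p ρ R w hH hR h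
      have h3 : rf + 3 ≤ r1 := by
        have : (rf : ℝ) + 3 ≤ r1 := by linarith
        exact_mod_cast this
      exact ret_two hH.tip hH.sub hR h3 h (le_refl _) (by linarith)

theorem one_part (h5 : D5) : ∃ C1 c : ℝ, 0 < C1 ∧ 0 < c ∧ ∀ (v : Fc) (ρ R r1 : ℕ), 10 ≤ ρ →
    r1 ≤ ρ → ρ ≤ R → ∃ A : Finset Fc → Prop,
    Pr (Bx v R \ Bx v r1) A ≤ C1 * ((ρ : ℝ) / R) ^ c ∧ ∀ U col p rf w, Hyp U col p v r1 ρ →
    rf ≤ r1 → RetE U col p v R rf (w ∩ (U ∩ Bx v R)) → A (w ∩ (Bx v R \ Bx v r1)) := by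
  obtain ⟨C5, a, ha, h5⟩ := h5
  refine ⟨2 * |C5| * 12 ^ a + 400 ^ a, a / 2, by positivity, by positivity, ?_⟩
  intro v ρ R r1 hρ hr1 hR
  have hρ' : (10 : ℝ) ≤ ρ := by exact_mod_cast hρ
  have hR' : (ρ : ℝ) ≤ R := by exact_mod_cast hR
  have hR0 : (0 : ℝ) < R := by linarith
  have hx0 : (0 : ℝ) < (ρ : ℝ) / R := by positivity
  have hx1 : (ρ : ℝ) / R ≤ 1 := by rw [div_le_one hR0]; exact hR'
  by_cases hbig : R < 400 * ρ
  · refine ⟨fun _ => True, ?_, fun _ _ _ _ _ _ _ _ => trivial⟩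
    refine (Pr_le_one _ _).trans ?_
    have h1 : (1 : ℝ) ≤ 400 * ((ρ : ℝ) / R) := by
      rw [mul_div_assoc', le_div_iff₀ hR0]
      have : (R : ℝ) < 400 * ρ := by exact_mod_cast hbig
      linarith
    have h2 : (1 : ℝ) ≤ (400 * ((ρ : ℝ) / R)) ^ (a / 2) := Real.one_le_rpow h1 (by positivity)
    rw [Real.mul_rpow (by norm_num) hx0.le] at h2
    have h3 : (400 : ℝ) ^ (a / 2) ≤ 400 ^ a :=
      Real.rpow_le_rpow_of_exponent_le (by norm_num) (by linarith)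
    have h4 : 0 < ((ρ : ℝ) / R) ^ (a / 2) := Real.rpow_pos_of_pos hx0 _
    have h6 : 0 ≤ 2 * |C5| * (12 : ℝ) ^ a := by positivity
    nlinarith
  · push Not at hbig
    have hbig' : 400 * (ρ : ℝ) ≤ R := by exact_mod_cast hbig
    set s : ℝ := Real.sqrt ((ρ : ℝ) * R) with hs
    have hs2 : s * s = (ρ : ℝ) * R := Real.mul_self_sqrt (by positivity)
    have hs0 : 0 < s := Real.sqrt_pos.2 (by positivity)
    have hsρ : 20 * (ρ : ℝ) ≤ s := by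
      by_contra hn
      push Not at hn
      nlinarith
    have hsR : 20 * s ≤ R := by
      by_contra hn
      push Not at hn
      nlinarith
    set m : ℕ := ⌈s⌉₊ with hm
    have hm1 : s ≤ m := Nat.le_ceil _
    have hm2 : (m : ℝ) < s + 1 := Nat.ceil_lt_add_one hs0.le
    have hq : Real.sqrt ((ρ : ℝ) / R) = ρ / s := by
      rw [Real.sqrt_eq_iff_mul_self_eq (by positivity) (by positivity)]
      field_simp
      nlinarith
    have hq2 : (ρ : ℝ) / s = s / R := by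
      rw [div_eq_div_iff hs0.ne' hR0.ne']
      linarith
    have hpow : (12 * ((ρ : ℝ) / s)) ^ a = 12 ^ a * ((ρ : ℝ) / R) ^ (a / 2) := by
      rw [Real.mul_rpow (by norm_num) (by positivity), ← hq, Real.sqrt_eq_rpow,
        ← Real.rpow_mul hx0.le]
      congr 2
      ring
    set E := Bx v R \ Bx v r1 with hE
    refine ⟨fun w => Arm (ctr v) (2 * (ρ : ℝ) + 1) (4 / 5 * ((m : ℝ) + 1) - 1) (E \ w) ∨
      Arm (ctr v) (2 * (m : ℝ) + 1) (4 / 5 * ((R : ℝ) + 1) - 1) w, ?_, ?_⟩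
    · refine (Pr_or_le _ _ _).trans ?_
      rw [Pr_flip E (Arm (ctr v) (2 * (ρ : ℝ) + 1) (4 / 5 * ((m : ℝ) + 1) - 1))]
      have h1 := h5 E (ctr v) (2 * (ρ : ℝ) + 1) (4 / 5 * ((m : ℝ) + 1) - 1) (by linarith)
        (by linarith)
      have h2 := h5 E (ctr v) (2 * (m : ℝ) + 1) (4 / 5 * ((R : ℝ) + 1) - 1) (by linarith)
        (by linarith)
      have h3 : (2 * (ρ : ℝ) + 1) / (4 / 5 * ((m : ℝ) + 1) - 1) ≤ 12 * ((ρ : ℝ) / s) := by
        rw [mul_div_assoc', div_le_div_iff₀ (by linarith) hs0]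
        nlinarith
      have h4 : (2 * (m : ℝ) + 1) / (4 / 5 * ((R : ℝ) + 1) - 1) ≤ 12 * ((ρ : ℝ) / s) := by
        rw [hq2, mul_div_assoc', div_le_div_iff₀ (by linarith) hR0]
        nlinarith
      have h6 := Real.rpow_le_rpow (div_nonneg (by linarith) (by linarith)) h3 ha.le
      have h7 := Real.rpow_le_rpow (div_nonneg (by linarith) (by linarith)) h4 ha.le
      rw [hpow] at h6 h7
      have h8 := le_abs_self C5
      have h9 := abs_nonneg C5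
      have h10 : 0 < ((ρ : ℝ) / R) ^ (a / 2) := Real.rpow_pos_of_pos hx0 _
      have h11 : 0 ≤ ((2 * (ρ : ℝ) + 1) / (4 / 5 * ((m : ℝ) + 1) - 1)) ^ a :=
        Real.rpow_nonneg (div_nonneg (by linarith) (by linarith)) _
      have h12 : 0 ≤ ((2 * (m : ℝ) + 1) / (4 / 5 * ((R : ℝ) + 1) - 1)) ^ a :=
        Real.rpow_nonneg (div_nonneg (by linarith) (by linarith)) _
      have h13 := mul_le_mul h8 h6 h11 h9
      have h14 := mul_le_mul h8 h7 h12 h9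
      have h15 : (0 : ℝ) < 400 ^ a := by positivity
      nlinarith
    · intro U col p rf w hH hrf h
      have hm' : ρ + 1 ≤ m := by
        have : (ρ : ℝ) + 1 ≤ m := by linarith
        exact_mod_cast this
      have hmR : m + 1 ≤ R := by
        have : (m : ℝ) + 1 ≤ R := by linarith
        exact_mod_cast this
      exact ret_lr hH.st hH.tip hH.sub hr1 hrf hm' hmR hH.jn h (le_refl _) (le_refl _)
        (le_refl _) (le_refl _) hE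

/-- return without the two arms (no input but D5) -/
theorem ret0 (h5 : D5) : ∃ C c : ℝ, 0 < C ∧ 0 < c ∧ ∀ (v : Fc) (rf ρ R : ℕ), 10 ≤ ρ → rf ≤ ρ →
    ρ ≤ R → ∀ (U : Finset Fc) (col : Fc → Bool) (p : Pos), Hyp U col p v rf ρ →
    Pr (U ∩ Bx v R) (RetE U col p v R rf) ≤ C * ((ρ : ℝ) / R) ^ c := by
  obtain ⟨C1, c, hC1, hc, h1⟩ := one_part h5
  refine ⟨C1, c, hC1, hc, fun v rf ρ R hρ hrf hR U col p hH => ?_⟩
  obtain ⟨A1, hA1, hB1⟩ := h1 v ρ R rf hρ hrf hR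
  have hs : U ∩ Bx v R ⊆ Bx v R := Finset.inter_subset_right
  rw [← Pool.Agent.H75.Perc.Pr_restrict hs (RetE U col p v R rf)]
  refine le_trans ?_ hA1
  rw [← Pool.Agent.H75.Perc.Pr_restrict Finset.sdiff_subset A1]
  exact Pr_mono fun w _ h => hB1 U col p rf w hH (le_refl _) h

/-- **RET**, with the hypothesis that `v` and the face ahead are joined in `U ∩ Bx v ρ`. -/
def RETc : Prop := ∃ C c : ℝ, 0 < C ∧ 0 < c ∧ ∀ M : ℝ, 1 ≤ M → ∃ K : ℤ, ∀ (v : Fc) (ρf ρ1 ρ R : ℤ),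
  K ≤ ρf → ρf ≤ ρ1 → (ρ1 : ℝ) ≤ M * ρf → ρ1 ≤ ρ → ρ ≤ R → ∀ (U : Finset Fc) (col : Fc → Bool)
  (p : Pos), St U col → IsTip U col p → ph p ∈ Pool.Agent.H75.Lv.Bx v ρ →
  Jn {a | a ∈ U ∧ a ∈ Pool.Agent.H75.Lv.Bx v ρ} v (ph p) → Pool.Agent.H75.Lv.Bx v ρ1 ⊆ U →
  Pr (U ∩ Pool.Agent.H75.Lv.Bx v R) (fun w => ∃ i i' f g, i < i' ∧
    Ask U (mixc (U ∩ Pool.Agent.H75.Lv.Bx v R) w col) p i f ∧ f ∉ Pool.Agent.H75.Lv.Bx v R ∧
    Ask U (mixc (U ∩ Pool.Agent.H75.Lv.Bx v R) w col) p i' g ∧ g ∈ Pool.Agent.H75.Lv.Bx v ρf) ≤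
  C * ((ρ : ℝ) / R) ^ c * ((ρf : ℝ) / ρ1) ^ ((1 / 4) : ℝ)

theorem ret (h5 : D5) {C0 : ℝ} (hVB : VB C0) : RETc := by
  obtain ⟨CT, hT⟩ := twoArmOne h5 hVB
  obtain ⟨C2, hC2, h2⟩ := two_part hT
  obtain ⟨C1, c, hC1, hc, h1⟩ := one_part h5
  refine ⟨C1 * C2, c, by positivity, hc, fun M hM => ?_⟩
  obtain ⟨K, hK⟩ := h2 M hM
  refine ⟨(K : ℤ) + 10, ?_⟩
  intro v rf r1 ρ R hKr hrr hrM hρ hR U col p hU hp _ hj hsub
  obtain ⟨rf, rfl⟩ := Int.eq_ofNat_of_zero_le (show 0 ≤ rf by omega)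
  obtain ⟨r1, rfl⟩ := Int.eq_ofNat_of_zero_le (show 0 ≤ r1 by omega)
  obtain ⟨ρ, rfl⟩ := Int.eq_ofNat_of_zero_le (show 0 ≤ ρ by omega)
  obtain ⟨R, rfl⟩ := Int.eq_ofNat_of_zero_le (show 0 ≤ R by omega)
  simp only [lbx_eq] at *
  push_cast at hrM ⊢
  have hr1 : rf ≤ r1 := by exact_mod_cast hrr
  have hρ' : r1 ≤ ρ := by exact_mod_cast hρ
  have hR' : ρ ≤ R := by exact_mod_cast hR
  have hH : Hyp U col p v r1 ρ := ⟨hU, hp, hsub, hj⟩
  obtain ⟨A2, hA2, hB2⟩ := hK rf r1 (by omega) hr1 hrM v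
  obtain ⟨A1, hA1, hB1⟩ := h1 v ρ R r1 (by omega) hρ' hR'
  have hs : U ∩ Bx v R ⊆ Bx v R := Finset.inter_subset_right
  have key : Pr (U ∩ Bx v R) (RetE U col p v R rf) ≤
      Pr (Bx v R \ Bx v r1) A1 * Pr (Bx v r1) A2 := by
    rw [← Pool.Agent.H75.Perc.Pr_restrict hs (RetE U col p v R rf),
      ← Pr_indep (E := Bx v R) Finset.sdiff_subset (Bx_sub (hρ'.trans hR'))
        Finset.sdiff_disjoint A1 A2]
    exact Pr_mono fun w _ h => ⟨hB1 U col p rf w hH hr1 h,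
      hB2 U col p ρ R w hH (hρ'.trans hR') h⟩
  refine key.trans ?_
  calc Pr (Bx v R \ Bx v r1) A1 * Pr (Bx v r1) A2
      ≤ (C1 * ((ρ : ℝ) / R) ^ c) * (C2 * ((rf : ℝ) / r1) ^ (1 / 4 : ℝ)) :=
        mul_le_mul hA1 hA2 (Pr_nonneg _ _) (by positivity)
    _ = _ := by ring

end Pool.Agent.H58.TA
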