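import Pool.Agent.H58.TA.Orb
import Pool.Agent.H74.Tri.Comp
import Pool.Agent.H99.NC.PrP

set_option autoImplicit false

/-! The stopping set of the interface and the state at the first visit of `J`. -/

namespace Pool.Agent.H58.TA

open Pool.Agent.H7.UC Pool.Agent.H63.UC
open Pool.Agent.H75.Perc (Pr Pr_congr Pr_mono Pr_nonneg)
open Pool.Agent.H74.Tri (Pos pl pr ph pe pb Bi stp orb orb_zero orb_succ stp_black stp_white stp_inj
  orb_inj pe_faces adj_lr adj_hl adj_hr orb_add comp mem_comp comp_sub mem_comp_self comp_adj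
  comp_jn isDom_comp Jn comp_conn)

variable {W J I ω ω' : Finset Fc} {p : Pos}

/-- landing vertex (as a position pointing inwards) -/
structure LandP (W I ω : Finset Fc) (p : Pos) : Prop where
  b : pb p ∉ W
  l : pl p ∈ Kc I (Blk W I ω)
  r : pr p ∈ Kc I (Wht W I ω)

/-- the interface from `p` meets `J` before the outside -/
def Hit (W J ω : Finset Fc) (p : Pos) : Prop :=
  Start W J ω p ∧ ∃ n, Go W J ω p n ∧ ph (orb (col ω) p n) ∈ J

theorem pos_finite (W : Finset Fc) : {q : Pos | pl q ∈ W}.Finite := by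
  have hf : (((↑W : Set Fc) ×ˢ (Set.univ : Set (Fin 3 × Bool)))).Finite :=
    (Finset.finite_toSet W).prod Set.finite_univ
  refine Set.Finite.of_injOn (f := fun q : Pos => (pl q, (q.2, q.1.2.2))) ?_ ?_ hf
  · intro q hq
    exact ⟨Finset.mem_coe.2 hq, trivial⟩
  · rintro ⟨⟨i, j, b⟩, k⟩ _ ⟨⟨i', j', b'⟩, k'⟩ _ h
    simp only [Prod.mk.injEq] at h
    obtain ⟨h1, h2, h3⟩ := h
    subst h2
    subst h3
    have h1' : fc (i, j, b) (k + 1) = fc (i', j', b) (k + 1) := h1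
    fin_cases k <;> cases b <;> simp [fc] at h1' <;> simp <;> omega

/-- a landing vertex for `I` starts an interface that meets `J` -/
theorem hit_of_land (hW : IsDom W) (hI : Cn I) (hIJ : I ⊆ J) (hIW : I ⊆ W)
    (hlJ : pl p ∉ J) (hrJ : pr p ∉ J) (h : LandP W I ω p) : Hit W J ω p := by
  have hs : Start W J ω p := ⟨⟨(Kc_mem h.l).1, hlJ, (Kc_mem h.l).2.2⟩,
    ⟨(Kc_mem h.r).1, hrJ, (Kc_mem h.r).2.2⟩, h.b⟩
  refine ⟨hs, ?_⟩
  by_contra hno
  have hgo : ∀ n, Go W J ω p n := by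
    intro n
    induction n with
    | zero => exact Go.zero
    | succ n ih =>
      exact ih.succ (no_ret hW hI hIJ hIW h.b hlJ hrJ h.l h.r ih) (fun hJ => hno ⟨n, ih, hJ⟩)
  have hinj : Function.Injective (fun n => orb (col ω) p n) := by
    have key : ∀ i d, orb (col ω) p i = orb (col ω) p (i + d) → d = 0 := by
      intro i d hd
      by_contra hd0
      rw [add_comm i d, orb_add] at hd
      have h1 := orb_inj hs.bi (hs.bi.orb d) hd
      exact orb_ne hs (hgo d) (by omega) h1.symm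
    intro i j hij
    rcases le_total i j with h1 | h1
    · obtain ⟨d, rfl⟩ := Nat.exists_eq_add_of_le h1
      have := key i d hij
      omega
    · obtain ⟨d, rfl⟩ := Nat.exists_eq_add_of_le h1
      have := key j d hij.symm
      omega
  have hfin : (Set.range (fun n => orb (col ω) p n)).Finite := by
    apply (pos_finite W).subset
    rintro q ⟨n, rfl⟩
    exact (go_faces hs (hgo n)).1.end_mem.1
  exact (Set.infinite_range_of_injective hinj) hfin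

/-- faces seen by the interface before it meets `J` or the outside -/
noncomputable def Fs (W J : Finset Fc) (p : Pos) (ω : Finset Fc) : Finset Fc := by
  classical exact insert (pl p) (insert (pr p)
    (W.filter (fun f => ∃ i, Go W J ω p (i + 1) ∧ f = ph (orb (col ω) p i))))

theorem mem_Fs {f : Fc} : f ∈ Fs W J p ω ↔ f = pl p ∨ f = pr p ∨
    (f ∈ W ∧ ∃ i, Go W J ω p (i + 1) ∧ f = ph (orb (col ω) p i)) := by
  classical
  unfold Fs
  rw [Finset.mem_insert, Finset.mem_insert, Finset.mem_filter]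

theorem mem_Fs_ph {i : ℕ} (h : Go W J ω p (i + 1)) : ph (orb (col ω) p i) ∈ Fs W J p ω :=
  mem_Fs.2 (Or.inr (Or.inr ⟨(h i (Nat.lt_succ_self i)).1, i, h, rfl⟩))

theorem agree (h : ∀ f ∈ Fs W J p ω, (f ∈ ω ↔ f ∈ ω')) (n : ℕ) :
    (Go W J ω p n ↔ Go W J ω' p n) ∧ (Go W J ω p n → orb (col ω) p n = orb (col ω') p n) := by
  induction n with
  | zero => exact ⟨⟨fun _ => Go.zero, fun _ => Go.zero⟩, fun _ => rfl⟩
  | succ n ih =>
    have hgo : Go W J ω p (n + 1) ↔ Go W J ω' p (n + 1) := by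
      constructor
      · intro h1
        have h2 := h1.mono (Nat.le_succ n)
        have h3 := h1 n (Nat.lt_succ_self n)
        rw [ih.2 h2] at h3
        exact (ih.1.1 h2).succ h3.1 h3.2
      · intro h1
        have h2 := ih.1.2 (h1.mono (Nat.le_succ n))
        have h3 := h1 n (Nat.lt_succ_self n)
        rw [← ih.2 h2] at h3
        exact h2.succ h3.1 h3.2
    refine ⟨hgo, fun h1 => ?_⟩
    have h2 := h1.mono (Nat.le_succ n)
    rw [orb_succ, orb_succ, ← ih.2 h2]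
    have h3 := h _ (mem_Fs_ph h1)
    unfold stp
    have h4 : (col ω (ph (orb (col ω) p n)) = true) ↔ (col ω' (ph (orb (col ω) p n)) = true) := by
      rw [col_true, col_true]; exact h3
    by_cases h5 : col ω (ph (orb (col ω) p n)) = true
    · rw [if_pos h5, if_pos (h4.1 h5)]
    · rw [if_neg h5, if_neg (fun h6 => h5 (h4.2 h6))]

theorem Fs_eq (h : ∀ f ∈ Fs W J p ω, (f ∈ ω ↔ f ∈ ω')) : Fs W J p ω' = Fs W J p ω := by
  ext f
  rw [mem_Fs, mem_Fs]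
  have key : (∃ i, Go W J ω' p (i + 1) ∧ f = ph (orb (col ω') p i)) ↔
      (∃ i, Go W J ω p (i + 1) ∧ f = ph (orb (col ω) p i)) := by
    constructor
    · rintro ⟨i, h1, h2⟩
      have h3 := (agree h (i + 1)).1.2 h1
      refine ⟨i, h3, ?_⟩
      rw [(agree h i).2 (h3.mono (Nat.le_succ i))]
      exact h2
    · rintro ⟨i, h1, h2⟩
      refine ⟨i, (agree h (i + 1)).1.1 h1, ?_⟩
      rw [← (agree h i).2 (h1.mono (Nat.le_succ i))]
      exact h2
  rw [key]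

theorem hit_agree (h : ∀ f ∈ Fs W J p ω, (f ∈ ω ↔ f ∈ ω')) (hh : Hit W J ω' p) : Hit W J ω p := by
  obtain ⟨hs, n, h1, h2⟩ := hh
  have hl := h (pl p) (mem_Fs.2 (Or.inl rfl))
  have hr := h (pr p) (mem_Fs.2 (Or.inr (Or.inl rfl)))
  refine ⟨⟨⟨hs.l.1, hs.l.2.1, hl.2 hs.l.2.2⟩, ⟨hs.r.1, hs.r.2.1, fun h3 => hs.r.2.2 (hr.1 h3)⟩,
    hs.b⟩, n, (agree h n).1.2 h1, ?_⟩
  rw [(agree h n).2 ((agree h n).1.2 h1)]
  exact h2

/-- the interface meets `J`: landing vertex for `J` -/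
theorem land_of_hit (hh : Hit W J ω p) : LandP W J ω p := by
  obtain ⟨hs, n, h1, h2⟩ := hh
  obtain ⟨h3, h4⟩ := go_faces hs h1
  refine ⟨hs.b, ⟨pl (orb (col ω) p n), ⟨_, Finset.mem_coe.2 h2, ?_⟩, h3.symm⟩,
    ⟨pr (orb (col ω) p n), ⟨_, Finset.mem_coe.2 h2, ?_⟩, h4.symm⟩⟩
  · exact adj_symm (adj_hl _)
  · exact adj_symm (adj_hr _)

/-! ### the state at the first visit of `J` -/

theorem Fs_paths (hs : Start W J ω p) {n : ℕ} (hn : Go W J ω p n) :
    Pth (fun h => h ∈ Fs W J p ω ∧ h ∈ ω) (pl p) (pl (orb (col ω) p n)) ∧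
    Pth (fun h => h ∈ Fs W J p ω ∧ h ∉ ω) (pr p) (pr (orb (col ω) p n)) := by
  induction n with
  | zero => exact ⟨Pth.refl ⟨mem_Fs.2 (Or.inl rfl), hs.l.2.2⟩,
      Pth.refl ⟨mem_Fs.2 (Or.inr (Or.inl rfl)), hs.r.2.2⟩⟩
  | succ n ih =>
    obtain ⟨h1, h2⟩ := ih (hn.mono (Nat.le_succ n))
    have h3 := mem_Fs_ph hn
    rw [orb_succ]
    set q := orb (col ω) p n with hq
    cases hc : col ω (ph q)
    · obtain ⟨h5, h6⟩ := stp_white hc
      rw [h5, h6]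
      exact ⟨h1, h2.step ⟨h3, col_false.1 hc⟩ (adj_symm (adj_hr q))⟩
    · obtain ⟨h5, h6⟩ := stp_black hc
      rw [h5, h6]
      exact ⟨h1.step ⟨h3, col_true.1 hc⟩ (adj_symm (adj_hl q)), h2⟩

theorem Fs_black (hs : Start W J ω p) {f : Fc} (hf : f ∈ Fs W J p ω) (hfω : f ∈ ω) :
    Pth (fun h => h ∈ Fs W J p ω ∧ h ∈ ω) (pl p) f := by
  rcases mem_Fs.1 hf with h | h | ⟨_, i, h, h1⟩
  · rw [h]; exact Pth.refl ⟨mem_Fs.2 (Or.inl rfl), hs.l.2.2⟩
  · exact absurd (h ▸ hfω) hs.r.2.2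
  · have h2 := (Fs_paths hs h).1
    rw [orb_succ, (stp_black (col_true.2 (h1 ▸ hfω))).1, ← h1] at h2
    exact h2

theorem Fs_white (hs : Start W J ω p) {f : Fc} (hf : f ∈ Fs W J p ω) (hfω : f ∉ ω) :
    Pth (fun h => h ∈ Fs W J p ω ∧ h ∉ ω) (pr p) f := by
  rcases mem_Fs.1 hf with h | h | ⟨_, i, h, h1⟩
  · exact absurd hs.l.2.2 (h ▸ hfω)
  · rw [h]; exact Pth.refl ⟨mem_Fs.2 (Or.inr (Or.inl rfl)), hs.r.2.2⟩
  · have h2 := (Fs_paths hs h).2
    rw [orb_succ, (stp_white (col_false.2 (h1 ▸ hfω))).2, ← h1] at h2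
    exact h2

theorem Fs_sub (hs : Start W J ω p) {f : Fc} (hf : f ∈ Fs W J p ω) : f ∈ W ∧ f ∉ J := by
  rcases mem_Fs.1 hf with h | h | ⟨_, i, h, h1⟩
  · rw [h]; exact ⟨hs.l.1, hs.l.2.1⟩
  · rw [h]; exact ⟨hs.r.1, hs.r.2.1⟩
  · rw [h1]; exact h i (Nat.lt_succ_self i)

theorem adj_pb (p : Pos) : adjF (pl p) (pb p) ∧ adjF (pr p) (pb p) := by
  obtain ⟨v, k⟩ := p
  have h1 : pl (v, k) = fc (nb v k) (k + 2) := by
    show fc v (k + 1) = _
    rw [fc_nb2]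
  have h2 : pr (v, k) = fc (nb v k) (k + 1) := by
    show fc v (k + 2) = _
    rw [fc_nb1]
  have h3 : pb (v, k) = fc (nb v k) k := rfl
  rw [h1, h2, h3]
  exact ⟨adj_fc _ (f2ne k), adj_fc _ (f1ne k)⟩

theorem Pth.jn {P : Fc → Prop} {f g : Fc} (h : Pth P f g) : Jn {a | P a} f g := h.2

theorem Pth.of_jn {P : Fc → Prop} {f g : Fc} (hf : P f) (h : Jn {a | P a} f g) : Pth P f g :=
  ⟨hf, h⟩

/-- the unexplored domain -/
noncomputable def Us (W J : Finset Fc) (p : Pos) (z : Fc) (ω : Finset Fc) : Finset Fc :=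
  comp (W \ Fs W J p ω) z

theorem J_sub_Us (hs : Start W J ω p) (hJW : J ⊆ W) (hJ : Cn J) {z : Fc} (hz : z ∈ J) :
    J ⊆ Us W J p z ω := by
  intro f hf
  have h1 := (hJ z hz f hf).2
  have h2 : (↑J : Set Fc) ⊆ ↑(W \ Fs W J p ω) := by
    intro g hg
    rw [Finset.mem_coe] at hg
    exact Finset.mem_coe.2 (Finset.mem_sdiff.2 ⟨hJW hg, fun h => (Fs_sub hs h).2 hg⟩)
  exact mem_comp.2 ⟨Finset.mem_coe.1 (h2 (Finset.mem_coe.2 hf)), Jn.mono h2 h1⟩

theorem state_of (hW : IsDom W) (hs : Start W J ω p) (hJW : J ⊆ W) {z : Fc} (hz : z ∈ J) :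
    State (Us W J p z ω) {f | f ∈ Fs W J p ω ∧ f ∈ ω} := by
  have hsub : ∀ f ∈ Us W J p z ω, f ∈ W ∧ f ∉ Fs W J p ω := fun f hf =>
    Finset.mem_sdiff.1 (comp_sub _ _ hf)
  refine ⟨?_, ?_, ?_⟩
  · apply isDom_comp hW
    · intro f hf
      by_cases hfω : f ∈ ω
      · refine ⟨pl p, ?_, pb p, hs.b, (adj_pb p).1⟩
        exact Jn.mono (fun a ha => Finset.mem_coe.2 ha.1) (Fs_black hs hf hfω).symm.jn
      · refine ⟨pr p, ?_, pb p, hs.b, (adj_pb p).2⟩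
        exact Jn.mono (fun a ha => Finset.mem_coe.2 ha.1) (Fs_white hs hf hfω).symm.jn
    · exact hJW hz
    · exact fun h => (Fs_sub hs h).2 hz
  · intro f g _ _ hf hg _ _
    have h1 := (Fs_black hs hf.1 hf.2).symm.trans (Fs_black hs hg.1 hg.2)
    exact h1.mono fun h hh => ⟨fun hU => (hsub h hU).2 hh.1, hh⟩
  · -- white faces are joined to the face behind the start
    have key : ∀ f, f ∉ Us W J p z ω → f ∉ {f | f ∈ Fs W J p ω ∧ f ∈ ω} →
        Nx ↑(Us W J p z ω) f →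
        Pth (fun h => h ∉ Us W J p z ω ∧ h ∉ {f | f ∈ Fs W J p ω ∧ f ∈ ω}) f (pb p) := by
      intro f hf hfB hfn
      have hbb : pb p ∉ Us W J p z ω ∧ pb p ∉ {f | f ∈ Fs W J p ω ∧ f ∈ ω} :=
        ⟨fun h => hs.b (hsub _ h).1, fun h => hs.b (Fs_sub hs h.1).1⟩
      by_cases hfW : f ∈ W
      · have hfF : f ∈ Fs W J p ω := by
          by_contra hn
          obtain ⟨g, hg, ha⟩ := hfn
          rw [Finset.mem_coe] at hg
          exact hf (comp_adj hg (Finset.mem_sdiff.2 ⟨hfW, hn⟩) (adj_symm ha))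
        have hfω : f ∉ ω := fun h => hfB ⟨hfF, h⟩
        have h1 := (Fs_white hs hfF hfω).symm
        have h2 : Pth (fun h => h ∉ Us W J p z ω ∧ h ∉ {f | f ∈ Fs W J p ω ∧ f ∈ ω}) f (pr p) :=
          h1.mono fun h hh => ⟨fun hU => (hsub h hU).2 hh.1, fun hB => hh.2 hB.2⟩
        exact h2.step hbb (adj_pb p).2
      · have h1 := hW.cconn f hfW (pb p) hs.b
        have h2 : Pth (fun h => h ∉ W) f (pb p) := ⟨hfW, h1⟩
        exact h2.mono fun h hh => ⟨fun hU => hh (hsub h hU).1, fun hB => hh (Fs_sub hs hB.1).1⟩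
    intro f g hf hg hfB hgB hfn hgn
    exact (key f hf hfB hfn).trans (key g hg hgB hgn).symm

/-- a landing vertex for `I` of a configuration which agrees with `ω` on the stopping set gives the
event `Reach` in the state. -/
theorem reach_of (hs : Start W J ω p) (hJW : J ⊆ W) (hJ : Cn J) {z : Fc} (hz : z ∈ J)
    {x : ℂ} {s : ℝ} (hIJ : ∀ f, Nx ↑I f → f ∈ J ∧ ‖ctr f - x‖ ≤ s)
    (hag : ∀ f ∈ Fs W J p ω, (f ∈ ω ↔ f ∈ ω')) (h : LandP W I ω' p) :
    Reach (Us W J p z ω) {f | f ∈ Fs W J p ω ∧ f ∈ ω} x s (ω' ∩ Us W J p z ω) := by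
  have hsub : ∀ f ∈ Us W J p z ω, f ∈ W ∧ f ∉ Fs W J p ω := fun f hf =>
    Finset.mem_sdiff.1 (comp_sub _ _ hf)
  have hJU := J_sub_Us hs hJW hJ hz
  have hplU : pl p ∉ Us W J p z ω := fun hU => (hsub _ hU).2 (mem_Fs.2 (Or.inl rfl))
  have hprU : pr p ∉ Us W J p z ω := fun hU => (hsub _ hU).2 (mem_Fs.2 (Or.inr (Or.inl rfl)))
  have hfront : ∀ a b, a ∈ Us W J p z ω → b ∉ Us W J p z ω → b ∈ W → adjF a b →
      b ∈ Fs W J p ω := by
    intro a b ha hb hbW hab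
    by_contra hn
    exact hb (comp_adj ha (Finset.mem_sdiff.2 ⟨hbW, hn⟩) hab)
  refine ⟨?_, ?_⟩
  · obtain ⟨g, hg, hp⟩ := h.l
    obtain ⟨hgJ, hgx⟩ := hIJ g hg
    obtain ⟨a, b, h1, h2, h3, h4, _⟩ := hp.exit (Q := fun f => f ∈ Us W J p z ω) (hJU hgJ) hplU
    have hbF := hfront a b h1.end_mem.2 h4 h3.1 h2
    refine ⟨g, a, hgx, h1.mono fun c hc => ⟨hc.2, Finset.mem_inter.2 ⟨hc.1.2.2, hc.2⟩⟩, b, ?_, h2⟩
    exact ⟨h4, hbF, (hag b hbF).2 h3.2.2⟩
  · obtain ⟨g, hg, hp⟩ := h.r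
    obtain ⟨hgJ, hgx⟩ := hIJ g hg
    obtain ⟨a, b, h1, h2, h3, h4, _⟩ := hp.exit (Q := fun f => f ∈ Us W J p z ω) (hJU hgJ) hprU
    have hbF := hfront a b h1.end_mem.2 h4 h3.1 h2
    refine ⟨g, a, hgx, h1.mono fun c hc => ⟨hc.2, fun hc' => hc.1.2.2 (Finset.mem_inter.1 hc').1⟩,
      b, ?_, h2⟩
    exact ⟨h4, fun hB => h3.2.2 ((hag b hbF).1 hB.2)⟩

end Pool.Agent.H58.TA
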