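import Pool.Agent.H58.TA.Land
import Pool.Agent.H63.UC.MD1c

set_option autoImplicit false

/-! Boundary chains; one black component has at most two landing vertices. -/

namespace Pool.Agent.H58.TA

open Pool.Agent.H7.UC Pool.Agent.H63.UC
open Pool.Agent.H98.UC (conn_symm conn_trans conn_step exists_chain)

variable {W : Finset Fc}

/-- two boundary vertices are joined by a boundary chain -/
theorem exists_bdry (hW : IsDom W) {v w : Vx} (hv : ∃ k, isB W (ed v k))
    (hw : ∃ k, isB W (ed w k)) : ∃ C : Ed → ZMod 2, (∀ e, C e ≠ 0 → isB W e) ∧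
      ∀ u, dv C u = ind {v} u + ind {w} u := by
  set x : Ed → ZMod 2 := bd (↑W : Set Fc) with hx
  have hxB : ∀ e, x e ≠ 0 → isB W e := by
    intro e he
    by_contra hn
    apply he
    rw [hx]
    unfold bd
    unfold isB at hn
    by_cases h1 : lf e ∈ W
    · by_cases h2 : rf e ∈ W
      · rw [ind_of_mem (Finset.mem_coe.2 h1), ind_of_mem (Finset.mem_coe.2 h2), z2]
      · exact absurd (Or.inl ⟨h1, h2⟩) hn
    · by_cases h2 : rf e ∈ W
      · exact absurd (Or.inr ⟨h1, h2⟩) hn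
      · rw [ind_of_not_mem (by simpa using h1), ind_of_not_mem (by simpa using h2), z2]
  have hcon : Conn x v w := by
    let c : Ed → ZMod 2 := outC x {v}
    have hc1 : ∀ e, c e ≠ 0 → isB W e := by
      intro e he
      apply hxB
      intro h0
      apply he
      show x e * _ = 0
      rw [h0, zero_mul]
    have hc2 : ∀ u, dv c u = 0 := by
      intro u
      show dv (outC x {v}) u = 0
      rw [dv_outC, hx, dv_bd, zero_mul]
    have hmem : ∀ u k, c (ed u k) = 1 → Conn x v u := by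
      intro u k h
      have h1 : outC x {v} (ed u k) = 1 := h
      rw [outC_ed] at h1
      by_contra hn
      have h2 : u ∉ {u | ∃ o ∈ ({v} : Set Vx), Conn x o u} := by
        rintro ⟨o, ho, hc⟩
        rw [Set.mem_singleton_iff] at ho
        subst ho
        exact hn hc
      rw [ind_of_not_mem h2, mul_zero] at h1
      exact absurd h1 (by decide)
    rcases d1b W hW c hc1 hc2 with h | h
    · exfalso
      obtain ⟨k, hk⟩ := hv
      have h1 := h (ed v k)
      have h2 : outC x {v} (ed v k) = 0 := h1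
      have hxk : x (ed v k) = 1 := by rw [hx]; exact bd_self_isB hk
      rw [outC_ed, hxk] at h2
      have h3 : v ∈ {u | ∃ o ∈ ({v} : Set Vx), Conn x o u} :=
        ⟨v, rfl, Relation.ReflTransGen.refl⟩
      rw [ind_of_mem h3] at h2
      exact absurd h2 (by decide)
    · obtain ⟨k, hk⟩ := hw
      exact hmem w k (h _ hk)
  obtain ⟨P, h1, h2, _⟩ := exists_chain hcon
  exact ⟨P, fun e he => hxB e (by rw [h1 e he]; decide), h2⟩

theorem lk_of_cn {K : Finset Fc} (hK : Cn K) {v w : Vx} (hv : inV K v) (hw : inV K w) :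
    Lk K v w := by
  obtain ⟨k, hk⟩ := hv
  obtain ⟨l, hl⟩ := hw
  have h1 := lk_up v k hk
  have h2 := lk_up w l hl
  have h3 : ∀ f g, Pth (fun h => h ∈ K) f g → Lk K (up f) (up g) := by
    rintro f g ⟨hf, hp⟩
    induction hp with
    | refl => exact Lk.refl K _
    | tail h4 h5 ih =>
      exact ih.trans (lk_adj (Pth.end_mem (P := fun h => h ∈ K) ⟨hf, h4⟩) h5.1 h5.2)
  exact (h1.trans (h3 _ _ (hK _ hk _ hl))).trans h2.symm

/-- the value of `C` on the outer edges of a connected set `L` disjoint from `K` is constant, if the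
end points of `C` belong to `K` -/
theorem const_on (hW : IsDom W) {C : Ed → ZMod 2} (hC : ∀ e, C e ≠ 0 → isB W e) {K L : Finset Fc}
    (hK : K ⊆ W) (hL : L ⊆ W) (hLc : Cn L) (hd : Disjoint K L) {v w : Vx}
    (hdC : ∀ u, dv C u = ind {v} u + ind {w} u) (hlk : Lk K v w) : ∃ t : ZMod 2,
      ∀ u k, fc u (k + 1) ∈ L ∧ fc u (k + 2) ∉ W ∨ fc u (k + 1) ∉ W ∧ fc u (k + 2) ∈ L →
        C (ed u k) = t := by
  obtain ⟨P, hP1, hP2⟩ := hlk
  have hPW : ∀ e, P e ≠ 0 → inE W e := fun e he => (hP1 e he).imp (fun h => hK h) (fun h => hK h)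
  obtain ⟨s, hsW, hs⟩ := d2_struct W hW C P hC hPW (fun u => by rw [hdC, hP2])
  rcases L.eq_empty_or_nonempty with hLe | ⟨f0, hf0⟩
  · refine ⟨0, fun u k h => ?_⟩
    subst hLe
    rcases h with h | h
    · exact absurd h.1 (Finset.notMem_empty _)
    · exact absurd h.2 (Finset.notMem_empty _)
  refine ⟨ind (↑s : Set Fc) f0, fun u k h => ?_⟩
  have hdj : ∀ f, f ∈ L → f ∉ K := fun f h1 h2 => (Finset.disjoint_left.1 hd) h2 h1
  have hP0 : ∀ e, lf e ∉ K → rf e ∉ K → P e = 0 := by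
    intro e h1 h2
    by_contra hn
    rcases hP1 e hn with h3 | h3
    · exact h1 h3
    · exact h2 h3
  have hconst : ∀ f ∈ L, ind (↑s : Set Fc) f = ind (↑s : Set Fc) f0 := by
    intro f hf
    refine ind_path hs (P := fun f => f ∈ L) (fun e h3 h4 => ?_) (hLc f hf f0 hf0)
    show C e + P e = 0
    rw [hP0 e (hdj _ h3) (hdj _ h4), add_zero]
    by_contra hn
    exact ((isB_iff W e).1 (hC e hn)).2 ⟨hL h3, hL h4⟩
  have hout : ∀ g ∉ W, ind (↑s : Set Fc) g = 0 := fun g hg =>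
    ind_of_not_mem fun h => hg (hsW (Finset.mem_coe.1 h))
  have h1 := hs (ed u k)
  rw [bd_ed] at h1
  rcases h with ⟨h2, h3⟩ | ⟨h2, h3⟩
  · have hp : P (ed u k) = 0 := by
      rcases faces_ed u k with ⟨_, h4, h5⟩ | ⟨_, h4, h5⟩
      · exact hP0 _ (by rw [h4]; exact hdj _ h2) (by rw [h5]; exact fun h => h3 (hK h))
      · exact hP0 _ (by rw [h4]; exact fun h => h3 (hK h)) (by rw [h5]; exact hdj _ h2)
    rw [hp, add_zero, hout _ h3, add_zero, hconst _ h2] at h1
    exact h1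
  · have hp : P (ed u k) = 0 := by
      rcases faces_ed u k with ⟨_, h4, h5⟩ | ⟨_, h4, h5⟩
      · exact hP0 _ (by rw [h4]; exact fun h => h2 (hK h)) (by rw [h5]; exact hdj _ h3)
      · exact hP0 _ (by rw [h4]; exact hdj _ h3) (by rw [h5]; exact fun h => h2 (hK h))
    rw [hp, add_zero, hout _ h2, zero_add, hconst _ h3] at h1
    exact h1

/-- two disjoint connected sets of faces of `W` have at most two common landing vertices -/
theorem three_land (hW : IsDom W) {K L : Finset Fc} (hK : K ⊆ W) (hL : L ⊆ W) (hKc : Cn K)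
    (hLc : Cn L) (hd : Disjoint K L) (v : Fin 3 → Vx) (k : Fin 3 → Fin 3)
    (hv : Function.Injective v) (h0 : ∀ i, fc (v i) (k i) ∉ W)
    (h1 : ∀ i, fc (v i) (k i + 2) ∈ K) (h2 : ∀ i, fc (v i) (k i + 1) ∈ L) : False := by
  have hB : ∀ i, ∃ l, isB W (ed (v i) l) := by
    intro i
    refine ⟨k i + 1, (isB_ed W _ _).2 (Or.inl ⟨?_, ?_⟩)⟩
    · rw [f11]; exact hK (h1 i)
    · rw [f12]; exact h0 i
  obtain ⟨C, hC, hdC⟩ := exists_bdry hW (hB 0) (hB 1)
  obtain ⟨t, ht⟩ := const_on hW hC hK hL hLc hd hdC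
    (lk_of_cn hKc ⟨k 0 + 2, h1 0⟩ ⟨k 1 + 2, h1 1⟩)
  obtain ⟨t', ht'⟩ := const_on hW hC hL hK hKc hd.symm hdC
    (lk_of_cn hLc ⟨k 0 + 1, h2 0⟩ ⟨k 1 + 1, h2 1⟩)
  have e1 : ∀ i, C (ed (v i) (k i + 2)) = t := by
    intro i
    apply ht
    right
    rw [f21, f22]
    exact ⟨h0 i, h2 i⟩
  have e2 : ∀ i, C (ed (v i) (k i + 1)) = t' := by
    intro i
    apply ht'
    left
    rw [f11, f12]
    exact ⟨h1 i, h0 i⟩
  have e3 : ∀ i, C (ed (v i) (k i)) = 0 := by
    intro i
    by_contra hn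
    exact ((isB_iff W _).1 (hC _ hn)).2 ((inI_ed W _ _).2 ⟨hL (h2 i), hK (h1 i)⟩)
  have e4 : ∀ i, dv C (v i) = t' + t := by
    intro i
    rw [dv_eq C (v i) (k i), e1, e2, e3, zero_add]
  have e5 := e4 0
  have e6 := e4 2
  rw [hdC] at e5 e6
  have n01 : v 0 ≠ v 1 := fun h => absurd (hv h) (by decide)
  have n02 : v 2 ≠ v 0 := fun h => absurd (hv h) (by decide)
  have n12 : v 2 ≠ v 1 := fun h => absurd (hv h) (by decide)
  rw [ind_singleton_self, ind_singleton_ne n01] at e5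
  rw [ind_singleton_ne n02, ind_singleton_ne n12] at e6
  rw [← e5] at e6
  exact absurd e6 (by decide)

end Pool.Agent.H58.TA
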