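import Pool.Agent.H58.TA.Three
import Pool.Agent.H58.TA.Box
import Pool.Agent.H74.Tri.Peel

set_option autoImplicit false

/-! A state of the module TA (joined touching faces) is a state in the sense of `St`. -/

namespace Pool.Agent.H58.TA

open Pool.Agent.H7.UC Pool.Agent.H63.UC
open Pool.Agent.H74.Tri (chg cd cd_dv cd_supp cd_ed St tch Jn)

theorem Cn.insert {K : Finset Fc} (hK : Cn K) {f g : Fc} (hf : f ∈ K) (h : adjF f g) :
    Cn (insert g K) := by
  have hm : ∀ a ∈ K, ∀ b ∈ K, Pth (fun h => h ∈ Insert.insert g K) a b := fun a ha b hb =>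
    (hK a ha b hb).mono fun c hc => Finset.mem_insert_of_mem hc
  have hg : ∀ a ∈ K, Pth (fun h => h ∈ Insert.insert g K) a g := fun a ha =>
    (hm a ha f hf).step (Finset.mem_insert_self _ _) h
  intro a ha b hb
  rcases Finset.mem_insert.1 ha with ha | ha
  · rcases Finset.mem_insert.1 hb with hb | hb
    · rw [ha, hb]; exact Pth.refl (Finset.mem_insert_self _ _)
    · rw [ha]; exact (hg b hb).symm
  · rcases Finset.mem_insert.1 hb with hb | hb
    · rw [hb]; exact hg a ha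
    · exact hm a ha b hb

theorem Cn.union {K L : Finset Fc} (hK : Cn K) (hL : Cn L) {f : Fc} (hfK : f ∈ K) (hfL : f ∈ L) :
    Cn (K ∪ L) := by
  have h1 : ∀ a ∈ K ∪ L, Pth (fun h => h ∈ K ∪ L) a f := by
    intro a ha
    rcases Finset.mem_union.1 ha with h | h
    · exact (hK a h f hfK).mono fun c hc => Finset.mem_union_left _ hc
    · exact (hL a h f hfL).mono fun c hc => Finset.mem_union_right _ hc
  intro a ha b hb
  exact (h1 a ha).trans (h1 b hb).symm

theorem exists_cn {Q : Fc → Prop} {f g : Fc} (h : Pth Q f g) :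
    ∃ K : Finset Fc, Cn K ∧ f ∈ K ∧ g ∈ K ∧ ∀ a ∈ K, Q a := by
  obtain ⟨h1, h2⟩ := h
  induction h2 with
  | refl =>
    refine ⟨{f}, ?_, Finset.mem_singleton_self _, Finset.mem_singleton_self _, ?_⟩
    · intro a ha b hb
      rw [Finset.mem_singleton] at ha hb
      subst ha
      subst hb
      exact Pth.refl (Finset.mem_singleton_self _)
    · intro a ha
      rw [Finset.mem_singleton] at ha
      subst ha
      exact h1
  | tail _ h ih =>
    obtain ⟨K, hK, hf, hg, hQ⟩ := ih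
    refine ⟨insert _ K, hK.insert hg h.2, Finset.mem_insert_of_mem hf,
      Finset.mem_insert_self _ _, ?_⟩
    intro a ha
    rcases Finset.mem_insert.1 ha with rfl | ha
    · exact h.1
    · exact hQ a ha

/-- every finite set is contained in a domain -/
theorem exists_big (S : Finset Fc) : ∃ H : Finset Fc, IsDom H ∧ S ⊆ H := by
  refine ⟨Bx 0 (S.sup fun f => f.1.natAbs + f.2.natAbs), isDom_Bx _ _, fun f hf => ?_⟩
  have h := Finset.le_sup (f := fun f : Fc => f.1.natAbs + f.2.natAbs) hf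
  rw [mem_Bx]
  simp only [Prod.fst_zero, Prod.snd_zero]
  omega

/-- the value of `C` on the edges between `U` and a connected set `L` off `U` is constant, if the end
points of `C` belong to `K`. -/
theorem const_in {U : Finset Fc} (hU : IsDom U) {C : Ed → ZMod 2} (hC : ∀ e, C e ≠ 0 → isB U e)
    {K L : Finset Fc} (hK : Disjoint K U) (hL : Disjoint L U) (hLc : Cn L) (hd : Disjoint K L)
    {v w : Vx} (hdC : ∀ u, dv C u = ind {v} u + ind {w} u) (hlk : Lk K v w) : ∃ t : ZMod 2,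
      ∀ u k, fc u (k + 1) ∈ L ∧ fc u (k + 2) ∈ U ∨ fc u (k + 1) ∈ U ∧ fc u (k + 2) ∈ L →
        C (ed u k) = t := by
  obtain ⟨P, hP1, hP2⟩ := hlk
  obtain ⟨H, hH, hsub⟩ := exists_big (U ∪ K)
  have hUH : U ⊆ H := Finset.subset_union_left.trans hsub
  have hKH : K ⊆ H := Finset.subset_union_right.trans hsub
  obtain ⟨s, hsH, hs⟩ := d1 H hH (fun e => C e + P e) (by
    intro e he
    by_cases h1 : C e = 0
    · by_cases h2 : P e = 0
      · exact absurd (by simp [h1, h2]) he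
      · exact (hP1 e h2).imp (fun h => hKH h) (fun h => hKH h)
    · rcases hC e h1 with h | h
      · exact Or.inl (hUH h.1)
      · exact Or.inr (hUH h.2)) (fun u => by
      rw [dv_add, hdC, hP2]
      have : ∀ a b : ZMod 2, a + b + (a + b) = 0 := by decide
      exact this _ _)
  rcases L.eq_empty_or_nonempty with hLe | ⟨f0, hf0⟩
  · refine ⟨0, fun u k h => ?_⟩
    subst hLe
    rcases h with h | h
    · exact absurd h.1 (Finset.notMem_empty _)
    · exact absurd h.2 (Finset.notMem_empty _)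
  obtain ⟨g0, hg0⟩ := hU.ne
  refine ⟨ind (↑s : Set Fc) f0 + ind (↑s : Set Fc) g0, fun u k h => ?_⟩
  have hLK : ∀ f, f ∈ L → f ∉ K := fun f h1 h2 => (Finset.disjoint_left.1 hd) h2 h1
  have hUK : ∀ f, f ∈ U → f ∉ K := fun f h1 h2 => (Finset.disjoint_left.1 hK) h2 h1
  have hLU : ∀ f, f ∈ L → f ∉ U := fun f h1 h2 => (Finset.disjoint_left.1 hL) h1 h2
  have hP0 : ∀ e, lf e ∉ K → rf e ∉ K → P e = 0 := by
    intro e h1 h2
    by_contra hn
    rcases hP1 e hn with h3 | h3
    · exact h1 h3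
    · exact h2 h3
  have hconst : ∀ f ∈ L, ind (↑s : Set Fc) f = ind (↑s : Set Fc) f0 := by
    intro f hf
    refine ind_path hs (P := fun f => f ∈ L) (fun e h3 h4 => ?_) (hLc f hf f0 hf0)
    show C e + P e = 0
    rw [hP0 e (hLK _ h3) (hLK _ h4), add_zero]
    by_contra hn
    rcases hC e hn with h5 | h5
    · exact hLU _ h3 h5.1
    · exact hLU _ h4 h5.2
  have hconst' : ∀ f ∈ U, ind (↑s : Set Fc) f = ind (↑s : Set Fc) g0 := by
    intro f hf
    refine ind_path hs (P := fun f => f ∈ U) (fun e h3 h4 => ?_) ⟨hf, hU.conn f hf g0 hg0⟩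
    show C e + P e = 0
    rw [hP0 e (hUK _ h3) (hUK _ h4), add_zero]
    by_contra hn
    exact ((isB_iff U e).1 (hC e hn)).2 ⟨h3, h4⟩
  have h1 := hs (ed u k)
  rw [bd_ed] at h1
  rcases h with ⟨h2, h3⟩ | ⟨h2, h3⟩
  · have hp : P (ed u k) = 0 := by
      rcases faces_ed u k with ⟨_, h4, h5⟩ | ⟨_, h4, h5⟩
      · exact hP0 _ (by rw [h4]; exact hLK _ h2) (by rw [h5]; exact hUK _ h3)
      · exact hP0 _ (by rw [h4]; exact hUK _ h3) (by rw [h5]; exact hLK _ h2)
    simp only [hp, add_zero] at h1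
    rw [h1, hconst _ h2, hconst' _ h3]
  · have hp : P (ed u k) = 0 := by
      rcases faces_ed u k with ⟨_, h4, h5⟩ | ⟨_, h4, h5⟩
      · exact hP0 _ (by rw [h4]; exact hUK _ h2) (by rw [h5]; exact hLK _ h3)
      · exact hP0 _ (by rw [h4]; exact hLK _ h3) (by rw [h5]; exact hUK _ h2)
    simp only [hp, add_zero] at h1
    rw [h1, hconst' _ h2, hconst _ h3, add_comm]

/-- two disjoint connected sets of faces off `U` have at most two common vertices on `U` -/
theorem three_in {U : Finset Fc} (hU : IsDom U) {K L : Finset Fc} (hK : Disjoint K U)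
    (hL : Disjoint L U) (hKc : Cn K) (hLc : Cn L) (hd : Disjoint K L) (v : Fin 3 → Vx)
    (k : Fin 3 → Fin 3) (hv : Function.Injective v) (h0 : ∀ i, fc (v i) (k i) ∈ U)
    (h1 : ∀ i, (fc (v i) (k i + 1) ∈ K ∧ fc (v i) (k i + 2) ∈ L) ∨
      (fc (v i) (k i + 1) ∈ L ∧ fc (v i) (k i + 2) ∈ K)) : False := by
  have hKU : ∀ f, f ∈ K → f ∉ U := fun f h1 h2 => (Finset.disjoint_left.1 hK) h1 h2
  have hLU : ∀ f, f ∈ L → f ∉ U := fun f h1 h2 => (Finset.disjoint_left.1 hL) h1 h2
  have hnU : ∀ i, fc (v i) (k i + 1) ∉ U ∧ fc (v i) (k i + 2) ∉ U := by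
    intro i
    rcases h1 i with ⟨h2, h3⟩ | ⟨h2, h3⟩
    · exact ⟨hKU _ h2, hLU _ h3⟩
    · exact ⟨hLU _ h2, hKU _ h3⟩
  have hB : ∀ i, ∃ l, isB U (ed (v i) l) := by
    intro i
    refine ⟨k i + 1, (isB_ed U _ _).2 (Or.inr ⟨?_, ?_⟩)⟩
    · rw [f11]; exact (hnU i).2
    · rw [f12]; exact h0 i
  have hiK : ∀ i, inV K (v i) := by
    intro i
    rcases h1 i with ⟨h2, _⟩ | ⟨_, h3⟩
    · exact ⟨_, h2⟩
    · exact ⟨_, h3⟩
  have hiL : ∀ i, inV L (v i) := by
    intro i
    rcases h1 i with ⟨_, h3⟩ | ⟨h2, _⟩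
    · exact ⟨_, h3⟩
    · exact ⟨_, h2⟩
  obtain ⟨C, hC, hdC⟩ := exists_bdry hU (hB 0) (hB 1)
  obtain ⟨t, ht⟩ := const_in hU hC hK hL hLc hd hdC (lk_of_cn hKc (hiK 0) (hiK 1))
  obtain ⟨t', ht'⟩ := const_in hU hC hL hK hKc hd.symm hdC (lk_of_cn hLc (hiL 0) (hiL 1))
  have e3 : ∀ i, C (ed (v i) (k i)) = 0 := by
    intro i
    by_contra hn
    have h4 := hC _ hn
    rcases (isB_ed U _ _).1 h4 with h5 | h5
    · exact (hnU i).1 h5.1
    · exact (hnU i).2 h5.2
  have e4 : ∀ i, dv C (v i) = t' + t := by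
    intro i
    rw [dv_eq C (v i) (k i), e3, zero_add]
    rcases h1 i with ⟨h2, h3⟩ | ⟨h2, h3⟩
    · rw [ht (v i) (k i + 1) (by rw [f11, f12]; exact Or.inl ⟨h3, h0 i⟩),
        ht' (v i) (k i + 2) (by rw [f21, f22]; exact Or.inr ⟨h0 i, h2⟩)]
      exact add_comm _ _
    · rw [ht' (v i) (k i + 1) (by rw [f11, f12]; exact Or.inl ⟨h3, h0 i⟩),
        ht (v i) (k i + 2) (by rw [f21, f22]; exact Or.inr ⟨h0 i, h2⟩)]
  have e5 := e4 0
  have e6 := e4 2
  rw [hdC] at e5 e6
  have n01 : v 0 ≠ v 1 := fun h => absurd (hv h) (by decide)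
  have n02 : v 2 ≠ v 0 := fun h => absurd (hv h) (by decide)
  have n12 : v 2 ≠ v 1 := fun h => absurd (hv h) (by decide)
  rw [ind_singleton_self, ind_singleton_ne n01] at e5
  rw [ind_singleton_ne n02, ind_singleton_ne n12] at e6
  rw [← e5] at e6
  exact absurd e6 (by decide)

/-- three faces of one class are contained in a finite connected set of the class -/
theorem exists_cn3 {Q : Fc → Prop} (b : Fin 3 → Fc) (h : ∀ i j, Pth Q (b i) (b j)) :
    ∃ K : Finset Fc, Cn K ∧ (∀ i, b i ∈ K) ∧ ∀ a ∈ K, Q a := by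
  obtain ⟨K1, hK1, h10, h11, hQ1⟩ := exists_cn (h 0 1)
  obtain ⟨K2, hK2, h20, h22, hQ2⟩ := exists_cn (h 0 2)
  refine ⟨K1 ∪ K2, hK1.union hK2 h10 h20, ?_, ?_⟩
  · intro i
    fin_cases i
    · exact Finset.mem_union_left _ h10
    · exact Finset.mem_union_left _ h11
    · exact Finset.mem_union_right _ h22
  · intro a ha
    rcases Finset.mem_union.1 ha with h | h
    · exact hQ1 a h
    · exact hQ2 a h

/-- the colouring of a state -/
noncomputable def colB (B : Set Fc) (f : Fc) : Bool := by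
  classical exact decide (f ∈ B)

theorem colB_true {B : Set Fc} {f : Fc} : colB B f = true ↔ f ∈ B := by
  classical
  simp [colB]

theorem colB_false {B : Set Fc} {f : Fc} : colB B f = false ↔ f ∉ B := by
  classical
  simp [colB]

theorem st_of_state {U : Finset Fc} {B : Set Fc} (h : State U B) : St U (colB B) := by
  have hT : ∀ v k, fc v k ∈ U → Nx ↑U (fc v (k + 1)) ∧ Nx ↑U (fc v (k + 2)) := by
    intro v k hk
    exact ⟨⟨fc v k, by exact_mod_cast hk, adj_fc v (f1ne k)⟩,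
      ⟨fc v k, by exact_mod_cast hk, adj_fc v (f2ne k)⟩⟩
  refine ⟨h.dom, ?_, ?_⟩
  · intro x y w hx hy hw
    by_contra hne
    rw [not_or, not_or] at hne
    obtain ⟨hxy, hxw, hyw⟩ := hne
    set v : Fin 3 → Vx := ![x, y, w] with hv
    have hc : ∀ i, chg U (colB B) (v i) := by
      intro i
      fin_cases i
      · exact hx
      · exact hy
      · exact hw
    have hinj : Function.Injective v := by
      intro i j hij
      fin_cases i <;> fin_cases j <;> simp_all
    choose k hk0 hk1 hk2 hk3 using hc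
    -- black and white faces
    have hbw : ∀ i, ∃ b w : Fc, b ∉ U ∧ w ∉ U ∧ b ∈ B ∧ w ∉ B ∧ Nx ↑U b ∧ Nx ↑U w ∧
        ((fc (v i) (k i + 1) = b ∧ fc (v i) (k i + 2) = w) ∨
          (fc (v i) (k i + 1) = w ∧ fc (v i) (k i + 2) = b)) := by
      intro i
      obtain ⟨h1, h2⟩ := hT (v i) (k i) (hk0 i)
      by_cases hB1 : fc (v i) (k i + 1) ∈ B
      · have hB2 : fc (v i) (k i + 2) ∉ B := by
          intro hB2
          apply hk3 i
          rw [colB_true.2 hB1, colB_true.2 hB2]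
        exact ⟨_, _, hk1 i, hk2 i, hB1, hB2, h1, h2, Or.inl ⟨rfl, rfl⟩⟩
      · have hB2 : fc (v i) (k i + 2) ∈ B := by
          by_contra hB2
          apply hk3 i
          rw [colB_false.2 hB1, colB_false.2 hB2]
        exact ⟨_, _, hk2 i, hk1 i, hB2, hB1, h2, h1, Or.inr ⟨rfl, rfl⟩⟩
    choose b w' hb hw' hbB hwB hbN hwN hor using hbw
    obtain ⟨K, hK, hbK, hKQ⟩ := exists_cn3 b fun i j =>
      h.black (b i) (b j) (hb i) (hb j) (hbB i) (hbB j) (hbN i) (hbN j)
    obtain ⟨L, hL, hwL, hLQ⟩ := exists_cn3 w' fun i j =>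
      h.white (w' i) (w' j) (hw' i) (hw' j) (hwB i) (hwB j) (hwN i) (hwN j)
    refine three_in h.dom (K := K) (L := L) ?_ ?_ hK hL ?_ v k hinj hk0 ?_
    · rw [Finset.disjoint_left]; exact fun a ha => (hKQ a ha).1
    · rw [Finset.disjoint_left]; exact fun a ha => (hLQ a ha).1
    · rw [Finset.disjoint_left]; exact fun a ha ha' => (hLQ a ha').2 (hKQ a ha).2
    · intro i
      rcases hor i with ⟨h1, h2⟩ | ⟨h1, h2⟩
      · left; rw [h1, h2]; exact ⟨hbK i, hwL i⟩
      · right; rw [h1, h2]; exact ⟨hwL i, hbK i⟩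
  · intro f g hf hg hfT hgT he
    by_cases hfB : f ∈ B
    · have hgB : g ∈ B := by
        rw [← colB_true, ← he, colB_true]; exact hfB
      have h1 := (h.black f g hf hg hfB hgB hfT hgT).2
      refine Pool.Agent.H74.Tri.Jn.mono (S := {h | h ∉ U ∧ h ∈ B}) ?_ h1
      rintro a ⟨h2, h3⟩
      exact ⟨h2, by rw [colB_true.2 hfB, colB_true.2 h3]⟩
    · have hgB : g ∉ B := by
        rw [← colB_false, ← he, colB_false]; exact hfB
      have h1 := (h.white f g hf hg hfB hgB hfT hgT).2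
      refine Pool.Agent.H74.Tri.Jn.mono (S := {h | h ∉ U ∧ h ∉ B}) ?_ h1
      rintro a ⟨h2, h3⟩
      exact ⟨h2, by rw [colB_false.2 hfB, colB_false.2 h3]⟩

/-- without colour change all touching faces have the same colour -/
theorem mono_of {U : Finset Fc} (hU : IsDom U) {ω : Fc → Bool} (h : ∀ v, ¬ chg U ω v) :
    ∃ c, ∀ f, f ∉ U → tch ↑U f → ω f = c := by
  classical
  have hB : ∀ e, cd U ω true e ≠ 0 → isB U e := by
    intro e he
    by_contra hn
    apply he
    unfold cd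
    unfold isB at hn
    rw [if_neg (fun h => hn (Or.inl ⟨h.1, h.2.1⟩)), if_neg (fun h => hn (Or.inr ⟨h.2.1, h.1⟩)),
      add_zero]
  -- an edge to every touching face
  have hE : ∀ f, f ∉ U → tch ↑U f → ∃ e, isB U e ∧ cd U ω true e = if ω f = true then 1 else 0 := by
    rintro f hf ⟨g, hg, hgf⟩
    rw [Finset.mem_coe] at hg
    obtain ⟨v, k, h1, h2⟩ := adj_iff.1 (adj_symm hgf)
    refine ⟨ed v k, (isB_ed U v k).2 (Or.inl ⟨by rw [h1]; exact hg, by rw [h2]; exact hf⟩), ?_⟩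
    rw [cd_ed, h1, h2]
    by_cases hc : ω f = true
    · rw [if_pos ⟨hg, hf, hc⟩, if_neg (fun h => hf h.1), if_pos hc, add_zero]
    · rw [if_neg (fun h => hc h.2.2), if_neg (fun h => hf h.1), if_neg hc, add_zero]
  rcases d1b U hU (cd U ω true) hB (fun v => by rw [cd_dv, if_neg (h v)]) with h1 | h1
  · refine ⟨false, fun f hf hT => ?_⟩
    obtain ⟨e, _, h3⟩ := hE f hf hT
    rw [h1 e] at h3
    by_contra hc
    rw [Bool.not_eq_false] at hc
    rw [if_pos hc] at h3
    exact absurd h3 (by decide)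
  · refine ⟨true, fun f hf hT => ?_⟩
    obtain ⟨e, h2, h3⟩ := hE f hf hT
    rw [h1 e h2] at h3
    by_contra hc
    rw [if_neg hc] at h3
    exact absurd h3 (by decide)

end Pool.Agent.H58.TA
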